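import Pool.Agent.K9h2.LW.Dini

/-! Convex potentials. -/

open Set Filter Topology MeasureTheory
open scoped ENNReal

namespace Pool.Agent.K9h2.LW

open Pool.Agent.K9h2.LI

variable {g : ℝ → ℝ}

lemma pot_right (hg : Rest g) (hm : Monotone g) {x r : ℝ} (hx : 0 ≤ x) (hxr : x ≤ r) :
    r * pot g x ≤ x * pot g r := by
  have hi : ∀ a b : ℝ, IntervalIntegrable g volume a b := fun a b =>
    hg.cont.intervalIntegrable _ _
  have h1 : pot g x ≤ x * g x := by
    have h2 : pot g x ≤ ∫ _ in (0:ℝ)..x, g x :=
      intervalIntegral.integral_mono_on hx (hi _ _) (by simp) fun t ht => hm ht.2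
    rw [intervalIntegral.integral_const, smul_eq_mul, sub_zero] at h2
    exact h2
  have h3 : pot g x + (r - x) * g x ≤ pot g r := by
    have e : pot g r = pot g x + ∫ t in x..r, g t := by
      unfold pot
      rw [intervalIntegral.integral_add_adjacent_intervals (hi _ _) (hi _ _)]
    have h2 : ∫ _ in x..r, g x ≤ ∫ t in x..r, g t :=
      intervalIntegral.integral_mono_on hxr (by simp) (hi _ _) fun t ht => hm ht.1
    rw [intervalIntegral.integral_const, smul_eq_mul] at h2
    linarith
  have h4 := mul_le_mul_of_nonneg_left h3 hx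
  have h5 := mul_le_mul_of_nonneg_left h1 (sub_nonneg.2 hxr)
  linarith

lemma pot_left (hg : Rest g) (hm : Monotone g) {x l : ℝ} (hx : x ≤ 0) (hxl : l ≤ x) :
    -l * pot g x ≤ -x * pot g l := by
  have := pot_right hg.refl (fun a b hab => neg_le_neg (hm (neg_le_neg hab)))
    (x := -x) (r := -l) (by linarith) (by linarith)
  rw [pot_refl, pot_refl, neg_neg, neg_neg] at this
  exact this

/-- the mean of a convex potential -/
lemma conv_half (hg : Rest g) (hm : Monotone g) (r : ℝ) :
    |∫ x in (0:ℝ)..r, pot g x| ≤ (1 - 1 / 2) * (|r| * pot g r) := by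
  have hpc := hg.pot_cont
  rcases lt_trichotomy r 0 with h | h | h
  · rw [intervalIntegral.integral_symm, abs_neg, abs_of_nonneg
      (intervalIntegral.integral_nonneg h.le fun x _ => hg.pot_nonneg x), abs_of_neg h]
    have h1 : ∫ x in r..0, pot g x ≤ ∫ x in r..0, (pot g r / r) * x := by
      refine intervalIntegral.integral_mono_on h.le (hpc.intervalIntegrable _ _)
        (Continuous.intervalIntegrable (by fun_prop) _ _) fun x hx => ?_
      have := pot_left hg hm hx.2 hx.1
      rw [div_mul_eq_mul_div, le_div_iff_of_neg h]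
      linarith
    rw [intervalIntegral.integral_const_mul, integral_id] at h1
    have hr0 : r ≠ 0 := h.ne
    have e : pot g r / r * ((0 ^ 2 - r ^ 2) / 2) = (1 - 1 / 2) * (-r * pot g r) := by
      field_simp
      ring
    linarith
  · subst h; simp
  · rw [abs_of_nonneg (intervalIntegral.integral_nonneg h.le fun x _ => hg.pot_nonneg x),
      abs_of_pos h]
    have h1 : ∫ x in (0:ℝ)..r, pot g x ≤ ∫ x in (0:ℝ)..r, (pot g r / r) * x := by
      refine intervalIntegral.integral_mono_on h.le (hpc.intervalIntegrable _ _)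
        (Continuous.intervalIntegrable (by fun_prop) _ _) fun x hx => ?_
      have := pot_right hg hm hx.1 hx.2
      rw [div_mul_eq_mul_div, le_div_iff₀ h]
      linarith
    rw [intervalIntegral.integral_const_mul, integral_id] at h1
    have e : pot g r / r * ((r ^ 2 - 0 ^ 2) / 2) = (1 - 1 / 2) * (r * pot g r) := by
      field_simp
      ring
    linarith

end Pool.Agent.K9h2.LW
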