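import Pool.Agent.K9h2.LW.L1

/-! Arbitrary continuous friction: the Dini type bound. -/

open Set Filter Topology MeasureTheory
open scoped ENNReal

namespace Pool.Agent.K9h2.LW

open Pool.Agent.K9h2.LI

variable {g f w : ℝ → ℝ}

/-- lower bound for the integrals over an orbit -/
lemma WOrb.int_ge (hg : Rest g) (o : WOrb g f w) {k : ℝ → ℝ} (hk : Continuous k)
    (hk0 : ∀ x, 0 ≤ k x) :
    (∫ x in o.l..0, k x * (1 - pot g x / pot g o.l)) +
      (∫ x in (0:ℝ)..o.r, k x * (1 - pot g x / pot g o.r)) ≤ ∫ x, k x * o.d x := by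
  have hl := o.loop.up.hl
  have hr := o.loop.up.hr
  have hlr : o.l ≤ o.r := (hl.trans hr).le
  have hpc := hg.pot_cont
  have hi := o.integrable hg hk
  have e1 : ∫ x, k x * o.d x = ∫ x in o.l..o.r, k x * o.d x := by
    rw [intervalIntegral.integral_of_le hlr, ← integral_Icc_eq_integral_Ioc]
    refine (setIntegral_eq_integral_of_forall_compl_eq_zero fun x hx => ?_).symm
    have : o.d x = 0 := dens_zero hx
    rw [this, mul_zero]
  rw [e1, ← intervalIntegral.integral_add_adjacent_intervals (b := 0) hi.intervalIntegrable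
    hi.intervalIntegrable]
  refine add_le_add ?_ ?_
  · refine intervalIntegral.integral_mono_on hl.le ?_ hi.intervalIntegrable fun x hx => ?_
    · exact Continuous.intervalIntegrable (by fun_prop) _ _
    · exact mul_le_mul_of_nonneg_left (o.loop.dens_left hg hx) (hk0 x)
  · refine intervalIntegral.integral_mono_on hr.le ?_ hi.intervalIntegrable fun x hx => ?_
    · exact Continuous.intervalIntegrable (by fun_prop) _ _
    · exact mul_le_mul_of_nonneg_left (o.loop.dens_right hg hx) (hk0 x)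

lemma wt_one : Wt fun _ => (1:ℝ) := ⟨continuous_const, fun _ => zero_le_one, one_pos⟩

/-- the width is bounded by the size -/
lemma WOrb.width_le (hg : Rest g) {κ : ℝ}
    (hκ : ∀ r : ℝ, |∫ x in (0:ℝ)..r, pot g x| ≤ (1 - κ) * (|r| * pot g r))
    (o : WOrb g f fun _ => 1) : κ * (o.r - o.l) ≤ o.S := by
  have hl := o.loop.up.hl
  have hr := o.loop.up.hr
  have hpc := hg.pot_cont
  have hpl := hg.pot_pos hl.ne
  have hpr := hg.pot_pos hr.ne'
  have h := o.int_ge hg (k := fun _ => 1) continuous_const fun _ => zero_le_one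
  have e1 : ∫ x in o.l..0, (1:ℝ) * (1 - pot g x / pot g o.l) =
      -o.l - (∫ x in o.l..0, pot g x) / pot g o.l := by
    simp only [one_mul]
    rw [intervalIntegral.integral_sub, intervalIntegral.integral_div]
    · simp
    · exact Continuous.intervalIntegrable (by fun_prop) _ _
    · exact Continuous.intervalIntegrable (by fun_prop) _ _
  have e2 : ∫ x in (0:ℝ)..o.r, (1:ℝ) * (1 - pot g x / pot g o.r) =
      o.r - (∫ x in (0:ℝ)..o.r, pot g x) / pot g o.r := by
    simp only [one_mul]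
    rw [intervalIntegral.integral_sub, intervalIntegral.integral_div]
    · simp
    · exact Continuous.intervalIntegrable (by fun_prop) _ _
    · exact Continuous.intervalIntegrable (by fun_prop) _ _
  have h1 : (∫ x in o.l..0, pot g x) / pot g o.l ≤ (1 - κ) * -o.l := by
    rw [div_le_iff₀ hpl]
    have := hκ o.l
    rw [abs_of_neg hl, intervalIntegral.integral_symm, abs_neg] at this
    have h2 := le_abs_self (∫ x in o.l..0, pot g x)
    linarith
  have h2 : (∫ x in (0:ℝ)..o.r, pot g x) / pot g o.r ≤ (1 - κ) * o.r := by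
    rw [div_le_iff₀ hpr]
    have := hκ o.r
    rw [abs_of_pos hr] at this
    have h2 := le_abs_self (∫ x in (0:ℝ)..o.r, pot g x)
    linarith
  rw [e1, e2] at h
  unfold WOrb.S
  linarith

/-- **Arbitrary continuous friction.** All closed orbits in the strip `α ≤ x ≤ β` which reach
`|x| ≥ a`. -/
theorem dini (hg : Rest g) (hf : Continuous f) {κ : ℝ} (hκ0 : 0 < κ)
    (hκ : ∀ r : ℝ, |∫ x in (0:ℝ)..r, pot g x| ≤ (1 - κ) * (|r| * pot g r))
    (α β a c : ℝ) :
    ∃ N : ℝ → ℝ≥0∞, Measurable N ∧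
      (∀ μ, (({C | C ∈ orbitsW g f (fun _ => 1) μ ∧ (∀ z ∈ C, z.1 ∈ Icc α β) ∧
        ∃ z ∈ C, a ≤ |z.1|}.encard : ℕ∞) : ℝ≥0∞) ≤ N μ) ∧
      ∫⁻ μ, N μ ≤ ENNReal.ofReal (4 / κ) *
        ∫⁻ x in Icc α β, ENNReal.ofReal (|f x - c| / max |x| a) := by
  rcases eq_or_ne (∫⁻ x in Icc α β, ENNReal.ofReal (|f x - c| / max |x| a)) ⊤ with htop | hfin
  · refine ⟨fun _ => ⊤, measurable_const, fun _ => le_top, ?_⟩
    rw [htop, ENNReal.mul_top (by simp; positivity)]
    exact le_top
  have hmeas : Measurable fun x => |f x - c| / max |x| a := by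
    have : Measurable f := hf.measurable
    fun_prop
  have hnn : ∀ x, 0 ≤ |f x - c| / max |x| a := fun x =>
    div_nonneg (abs_nonneg _) ((abs_nonneg x).trans (le_max_left _ _))
  have hint : IntegrableOn (fun x => |f x - c| / max |x| a) (Icc α β) := by
    refine ⟨hmeas.aestronglyMeasurable, ?_⟩
    rw [hasFiniteIntegral_iff_ofReal (Eventually.of_forall hnn)]
    exact lt_top_iff_ne_top.2 hfin
  set I : Set ℝ := Icc α β \ {0} with hI
  have hIm : MeasurableSet I := measurableSet_Icc.diff (measurableSet_singleton 0)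
  have hae : I =ᵐ[volume] Icc α β := sdiff_null_ae_eq_self (by simp)
  have e1 : (fun x => |f x - c * 1| / (κ * max |x| a)) =
      fun x => 1 / κ * (|f x - c| / max |x| a) := by
    funext x
    rw [mul_one, mul_comm κ, ← div_div]
    ring
  have hint2 : IntegrableOn (fun x => |f x - c * (fun _ => (1:ℝ)) x| / (κ * max |x| a)) I := by
    have := (hint.mono_set (sdiff_subset (s := Icc α β) (t := {0}))).const_mul (1 / κ)
    simp only
    rw [e1]
    exact this
  have hP : ∀ o : WOrb g f fun _ => 1, ((∀ z ∈ curve o.l o.r o.U o.L, z.1 ∈ Icc α β) ∧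
      ∃ z ∈ curve o.l o.r o.U o.L, a ≤ |z.1|) → (∀ᵐ x, x ∉ I → o.d x = 0) ∧ 0 < o.S ∧
      ∀ x ∈ I, x ∈ Icc o.l o.r → κ * max |x| a ≤ o.S := by
    intro o ho
    obtain ⟨ho1, z, hz, haz⟩ := ho
    have hlr : o.l ≤ o.r := (o.loop.up.hl.trans o.loop.up.hr).le
    have hl1 := ho1 (o.l, o.U o.l) (Or.inl ⟨o.l, left_mem_Icc.2 hlr, rfl⟩)
    have hr1 := ho1 (o.r, o.U o.r) (Or.inl ⟨o.r, right_mem_Icc.2 hlr, rfl⟩)
    have hw := o.width_le hg hκ
    have hlr' : o.l < o.r := o.loop.up.hl.trans o.loop.up.hr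
    have hin : ∀ y ∈ Icc o.l o.r, |y| ≤ o.r - o.l := by
      intro y hy
      have := o.loop.up.hl
      have := o.loop.up.hr
      exact abs_le.2 ⟨by linarith [hy.1], by linarith [hy.2]⟩
    have hz1 : z.1 ∈ Icc o.l o.r := by
      rcases hz with ⟨y, hy, rfl⟩ | ⟨y, hy, rfl⟩ <;> exact hy
    refine ⟨?_, ?_, ?_⟩
    · have h0 : ∀ᵐ x : ℝ, x ≠ 0 := by simp [ae_iff]
      filter_upwards [h0] with x hx hxI
      refine dens_zero fun hcon => hxI ⟨⟨hl1.1.trans hcon.1, hcon.2.trans hr1.2⟩, hx⟩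
    · have := mul_pos hκ0 (sub_pos.2 hlr')
      linarith
    · intro x _ hx
      refine le_trans ?_ hw
      exact mul_le_mul_of_nonneg_left (max_le (hin x hx) (haz.trans (hin _ hz1))) hκ0.le
  obtain ⟨N, h1, h2, h3⟩ := l1_bound (w := fun _ => 1) hg wt_one hf c hIm
    (s := fun x => κ * max |x| a) (by fun_prop)
    (fun x hx => mul_pos hκ0 (lt_max_of_lt_left (abs_pos.2 hx.2)))
    (fun C => (∀ z ∈ C, z.1 ∈ Icc α β) ∧ ∃ z ∈ C, a ≤ |z.1|) hP hint2
  refine ⟨N, h1, h2, h3.trans (le_of_eq ?_)⟩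
  have e2 : ∫ x in I, |f x - c * (fun _ => (1:ℝ)) x| / (κ * max |x| a) =
      1 / κ * ∫ x in Icc α β, |f x - c| / max |x| a := by
    simp only
    rw [e1, integral_const_mul, setIntegral_congr_set hae]
  rw [e2, ← mul_assoc, show 4 * (1 / κ) = 4 / κ by ring,
    ENNReal.ofReal_mul (by positivity), ofReal_integral_eq_lintegral_ofReal hint
      (Eventually.of_forall hnn)]

end Pool.Agent.K9h2.LW
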