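import Pool.Agent.K9h2.LW.Whole

/-! Even friction: the variation bound. -/

open Set Filter Topology MeasureTheory
open scoped ENNReal

namespace Pool.Agent.K9h2.LW

open Pool.Agent.K9h2.LI

variable {g f w : ℝ → ℝ}

/-! ### fractions -/

/-- the fraction grows at most like a quarter of the logarithm -/
lemma frac_log {E M1 M2 : ℝ} (hE : 0 ≤ E) (h1 : 0 < M1) (h12 : M1 ≤ M2) :
    M2 / (M2 + E) - M1 / (M1 + E) ≤ 1 / 4 * (Real.log M2 - Real.log M1) := by
  have hmono : MonotoneOn (fun M => 1 / 4 * Real.log M - M / (M + E)) (Ioi 0) := by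
    have hd : ∀ M ∈ Ioi (0:ℝ), HasDerivAt (fun M => 1 / 4 * Real.log M - M / (M + E))
        (1 / 4 * M⁻¹ - (1 * (M + E) - M * 1) / (M + E) ^ 2) M := by
      intro M hM
      have hM' : 0 < M := hM
      have h2 : M + E ≠ 0 := by positivity
      exact ((Real.hasDerivAt_log hM'.ne').const_mul _).sub
        ((hasDerivAt_id M).div ((hasDerivAt_id M).add_const E) h2)
    refine monotoneOn_of_deriv_nonneg (convex_Ioi 0)
      (fun M hM => (hd M hM).continuousAt.continuousWithinAt) ?_ ?_
    · rw [interior_Ioi]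
      exact fun M hM => (hd M hM).differentiableAt.differentiableWithinAt
    · rw [interior_Ioi]
      intro M hM
      have hM' : 0 < M := hM
      rw [(hd M hM).deriv]
      have h2 : 0 < M + E := by positivity
      have e : 1 / 4 * M⁻¹ - (1 * (M + E) - M * 1) / (M + E) ^ 2 =
          (M - E) ^ 2 / (4 * M * (M + E) ^ 2) := by
        field_simp
        ring
      rw [e]
      positivity
  have := hmono (mem_Ioi.2 h1) (mem_Ioi.2 (h1.trans_le h12)) h12
  simp only at this
  linarith

/-- the step inequality for the fractions -/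
lemma frac_step {M1 M2 E1 E2 s : ℝ} (hM1 : 0 < M1) (hM : M1 ≤ M2) (hE1 : 0 ≤ E1) (hE : E1 ≤ E2)
    (hs : 0 < s) (hcase : E1 = 0 ∨ s ≤ M1) :
    |M2 / (M2 + E2) - M1 / (M1 + E1)| ≤
      (-(M2 / (M2 + E2)) + 1 / 2 * Real.log (max M2 s / s)) -
      (-(M1 / (M1 + E1)) + 1 / 2 * Real.log (max M1 s / s)) := by
  have hM2 : 0 < M2 := hM1.trans_le hM
  have hE2 : 0 ≤ E2 := hE1.trans hE
  have hlog : Real.log (max M1 s / s) ≤ Real.log (max M2 s / s) := by
    apply Real.log_le_log
    · have : 0 < max M1 s := lt_max_of_lt_left hM1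
      positivity
    · exact div_le_div_of_nonneg_right (max_le_max_right _ hM) hs.le
  rcases hcase with h0 | h0
  · subst h0
    have h2 : M2 / (M2 + E2) ≤ 1 := by
      rw [div_le_one (by positivity)]; linarith
    rw [add_zero, div_self hM1.ne', abs_of_nonpos (by linarith)]
    linarith
  · rcases le_total (M2 / (M2 + E2)) (M1 / (M1 + E1)) with h | h
    · rw [abs_of_nonpos (by linarith)]
      linarith
    · rw [abs_of_nonneg (by linarith)]
      have h1 : M2 / (M2 + E2) ≤ M2 / (M2 + E1) :=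
        div_le_div_of_nonneg_left hM2.le (by positivity) (by linarith)
      have h2 := frac_log hE1 hM1 hM
      rw [max_eq_left h0, max_eq_left (h0.trans hM), Real.log_div hM1.ne' hs.ne',
        Real.log_div hM2.ne' hs.ne']
      linarith

/-! ### the mass inside -/

lemma WOrb.d_cont (hg : Rest g) (o : WOrb g f w) : Continuous o.d := by
  have hlr : o.l < o.r := o.loop.up.hl.trans o.loop.up.hr
  unfold WOrb.d dens
  refine continuous_indicator ?_ ?_
  · rw [frontier_Icc hlr.le]
    rintro x (rfl | rfl)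
    · rw [o.loop.up.left, o.loop.lo.left]; simp [psi]
    · rw [o.loop.up.right, o.loop.lo.right]; simp [psi]
  · rw [isClosed_Icc.closure_eq]
    exact (o.loop.up.psi_cont hg).add (o.loop.lo.psi_cont hg)

/-- the mass in `|x| < t` -/
noncomputable def WOrb.M (o : WOrb g f w) (t : ℝ) : ℝ :=
  ∫ x in (0:ℝ)..t, w x * (o.d x + o.d (-x))

/-- the weight and the lower bound -/
noncomputable def sW (w : ℝ → ℝ) (t : ℝ) : ℝ := ∫ x in (0:ℝ)..t, w x * (1 - x / t)

lemma WOrb.M_cont_aux (hg : Rest g) (hw : Wt w) (o : WOrb g f w) :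
    Continuous fun x => w x * (o.d x + o.d (-x)) := by
  have := hw.cont
  have := o.d_cont hg
  fun_prop

lemma WOrb.hasDerivAt_M (hg : Rest g) (hw : Wt w) (o : WOrb g f w) (t : ℝ) :
    HasDerivAt o.M (w t * (o.d t + o.d (-t))) t :=
  ((o.M_cont_aux hg hw).integral_hasStrictDerivAt 0 t).hasDerivAt

lemma WOrb.M_cont (hg : Rest g) (hw : Wt w) (o : WOrb g f w) : Continuous o.M :=
  continuous_iff_continuousAt.2 fun t => (o.hasDerivAt_M hg hw t).continuousAt

/-- folding an integral against an even function -/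
lemma WOrb.fold (hg : Rest g) (o : WOrb g f w) {k : ℝ → ℝ} (hk : Continuous k)
    (hke : ∀ x, k (-x) = k x) {R : ℝ} (hR : o.ρ ≤ R) :
    ∫ x, k x * o.d x = ∫ x in (0:ℝ)..R, k x * (o.d x + o.d (-x)) := by
  have hR0 : 0 < R := lt_of_lt_of_le (o.loop.up.hr.trans_le (le_max_left _ _)) hR
  have hdc := o.d_cont hg
  have hkd : Continuous fun x => k x * o.d x := by fun_prop
  have e1 : ∫ x, k x * o.d x = ∫ x in (-R)..R, k x * o.d x := by
    rw [intervalIntegral.integral_of_le (by linarith), ← integral_Icc_eq_integral_Ioc]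
    refine (setIntegral_eq_integral_of_forall_compl_eq_zero fun x hx => ?_).symm
    have : o.d x = 0 := dens_zero fun hx' => hx (abs_le.1 ((o.ρ_mem hx').trans hR))
    rw [this, mul_zero]
  have e2 : ∫ x in (-R)..0, k x * o.d x = ∫ x in (0:ℝ)..R, k x * o.d (-x) := by
    have := intervalIntegral.integral_comp_neg (a := 0) (b := R) (fun x => k x * o.d x)
    rw [neg_zero] at this
    rw [← this]
    refine intervalIntegral.integral_congr fun x _ => ?_
    rw [hke]
  have hkd' : Continuous fun x => k x * o.d (-x) := by fun_prop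
  rw [e1, ← intervalIntegral.integral_add_adjacent_intervals (b := 0)
    (hkd.intervalIntegrable _ _) (hkd.intervalIntegrable _ _), e2,
    ← intervalIntegral.integral_add (hkd'.intervalIntegrable _ _) (hkd.intervalIntegrable _ _)]
  refine intervalIntegral.integral_congr fun x _ => ?_
  ring

lemma WOrb.M_eq (hg : Rest g) (hw : Wt w) (hwe : ∀ x, w (-x) = w x) (o : WOrb g f w) {t : ℝ}
    (ht : o.ρ ≤ t) : o.M t = o.S := (o.fold hg hw.cont hwe ht).symm

lemma WOrb.M_mono {o1 o2 : WOrb g f w} (hg : Rest g) (hw : Wt w) (hf : Continuous f)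
    (h : o1.U 0 < o2.U 0) {t : ℝ} (ht : 0 ≤ t) : o1.M t ≤ o2.M t := by
  refine intervalIntegral.integral_mono_on ht ((o1.M_cont_aux hg hw).intervalIntegrable _ _)
    ((o2.M_cont_aux hg hw).intervalIntegrable _ _) fun x _ => ?_
  exact mul_le_mul_of_nonneg_left (add_le_add (WOrb.d_mono hg hw hf h x)
    (WOrb.d_mono hg hw hf h (-x))) (hw.nn x)

lemma WOrb.E_eq (hg : Rest g) (hw : Wt w) (hwe : ∀ x, w (-x) = w x) (o : WOrb g f w) {t R : ℝ}
    (hR : o.ρ ≤ R) : o.S - o.M t = ∫ x in t..R, w x * (o.d x + o.d (-x)) := by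
  have hc := o.M_cont_aux hg hw
  rw [← o.M_eq hg hw hwe hR]
  unfold WOrb.M
  rw [← intervalIntegral.integral_add_adjacent_intervals (a := 0) (b := t) (c := R)
    (hc.intervalIntegrable _ _) (hc.intervalIntegrable _ _)]
  ring

lemma WOrb.E_mono {o1 o2 : WOrb g f w} (hg : Rest g) (hw : Wt w) (hwe : ∀ x, w (-x) = w x)
    (hf : Continuous f) (h : o1.U 0 < o2.U 0) (t : ℝ) : o1.S - o1.M t ≤ o2.S - o2.M t := by
  set R := max t (max o1.ρ o2.ρ) with hR
  rw [o1.E_eq hg hw hwe (R := R) ((le_max_left _ _).trans (le_max_right _ _)),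
    o2.E_eq hg hw hwe (R := R) ((le_max_right _ _).trans (le_max_right _ _))]
  refine intervalIntegral.integral_mono_on (le_max_left _ _)
    ((o1.M_cont_aux hg hw).intervalIntegrable _ _)
    ((o2.M_cont_aux hg hw).intervalIntegrable _ _) fun x _ => ?_
  exact mul_le_mul_of_nonneg_left (add_le_add (WOrb.d_mono hg hw hf h x)
    (WOrb.d_mono hg hw hf h (-x))) (hw.nn x)

lemma WOrb.E_nonneg (hg : Rest g) (hw : Wt w) (hwe : ∀ x, w (-x) = w x) (o : WOrb g f w) (t : ℝ) :
    0 ≤ o.S - o.M t := by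
  rw [o.E_eq hg hw hwe (R := max t o.ρ) (le_max_right _ _)]
  exact intervalIntegral.integral_nonneg (le_max_left _ _) fun x _ =>
    mul_nonneg (hw.nn x) (add_nonneg (o.d_nonneg hg x) (o.d_nonneg hg (-x)))

lemma WOrb.M_nonneg (hg : Rest g) (hw : Wt w) (o : WOrb g f w) {t : ℝ} (ht : 0 ≤ t) :
    0 ≤ o.M t :=
  intervalIntegral.integral_nonneg ht fun x _ =>
    mul_nonneg (hw.nn x) (add_nonneg (o.d_nonneg hg x) (o.d_nonneg hg (-x)))

lemma WOrb.M_le (hg : Rest g) (hw : Wt w) (o : WOrb g f w) {t : ℝ} (ht : 0 ≤ t) :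
    o.M t ≤ 4 * ∫ x in (0:ℝ)..t, w x := by
  rw [← intervalIntegral.integral_const_mul]
  have hc := hw.cont
  refine intervalIntegral.integral_mono_on ht ((o.M_cont_aux hg hw).intervalIntegrable _ _)
    (Continuous.intervalIntegrable (by fun_prop) _ _) fun x _ => ?_
  have h1 := o.d_le hg x
  have h2 := o.d_le hg (-x)
  have := mul_le_mul_of_nonneg_left (show o.d x + o.d (-x) ≤ 4 by linarith) (hw.nn x)
  linarith

lemma WOrb.M_ge (hg : Rest g) (hm : Monotone g) (hw : Wt w) (o : WOrb g f w) {t : ℝ}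
    (ht : 0 < t) (htρ : t ≤ o.ρ) : sW w t ≤ o.M t := by
  have hwc := hw.cont
  refine intervalIntegral.integral_mono_on ht.le
    (Continuous.intervalIntegrable (by fun_prop) _ _)
    ((o.M_cont_aux hg hw).intervalIntegrable _ _) fun x hx => ?_
  refine mul_le_mul_of_nonneg_left ?_ (hw.nn x)
  have h1 := o.d_nonneg hg x
  have h2 := o.d_nonneg hg (-x)
  have hρ : o.ρ = max o.r (-o.l) := rfl
  rcases max_choice o.r (-o.l) with h | h
  · rw [hρ, h] at htρ
    have hr := o.loop.up.hr
    have h3 := o.loop.dens_right hg (x := x) ⟨hx.1, hx.2.trans htρ⟩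
    have h4 := pot_right hg hm hx.1 (hx.2.trans htρ)
    have h5 : pot g x / pot g o.r ≤ x / t := by
      rw [div_le_div_iff₀ (hg.pot_pos hr.ne') ht]
      have := mul_le_mul_of_nonneg_right htρ (hg.pot_nonneg x)
      linarith
    change _ ≤ o.d x at h3
    linarith
  · rw [hρ, h] at htρ
    have hl := o.loop.up.hl
    have h3 := o.loop.dens_left hg (x := -x) ⟨by linarith [hx.2], by linarith [hx.1]⟩
    have h4 := pot_left hg hm (x := -x) (l := o.l) (by linarith [hx.1]) (by linarith [hx.2])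
    have h5 : pot g (-x) / pot g o.l ≤ x / t := by
      rw [div_le_div_iff₀ (hg.pot_pos hl.ne) ht]
      have := mul_le_mul_of_nonneg_right htρ (hg.pot_nonneg (-x))
      rw [neg_neg] at h4
      linarith
    change _ ≤ o.d (-x) at h3
    linarith

/-! ### the even part of the friction -/

/-- the average of the even part -/
lemma WOrb.avg (hg : Rest g) (hw : Wt w) (hwe : ∀ x, w (-x) = w x) (o : WOrb g f w)
    {φ φ' : ℝ → ℝ} (hφ : ∀ t, HasDerivAt φ (φ' t) t) (hφ' : Continuous φ') {R : ℝ}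
    (hR : o.ρ ≤ R) :
    ∫ x, φ |x| * w x * o.d x = φ R * o.S - ∫ t in (0:ℝ)..R, φ' t * o.M t := by
  have hR0 : 0 < R := lt_of_lt_of_le (o.loop.up.hr.trans_le (le_max_left _ _)) hR
  have hwc := hw.cont
  have hφc : Continuous φ := continuous_iff_continuousAt.2 fun t => (hφ t).continuousAt
  have hMc := o.M_cont_aux hg hw
  rw [o.fold hg (k := fun x => φ |x| * w x) (by fun_prop) (fun x => by
    simp only [abs_neg, hwe]) hR]
  have e1 : ∫ x in (0:ℝ)..R, φ |x| * w x * (o.d x + o.d (-x)) =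
      ∫ x in (0:ℝ)..R, φ x * (w x * (o.d x + o.d (-x))) := by
    refine intervalIntegral.integral_congr fun x hx => ?_
    rw [uIcc_of_le hR0.le] at hx
    rw [abs_of_nonneg hx.1]
    ring
  rw [e1, intervalIntegral.integral_mul_deriv_eq_deriv_mul (fun t _ => hφ t)
    (fun t _ => o.hasDerivAt_M hg hw t) (hφ'.intervalIntegrable _ _)
    (hMc.intervalIntegrable _ _), o.M_eq hg hw hwe hR]
  have e2 : o.M 0 = 0 := by simp [WOrb.M]
  rw [e2]
  ring

/-- the potential of the even part at one level -/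
noncomputable def WOrb.br (o : WOrb g f w) (t : ℝ) : ℝ :=
  -(o.M t / o.S) + 1 / 2 * Real.log (max (o.M t) (sW w t) / sW w t)

lemma WOrb.br_step {o1 o2 : WOrb g f w} (hg : Rest g) (hm : Monotone g) (hw : Wt w)
    (hwe : ∀ x, w (-x) = w x) (hf : Continuous f) (h : o1.U 0 < o2.U 0) (hS : 0 < o1.S)
    {t : ℝ} (ht : 0 < t) (hs : 0 < sW w t) :
    |o2.M t / o2.S - o1.M t / o1.S| ≤ o2.br t - o1.br t := by
  have hE1 := o1.E_nonneg hg hw hwe t
  have hM0 := o1.M_nonneg hg hw ht.le
  have hcase : o1.S - o1.M t = 0 ∨ sW w t ≤ o1.M t := by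
    rcases le_total o1.ρ t with h1 | h1
    · left; rw [o1.M_eq hg hw hwe h1, sub_self]
    · right; exact o1.M_ge hg hm hw ht h1
  have hM1 : 0 < o1.M t := by
    rcases hcase with h1 | h1
    · linarith
    · linarith
  have := frac_step hM1 (WOrb.M_mono hg hw hf h ht.le) hE1 (WOrb.E_mono hg hw hwe hf h t) hs hcase
  simp only [add_sub_cancel] at this
  exact this

lemma WOrb.br_bd (hg : Rest g) (hw : Wt w) (hwe : ∀ x, w (-x) = w x)
    (o : WOrb g f w) (hS : 0 < o.S) {Q t : ℝ} (hQ : 1 ≤ Q) (ht : 0 < t) (hs : 0 < sW w t)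
    (hQs : 4 * ∫ x in (0:ℝ)..t, w x ≤ Q * sW w t) :
    -1 ≤ o.br t ∧ o.br t ≤ 1 / 2 * Real.log Q := by
  have hM0 := o.M_nonneg hg hw ht.le
  have hE := o.E_nonneg hg hw hwe t
  have hM := (o.M_le hg hw ht.le).trans hQs
  have h1 : o.M t / o.S ≤ 1 := by rw [div_le_one hS]; linarith
  have h2 : 0 ≤ o.M t / o.S := div_nonneg hM0 hS.le
  have h3 : 1 ≤ max (o.M t) (sW w t) / sW w t := by
    rw [le_div_iff₀ hs, one_mul]; exact le_max_right _ _
  have h4 : max (o.M t) (sW w t) / sW w t ≤ Q := by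
    rw [div_le_iff₀ hs]
    exact max_le hM (by nlinarith)
  have h5 := Real.log_nonneg h3
  have h6 := Real.log_le_log (by linarith) h4
  unfold WOrb.br
  constructor <;> linarith

/-- **The variation bound**, with a remaining part of the friction which is controlled
otherwise. -/
theorem even_bound (hg : Rest g) (hm : Monotone g) (hw : Wt w) (hwe : ∀ x, w (-x) = w x)
    (hw0 : ∀ t, 0 < t → 0 < sW w t) {Q : ℝ} (hQ : 1 ≤ Q)
    (hQs : ∀ t, 0 < t → 4 * ∫ x in (0:ℝ)..t, w x ≤ Q * sW w t)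
    (hf : Continuous f) {φ φ' h : ℝ → ℝ} (hφ : ∀ t, HasDerivAt φ (φ' t) t)
    (hφ' : Continuous φ') (hh : Continuous h) (hfφ : ∀ x, f x = φ |x| * w x + h x)
    {J : Set ℝ} (hJm : MeasurableSet J) (hJ : J ⊆ Ioi 0) (hint : IntegrableOn φ' J)
    (P : Set (ℝ × ℝ) → Prop)
    (hP : ∀ o : WOrb g f w, P (curve o.l o.r o.U o.L) → 0 < o.S ∧ Ioc 0 o.ρ ⊆ J)
    {K : ℝ} (θh : WOrb g f w → ℝ)
    (h1 : ∀ o o' : WOrb g f w, P (curve o.l o.r o.U o.L) → P (curve o'.l o'.r o'.U o'.L) →
        o.U 0 < o'.U 0 → |(∫ x, h x * o'.d x) / o'.S - (∫ x, h x * o.d x) / o.S| ≤ θh o' - θh o)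
    (h2 : ∀ o o' : WOrb g f w, o.U 0 = o'.U 0 → θh o = θh o')
    (h3 : ∀ o o' : WOrb g f w, P (curve o.l o.r o.U o.L) → P (curve o'.l o'.r o'.U o'.L) →
        θh o' - θh o ≤ K) :
    ∃ N : ℝ → ℝ≥0∞, Measurable N ∧
      (∀ μ, (({C | C ∈ orbitsW g f w μ ∧ P C}.encard : ℕ∞) : ℝ≥0∞) ≤ N μ) ∧
      ∫⁻ μ, N μ ≤ ENNReal.ofReal ((1 + 1 / 2 * Real.log Q) * (∫ t in J, |φ' t|) + K) := by
  have hwc := hw.cont
  have hφc : Continuous φ := continuous_iff_continuousAt.2 fun t => (hφ t).continuousAt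
  have hsm : Measurable (sW w) := by
    have e : ∀ t, sW w t = (∫ x in (0:ℝ)..t, w x) - (∫ x in (0:ℝ)..t, w x * x) / t := by
      intro t
      unfold sW
      rw [← intervalIntegral.integral_div, ← intervalIntegral.integral_sub
        (hwc.intervalIntegrable _ _) (Continuous.intervalIntegrable (by fun_prop) _ _)]
      refine intervalIntegral.integral_congr fun x _ => ?_
      ring
    have c1 : Continuous fun t => ∫ x in (0:ℝ)..t, w x := by
      have : ∀ t, HasDerivAt (fun t => ∫ x in (0:ℝ)..t, w x) (w t) t := fun t =>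
        (hwc.integral_hasStrictDerivAt 0 t).hasDerivAt
      exact continuous_iff_continuousAt.2 fun t => (this t).continuousAt
    have c2 : Continuous fun t => ∫ x in (0:ℝ)..t, w x * x := by
      have hc : Continuous fun x => w x * x := by fun_prop
      have : ∀ t, HasDerivAt (fun t => ∫ x in (0:ℝ)..t, w x * x) (w t * t) t := fun t =>
        (hc.integral_hasStrictDerivAt 0 t).hasDerivAt
      exact continuous_iff_continuousAt.2 fun t => (this t).continuousAt
    rw [show sW w = fun t => (∫ x in (0:ℝ)..t, w x) - (∫ x in (0:ℝ)..t, w x * x) / t from funext e]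
    exact c1.measurable.sub (c2.measurable.div measurable_id)
  have hQlog : 0 ≤ Real.log Q := Real.log_nonneg hQ
  have hint' : IntegrableOn (fun t => |φ' t|) J := hint.abs
  have hbi : ∀ o : WOrb g f w, 0 < o.S → IntegrableOn (fun t => |φ' t| * o.br t) J := by
    intro o hS
    have hmeas : Measurable o.br := by
      have := (o.M_cont hg hw).measurable
      unfold WOrb.br
      exact ((this.div_const _).neg).add
        (measurable_const.mul (Real.measurable_log.comp ((this.max hsm).div hsm)))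
    refine Integrable.mono' (hint'.mul_const (1 + 1 / 2 * Real.log Q)) ?_ ?_
    · exact (hφ'.abs.measurable.mul hmeas).aestronglyMeasurable
    · refine (ae_restrict_iff' hJm).2 (Eventually.of_forall fun t ht => ?_)
      obtain ⟨b1, b2⟩ := o.br_bd hg hw hwe hS hQ (hJ ht) (hw0 t (hJ ht)) (hQs t (hJ ht))
      rw [norm_mul, Real.norm_eq_abs, Real.norm_eq_abs, abs_abs]
      refine mul_le_mul_of_nonneg_left (abs_le.2 ⟨?_, ?_⟩) (abs_nonneg _) <;> linarith
  refine wcount hg hw hf P fun e he =>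
    ⟨fun o => (∫ t in J, |φ' t| * o.br t) + θh o, ?_, ?_, ?_⟩
  · intro o o' ho ho' hlt _
    obtain ⟨hS, hoJ⟩ := hP o ho
    obtain ⟨hS', hoJ'⟩ := hP o' ho'
    have hb := h1 o o' ho ho' hlt
    -- the parameter
    have hμ : ∀ q : WOrb g f w, 0 < q.S → q.μ = -((∫ x, φ |x| * w x * q.d x) / q.S) -
        (∫ x, h x * q.d x) / q.S := by
      intro q hq
      have hr := q.rel hg hw hf 0
      have e1 : ∫ x, (f x - 0 * w x) * q.d x =
          (∫ x, φ |x| * w x * q.d x) + ∫ x, h x * q.d x := by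
        rw [← integral_add (q.integrable hg (k := fun x => φ |x| * w x) (by fun_prop))
          (q.integrable hg hh)]
        congr 1
        funext x
        rw [hfφ x]
        ring
      rw [e1, add_zero] at hr
      field_simp
      linarith
    set R := max o.ρ o'.ρ with hR
    have a1 := o.avg hg hw hwe hφ hφ' (le_max_left o.ρ o'.ρ)
    have a2 := o'.avg hg hw hwe hφ hφ' (le_max_right o.ρ o'.ρ)
    rw [← hR] at a1 a2
    have hρρ : o.ρ ≤ o'.ρ := by
      have hin := WOrb.inside hg hw hf hlt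
      unfold WOrb.ρ
      exact max_le_max hin.2.1.le (by linarith [hin.1])
    have hRe : R = o'.ρ := max_eq_right hρρ
    have hR0 : 0 < R := lt_of_lt_of_le (o.loop.up.hr.trans_le (le_max_left _ _)) (le_max_left _ _)
    have hMc := o.M_cont hg hw
    have hMc' := o'.M_cont hg hw
    have e2 : (∫ x, φ |x| * w x * o'.d x) / o'.S - (∫ x, φ |x| * w x * o.d x) / o.S =
        -∫ t in (0:ℝ)..R, φ' t * (o'.M t / o'.S - o.M t / o.S) := by
      rw [a1, a2]
      have e3 : ∫ t in (0:ℝ)..R, φ' t * (o'.M t / o'.S - o.M t / o.S) =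
          (∫ t in (0:ℝ)..R, φ' t * o'.M t) / o'.S - (∫ t in (0:ℝ)..R, φ' t * o.M t) / o.S := by
        rw [← intervalIntegral.integral_div, ← intervalIntegral.integral_div,
          ← intervalIntegral.integral_sub
          (Continuous.intervalIntegrable (by fun_prop) _ _)
          (Continuous.intervalIntegrable (by fun_prop) _ _)]
        refine intervalIntegral.integral_congr fun x _ => ?_
        ring
      rw [e3]
      field_simp
      ring
    have ha : |(∫ x, φ |x| * w x * o'.d x) / o'.S - (∫ x, φ |x| * w x * o.d x) / o.S| ≤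
        (∫ t in J, |φ' t| * o'.br t) - ∫ t in J, |φ' t| * o.br t := by
      rw [e2, abs_neg, intervalIntegral.integral_of_le hR0.le, ← integral_sub (hbi o' hS')
        (hbi o hS)]
      refine (abs_integral_le_integral_abs).trans ?_
      have hsub : Ioc 0 R ⊆ J := by rw [hRe]; exact hoJ'
      have hstep : ∀ t ∈ J, |φ' t * (o'.M t / o'.S - o.M t / o.S)| ≤
          |φ' t| * o'.br t - |φ' t| * o.br t := by
        intro t ht
        rw [abs_mul, ← mul_sub]
        exact mul_le_mul_of_nonneg_left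
          (WOrb.br_step hg hm hw hwe hf hlt hS (hJ ht) (hw0 t (hJ ht))) (abs_nonneg _)
      calc ∫ t in Ioc 0 R, |φ' t * (o'.M t / o'.S - o.M t / o.S)| ≤
          ∫ t in Ioc 0 R, (|φ' t| * o'.br t - |φ' t| * o.br t) := by
            refine setIntegral_mono_on ?_ (((hbi o' hS').sub (hbi o hS)).mono_set hsub)
              measurableSet_Ioc fun t ht => hstep t (hsub ht)
            have hc : Continuous fun t => |φ' t * (o'.M t / o'.S - o.M t / o.S)| := by fun_prop
            exact (hc.integrableOn_Icc (a := 0) (b := R)).mono_set Ioc_subset_Icc_self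
        _ ≤ ∫ t in J, (|φ' t| * o'.br t - |φ' t| * o.br t) := by
            refine setIntegral_mono_set ((hbi o' hS').sub (hbi o hS)) ?_
              (Eventually.of_forall hsub)
            refine (ae_restrict_iff' hJm).2 (Eventually.of_forall fun t ht => ?_)
            exact (abs_nonneg _).trans (hstep t ht)
    have e5 : o'.μ - o.μ = -((∫ x, φ |x| * w x * o'.d x) / o'.S -
        (∫ x, φ |x| * w x * o.d x) / o.S) -
        ((∫ x, h x * o'.d x) / o'.S - (∫ x, h x * o.d x) / o.S) := by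
      rw [hμ o hS, hμ o' hS']
      ring
    rw [e5]
    refine (abs_sub _ _).trans ?_
    rw [abs_neg]
    simp only
    linarith
  · intro o o' hoo
    have hd := WOrb.d_eq hg hw hf hoo
    have e1 : o.br = o'.br := by
      funext t
      unfold WOrb.br WOrb.M
      rw [WOrb.S_eq hd, hd]
    simp only
    rw [e1, h2 o o' hoo]
  · intro o ho _
    obtain ⟨hS, -⟩ := hP o ho
    obtain ⟨hSe, -⟩ := hP e he
    have h4 := h3 o e ho he
    have h5 : (∫ t in J, |φ' t| * e.br t) - ∫ t in J, |φ' t| * o.br t ≤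
        (1 + 1 / 2 * Real.log Q) * ∫ t in J, |φ' t| := by
      rw [← integral_sub (hbi e hSe) (hbi o hS), ← integral_const_mul]
      refine setIntegral_mono_on ((hbi e hSe).sub (hbi o hS)) (hint'.const_mul _) hJm
        fun t ht => ?_
      obtain ⟨b1, b2⟩ := o.br_bd hg hw hwe hS hQ (hJ ht) (hw0 t (hJ ht)) (hQs t (hJ ht))
      obtain ⟨c1, c2⟩ := e.br_bd hg hw hwe hSe hQ (hJ ht) (hw0 t (hJ ht)) (hQs t (hJ ht))
      have := mul_le_mul_of_nonneg_left (show e.br t - o.br t ≤ 1 + 1 / 2 * Real.log Q by linarith)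
        (abs_nonneg (φ' t))
      linarith
    simp only
    linarith

end Pool.Agent.K9h2.LW
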