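import Pool.Agent.K9h2.LW.Var

/-! The integral bound for the mean number of closed orbits. -/

open Set Filter Topology MeasureTheory
open scoped ENNReal

namespace Pool.Agent.K9h2.LW

open Pool.Agent.K9h2.LI

variable {g f w : ℝ → ℝ}

lemma WOrb.S_eq {o1 o2 : WOrb g f w} (h : o1.d = o2.d) : o1.S = o2.S := by
  unfold WOrb.S; rw [h]

lemma WOrb.B_eq {o1 o2 : WOrb g f w} (h : o1.d = o2.d) (k : ℝ → ℝ) : o1.B k = o2.B k := by
  unfold WOrb.B; rw [h]

/-- **The integral bound.** -/
theorem l1_bound (hg : Rest g) (hw : Wt w) (hf : Continuous f) (c : ℝ) {I : Set ℝ}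
    (hI : MeasurableSet I) {s : ℝ → ℝ} (hs : Measurable s) (hspos : ∀ x ∈ I, 0 < s x)
    (P : Set (ℝ × ℝ) → Prop)
    (hP : ∀ o : WOrb g f w, P (curve o.l o.r o.U o.L) → (∀ᵐ x, x ∉ I → o.d x = 0) ∧ 0 < o.S ∧
      ∀ x ∈ I, x ∈ Icc o.l o.r → s x ≤ o.S)
    (hint : IntegrableOn (fun x => |f x - c * w x| / s x) I) :
    ∃ N : ℝ → ℝ≥0∞, Measurable N ∧
      (∀ μ, (({C | C ∈ orbitsW g f w μ ∧ P C}.encard : ℕ∞) : ℝ≥0∞) ≤ N μ) ∧
      ∫⁻ μ, N μ ≤ ENNReal.ofReal (4 * ∫ x in I, |f x - c * w x| / s x) := by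
  have hwc := hw.cont
  set k : ℝ → ℝ := fun x => f x - c * w x with hk
  have hkc : Continuous k := by fun_prop
  have hint' : IntegrableOn (fun x => |k x| / s x) I := hint
  -- the function Φ
  set Φ : ℝ → ℝ := fun S => ∫ x in I, |k x| * min (1 / S) (1 / s x) with hΦ
  have hmin : ∀ S : ℝ, 0 < S → ∀ x ∈ I, 0 ≤ min (1 / S) (1 / s x) ∧
      min (1 / S) (1 / s x) ≤ 1 / s x := by
    intro S hS x hx
    have := hspos x hx
    exact ⟨le_min (by positivity) (by positivity), min_le_right _ _⟩
  have hΦi : ∀ S : ℝ, 0 < S → IntegrableOn (fun x => |k x| * min (1 / S) (1 / s x)) I := by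
    intro S hS
    refine Integrable.mono' hint' ?_ ?_
    · have h1 : Measurable fun x => |k x| * min (1 / S) (1 / s x) :=
        hkc.abs.measurable.mul (measurable_const.min (measurable_const.div hs))
      exact h1.aestronglyMeasurable
    · refine (ae_restrict_iff' hI).2 (Eventually.of_forall fun x hx => ?_)
      obtain ⟨h1, h2⟩ := hmin S hS x hx
      rw [Real.norm_eq_abs, abs_of_nonneg (mul_nonneg (abs_nonneg _) h1),
        div_eq_mul_one_div (|k x|) (s x)]
      exact mul_le_mul_of_nonneg_left h2 (abs_nonneg _)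
  have hBI : ∀ o : WOrb g f w, P (curve o.l o.r o.U o.L) → o.B k = ∫ x in I, |k x| * o.d x := by
    intro o ho
    unfold WOrb.B
    refine (setIntegral_eq_integral_of_ae_compl_eq_zero ?_).symm
    filter_upwards [(hP o ho).1] with x hx hxI
    rw [hx hxI, mul_zero]
  have hBi : ∀ o : WOrb g f w, IntegrableOn (fun x => |k x| * o.d x) I := fun o =>
    (o.integrable hg hkc.abs).integrableOn
  have hd0 : ∀ (o : WOrb g f w) (x : ℝ), x ∉ Icc o.l o.r → o.d x = 0 := fun o x hx => dens_zero hx
  refine wcount hg hw hf P fun e he => ⟨fun o => o.B k / o.S - 4 * Φ o.S, ?_, ?_, ?_⟩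
  · intro o o' ho ho' hlt _
    have hS := (hP o ho).2.1
    have hS' := (hP o' ho').2.1
    have hSS := WOrb.S_mono hg hw hf hlt
    have hstep := WOrb.step hg hw hf hlt hS c
    have hinv : 1 / o'.S ≤ 1 / o.S := one_div_le_one_div_of_le hS hSS
    have key : o.B k * (1 / o.S - 1 / o'.S) ≤ 2 * (Φ o.S - Φ o'.S) := by
      rw [hBI o ho, mul_comm, ← integral_const_mul, hΦ]
      simp only
      rw [← integral_sub (hΦi _ hS) (hΦi _ hS'), ← integral_const_mul]
      refine setIntegral_mono_on ((hBi o).const_mul _) (((hΦi _ hS).sub (hΦi _ hS')).const_mul _)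
        hI fun x hx => ?_
      have hsx := hspos x hx
      by_cases hxr : x ∈ Icc o.l o.r
      · have h1 := (hP o ho).2.2 x hx hxr
        have h2 : 1 / o.S ≤ 1 / s x := one_div_le_one_div_of_le hsx h1
        have h3 : 1 / o'.S ≤ 1 / s x := hinv.trans h2
        rw [min_eq_left h2, min_eq_left h3]
        have h4 := o.d_le hg x
        have h5 : |k x| * o.d x ≤ |k x| * 2 := mul_le_mul_of_nonneg_left h4 (abs_nonneg _)
        have h6 := mul_le_mul_of_nonneg_left h5 (sub_nonneg.2 hinv)
        linarith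
      · rw [hd0 o x hxr]
        have h1 : min (1 / o'.S) (1 / s x) ≤ min (1 / o.S) (1 / s x) := min_le_min_right _ hinv
        have := mul_le_mul_of_nonneg_left h1 (abs_nonneg (k x))
        linarith
    have e1 : (o'.B k - o.B k) / o'.S + o.B k * (1 / o.S - 1 / o'.S) =
        o'.B k / o'.S - o.B k / o.S + 2 * (o.B k * (1 / o.S - 1 / o'.S)) := by
      field_simp
      ring
    have h2 : |o'.μ - o.μ| ≤ (o'.B k - o.B k) / o'.S + o.B k * (1 / o.S - 1 / o'.S) := hstep
    rw [e1] at h2
    linarith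
  · intro o o' h
    have hd := WOrb.d_eq hg hw hf h
    simp only
    rw [WOrb.S_eq hd, WOrb.B_eq hd k]
  · intro o ho _
    have hS := (hP o ho).2.1
    have hSe := (hP e he).2.1
    have h0 : 0 ≤ o.B k / o.S := div_nonneg (o.B_nonneg hg k) hS.le
    have key : e.B k / e.S + 4 * Φ o.S - 4 * Φ e.S ≤ 4 * ∫ x in I, |k x| / s x := by
      rw [hBI e he, div_eq_mul_one_div, mul_comm (∫ x in I, |k x| * e.d x), ← integral_const_mul,
        hΦ]
      simp only
      have i1 : IntegrableOn (fun x => 1 / e.S * (|k x| * e.d x)) I := (hBi e).const_mul _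
      have i2 : IntegrableOn (fun x => 4 * (|k x| * min (1 / o.S) (1 / s x))) I :=
        (hΦi _ hS).const_mul _
      have i3 : IntegrableOn (fun x => 4 * (|k x| * min (1 / e.S) (1 / s x))) I :=
        (hΦi _ hSe).const_mul _
      have i12 : IntegrableOn (fun x => 1 / e.S * (|k x| * e.d x) +
        4 * (|k x| * min (1 / o.S) (1 / s x))) I := i1.add i2
      have i123 : IntegrableOn (fun x => 1 / e.S * (|k x| * e.d x) +
        4 * (|k x| * min (1 / o.S) (1 / s x)) - 4 * (|k x| * min (1 / e.S) (1 / s x))) I :=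
        i12.sub i3
      rw [← integral_const_mul, ← integral_const_mul, ← integral_const_mul,
        ← integral_add i1 i2, ← integral_sub i12 i3]
      refine setIntegral_mono_on i123 (hint'.const_mul _) hI fun x hx => ?_
      have hsx := hspos x hx
      obtain ⟨m1, m2⟩ := hmin o.S hS x hx
      have m3 := mul_le_mul_of_nonneg_left m2 (abs_nonneg (k x))
      have e2 : |k x| / s x = |k x| * (1 / s x) := div_eq_mul_one_div _ _
      rw [e2]
      by_cases hxr : x ∈ Icc e.l e.r
      · have h1 := (hP e he).2.2 x hx hxr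
        have h2 : 1 / e.S ≤ 1 / s x := one_div_le_one_div_of_le hsx h1
        rw [min_eq_left h2]
        have h4 := e.d_le hg x
        have h5 : |k x| * e.d x ≤ |k x| * 2 := mul_le_mul_of_nonneg_left h4 (abs_nonneg _)
        have h7 : 0 ≤ 1 / e.S := by positivity
        have h6 := mul_le_mul_of_nonneg_left h5 h7
        have h8 : 0 ≤ 1 / e.S * |k x| := mul_nonneg h7 (abs_nonneg _)
        linarith
      · rw [hd0 e x hxr]
        obtain ⟨n1, n2⟩ := hmin e.S hSe x hx
        have n3 := mul_nonneg (abs_nonneg (k x)) n1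
        linarith
    simp only
    linarith

end Pool.Agent.K9h2.LW
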