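import Pool.Agent.K9h2.LI.Struct

/-! Loops with an arbitrary friction and their nesting. -/

open Set Filter Topology

namespace Pool.Agent.K9h2.LW

open Pool.Agent.K9h2.LI

/-- a closed orbit of `x' = v`, `v' = -g(x) - h(x) v` made of the upper arc `v = U x` and the
lower arc `v = - L x` over `[l, r]` -/
structure Lp (g h : ℝ → ℝ) (l r : ℝ) (U L : ℝ → ℝ) : Prop where
  up : Arc g h l r U
  lo : Arc g (fun x => -h x) l r L

variable {g h h1 h2 : ℝ → ℝ} {l r l1 r1 l2 r2 : ℝ} {U L U1 L1 U2 L2 : ℝ → ℝ}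

lemma Lp.swap (G : Lp g h l r U L) : Lp g (fun x => -h x) l r L U where
  up := G.lo
  lo := G.up.congr fun x => by ring

lemma Lp.refl (G : Lp g h l r U L) :
    Lp (fun x => -g (-x)) (fun x => -h (-x)) (-r) (-l) (fun x => U (-x)) (fun x => L (-x)) where
  up := G.up.refl
  lo := G.lo.refl.congr fun x => by ring

/-- two loops, the first with the smaller friction and somewhere below the second -/
lemma Lp.nest_le (hg : Rest g) (G1 : Lp g h1 l1 r1 U1 L1) (G2 : Lp g h2 l2 r2 U2 L2)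
    (hc1 : Continuous h1) (hc2 : Continuous h2)
    (hμ : ∀ x, h1 x ≤ h2 x) {x0 : ℝ} (hx : max l1 l2 < x0) (hx' : x0 < min r1 r2)
    (hlt : U1 x0 < U2 x0) : Inside l1 r1 U1 L1 l2 r2 U2 L2 := by
  obtain ⟨hl, -⟩ := Arc.left_lt hg G1.up G2.up hμ hc1 hc2 hx hx' hlt
  have hr1 := G1.up.hr
  have hr2 := G2.up.hr
  have hl1 := G1.up.hl
  have hl2 := G2.up.hl
  -- lower arcs near l1
  have hlow : ∃ y0, max l1 l2 < y0 ∧ y0 < min r1 r2 ∧ y0 < 0 ∧
      ∀ x, l1 < x → x ≤ y0 → L1 x < L2 x := by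
    have hlr : l1 < 0 := hl1
    have e1 : ContinuousWithinAt L1 (Icc l1 0) l1 :=
      (G1.lo.cont l1 ⟨le_rfl, (hl1.trans hr1).le⟩).mono (Icc_subset_Icc le_rfl hr1.le)
    have e2 : ContinuousWithinAt L2 (Icc l1 0) l1 :=
      (G2.lo.cont l1 ⟨hl.le, (hl1.trans hr2).le⟩).mono (Icc_subset_Icc hl.le hr2.le)
    have e3 : L1 l1 < L2 l1 := by
      rw [G1.lo.left]
      exact G2.lo.pos l1 ⟨hl, hl1.trans hr2⟩
    obtain ⟨u, hu1, hu2, hu3⟩ := ev_lt_left hlr e1 e2 e3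
    refine ⟨(l1 + u) / 2, ?_, ?_, by linarith, fun x h1 h2 => hu3 x h1.le (by linarith)⟩
    · rw [max_eq_left hl.le]; linarith
    · exact lt_min (by linarith) (by linarith)
  obtain ⟨y0, hy1, hy2, hy3, hy4⟩ := hlow
  have hmax : max l1 l2 = l1 := max_eq_left hl.le
  have hlt2 : L1 y0 < L2 y0 := hy4 y0 (by rw [← hmax]; exact hy1) le_rfl
  obtain ⟨hr, hLr⟩ := Arc.right_lt hg G1.lo G2.lo (fun x => neg_le_neg (hμ x))
    (by fun_prop) (by fun_prop) hy1 hy2 hlt2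
  have hmin : min r1 r2 = r1 := min_eq_left hr.le
  refine ⟨hl, hr, ?_, ?_⟩
  · -- upper arcs near r1
    have e1 : ContinuousWithinAt U1 (Icc 0 r1) r1 :=
      (G1.up.cont r1 ⟨(hl1.trans hr1).le, le_rfl⟩).mono (Icc_subset_Icc hl1.le le_rfl)
    have e2 : ContinuousWithinAt U2 (Icc 0 r1) r1 :=
      (G2.up.cont r1 ⟨(hl2.trans hr1).le, hr.le⟩).mono (Icc_subset_Icc hl2.le hr.le)
    have e3 : U1 r1 < U2 r1 := by
      rw [G1.up.right]
      exact G2.up.pos r1 ⟨hl2.trans hr1, hr⟩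
    obtain ⟨u, hu1, hu2, hu3⟩ := ev_lt_right hr1 e1 e2 e3
    intro x hx
    set z := max ((u + r1) / 2) x with hz
    have hz1 : u < z := (show u < (u + r1) / 2 by linarith).trans_le (le_max_left _ _)
    have hz2 : z < r1 := max_lt (by linarith) hx.2
    have hz3 : l1 < z := hx.1.trans_le (le_max_right _ _)
    have := Arc.left_lt hg G1.up G2.up (x0 := z) hμ hc1 hc2
      (by rw [hmax]; exact hz3) (by rw [hmin]; exact hz2) (hu3 z hz1 hz2.le)
    exact this.2 x hx.1 (le_max_right _ _)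
  · intro x hx
    rcases le_total x y0 with h | h
    · exact hy4 x hx.1 h
    · exact hLr x h hx.2

/-- two loops with comparable frictions, the first somewhere below the second -/
lemma Lp.nest (hg : Rest g) (G1 : Lp g h1 l1 r1 U1 L1) (G2 : Lp g h2 l2 r2 U2 L2)
    (hc1 : Continuous h1) (hc2 : Continuous h2)
    (hμ : (∀ x, h1 x ≤ h2 x) ∨ ∀ x, h2 x ≤ h1 x) {x0 : ℝ} (hx : max l1 l2 < x0)
    (hx' : x0 < min r1 r2) (hlt : U1 x0 < U2 x0) : Inside l1 r1 U1 L1 l2 r2 U2 L2 := by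
  rcases hμ with hμ | hμ
  · exact Lp.nest_le hg G1 G2 hc1 hc2 hμ hx hx' hlt
  · have := Lp.nest_le hg.refl G1.refl G2.refl (x0 := -x0) (hc1.comp continuous_neg).neg
      (hc2.comp continuous_neg).neg (fun x => neg_le_neg (hμ (-x)))
      (by rw [max_neg_neg]; linarith) (by rw [min_neg_neg]; linarith) (by simpa using hlt)
    obtain ⟨h1, h2, h3, h4⟩ := this
    refine ⟨by linarith, by linarith, fun x hx => ?_, fun x hx => ?_⟩
    · simpa using h3 (-x) ⟨by linarith [hx.2], by linarith [hx.1]⟩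
    · simpa using h4 (-x) ⟨by linarith [hx.2], by linarith [hx.1]⟩

lemma Lp.nest' (hg : Rest g) (G1 : Lp g h1 l1 r1 U1 L1) (G2 : Lp g h2 l2 r2 U2 L2)
    (hc1 : Continuous h1) (hc2 : Continuous h2)
    (hμ : (∀ x, h1 x ≤ h2 x) ∨ ∀ x, h2 x ≤ h1 x) {x0 : ℝ} (hx : max l1 l2 < x0)
    (hx' : x0 < min r1 r2) (hlt : L1 x0 < L2 x0) : Inside l1 r1 U1 L1 l2 r2 U2 L2 := by
  have := Lp.nest hg G1.swap G2.swap hc1.neg hc2.neg
    (hμ.elim (fun h => Or.inr fun x => neg_le_neg (h x)) fun h => Or.inl fun x => neg_le_neg (h x))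
    hx hx' hlt
  obtain ⟨h1, h2, h3, h4⟩ := this
  exact ⟨h1, h2, h4, h3⟩

/-- loops through the same point of the positive `v`-axis -/
lemma Lp.not_eq (hg : Rest g) (G1 : Lp g h1 l1 r1 U1 L1) (G2 : Lp g h2 l2 r2 U2 L2)
    (hc1 : Continuous h1) (hc2 : Continuous h2) (hμ : ∀ x, h1 x ≤ h2 x) (h12 : h1 0 < h2 0) :
    U1 0 ≠ U2 0 := by
  intro h0
  have d1 := G1.up.der 0 ⟨G1.up.hl, G1.up.hr⟩
  have d2 := G2.up.der 0 ⟨G2.up.hl, G2.up.hr⟩
  have d3 := d2.sub d1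
  have e : (-h2 0 - g 0 / U2 0) - (-h1 0 - g 0 / U1 0) = h1 0 - h2 0 := by
    rw [h0]; ring
  rw [e] at d3
  -- so U2 - U1 is decreasing at 0
  have hneg : h1 0 - h2 0 < 0 := by linarith
  have hev : ∀ᶠ x in 𝓝[<] (0:ℝ), 0 < (U2 - U1) x := by
    have h1 := d3.hasDerivWithinAt (s := Iio 0)
    have h3 := (hasDerivWithinAt_iff_tendsto_slope' (by simp)).1 h1
    have h4 : ∀ᶠ x in 𝓝[<] (0:ℝ), slope (U2 - U1) 0 x < 0 := h3.eventually (gt_mem_nhds hneg)
    filter_upwards [h4, self_mem_nhdsWithin] with x hx hx0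
    have hx0' : x < 0 := hx0
    rw [slope_def_field, Pi.sub_apply, Pi.sub_apply, h0, sub_self, sub_zero, sub_zero,
      div_neg_iff] at hx
    rcases hx with hx | hx
    · exact hx.1
    · linarith [hx.2]
  have hev2 : ∀ᶠ x in 𝓝[<] (0:ℝ), max l1 l2 < x :=
    mem_nhdsWithin_of_mem_nhds (lt_mem_nhds (max_lt G1.up.hl G2.up.hl))
  obtain ⟨x, hx1, hx2, hx3⟩ := (hev.and (hev2.and self_mem_nhdsWithin)).exists
  have hx3' : x < 0 := hx3
  have hN := Lp.nest_le hg G1 G2 hc1 hc2 hμ hx2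
    (hx3'.trans (lt_min G1.up.hr G2.up.hr)) (by simpa using hx1)
  have := hN.2.2.1 0 ⟨G1.up.hl, G1.up.hr⟩
  linarith

/-- loops through the same point of the positive `v`-axis are the same -/
lemma Lp.eq_of (hg : Rest g) (G1 : Lp g h1 l1 r1 U1 L1) (G2 : Lp g h2 l2 r2 U2 L2)
    (hc1 : Continuous h1) (hc2 : Continuous h2)
    (hμ : (∀ x, h1 x ≤ h2 x) ∨ ∀ x, h2 x ≤ h1 x)
    (h0 : U1 0 = U2 0) : l1 = l2 ∧ r1 = r2 ∧ (∀ x ∈ Icc l1 r1, U1 x = U2 x) ∧
      ∀ x ∈ Icc l1 r1, L1 x = L2 x := by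
  have hU : ∀ x, max l1 l2 < x → x < min r1 r2 → U1 x = U2 x := by
    intro x h1 h2
    rcases lt_trichotomy (U1 x) (U2 x) with h | h | h
    · have := (Lp.nest hg G1 G2 hc1 hc2 hμ h1 h2 h).2.2.1 0 ⟨G1.up.hl, G1.up.hr⟩
      linarith
    · exact h
    · have := (Lp.nest hg G2 G1 hc2 hc1 hμ.symm (by rwa [max_comm]) (by rwa [min_comm]) h).2.2.1 0
        ⟨G2.up.hl, G2.up.hr⟩
      linarith
  have hL : ∀ x, max l1 l2 < x → x < min r1 r2 → L1 x = L2 x := by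
    intro x h1 h2
    rcases lt_trichotomy (L1 x) (L2 x) with h | h | h
    · have := (Lp.nest' hg G1 G2 hc1 hc2 hμ h1 h2 h).2.2.1 0 ⟨G1.up.hl, G1.up.hr⟩
      linarith
    · exact h
    · have := (Lp.nest' hg G2 G1 hc2 hc1 hμ.symm (by rwa [max_comm]) (by rwa [min_comm]) h).2.2.1 0
        ⟨G2.up.hl, G2.up.hr⟩
      linarith
  -- the ends
  have hleft : ∀ {l1 l2 r1 r2 : ℝ} {h1 h2 U1 U2 L1 L2 : ℝ → ℝ}, Lp g h1 l1 r1 U1 L1 →
      Lp g h2 l2 r2 U2 L2 → (∀ x, max l1 l2 < x → x < min r1 r2 → U1 x = U2 x) →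
      ¬ l1 < l2 := by
    intro l1 l2 r1 r2 h1 h2 U1 U2 L1 L2 G1 G2 hU hlt
    have hmax : max l1 l2 = l2 := max_eq_right hlt.le
    rw [hmax] at hU
    have hl2 := G2.up.hl
    have hr1 := G1.up.hr
    have hr2 := G2.up.hr
    have e1 : ContinuousWithinAt U1 (Icc l2 0) l2 :=
      (G1.up.cont l2 ⟨hlt.le, (hl2.trans hr1).le⟩).mono (Icc_subset_Icc hlt.le hr1.le)
    have e2 : ContinuousWithinAt U2 (Icc l2 0) l2 :=
      (G2.up.cont l2 ⟨le_rfl, (hl2.trans hr2).le⟩).mono (Icc_subset_Icc le_rfl hr2.le)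
    have e3 : U2 l2 < U1 l2 := by
      rw [G2.up.left]
      exact G1.up.pos l2 ⟨hlt, hl2.trans hr1⟩
    obtain ⟨u, hu1, hu2, hu3⟩ := ev_lt_left hl2 e2 e1 e3
    have h5 := hu3 ((l2 + u) / 2) (by linarith) (by linarith)
    have h6 := hU ((l2 + u) / 2) (by linarith) (lt_min (by linarith) (by linarith))
    linarith
  have hright : ∀ {l1 l2 r1 r2 : ℝ} {h1 h2 U1 U2 L1 L2 : ℝ → ℝ}, Lp g h1 l1 r1 U1 L1 →
      Lp g h2 l2 r2 U2 L2 → (∀ x, max l1 l2 < x → x < min r1 r2 → U1 x = U2 x) →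
      ¬ r1 < r2 := by
    intro l1 l2 r1 r2 h1 h2 U1 U2 L1 L2 G1 G2 hU hlt
    have hmin : min r1 r2 = r1 := min_eq_left hlt.le
    rw [hmin] at hU
    have hl1 := G1.up.hl
    have hl2 := G2.up.hl
    have hr1 := G1.up.hr
    have e1 : ContinuousWithinAt U1 (Icc 0 r1) r1 :=
      (G1.up.cont r1 ⟨(hl1.trans hr1).le, le_rfl⟩).mono (Icc_subset_Icc hl1.le le_rfl)
    have e2 : ContinuousWithinAt U2 (Icc 0 r1) r1 :=
      (G2.up.cont r1 ⟨(hl2.trans hr1).le, hlt.le⟩).mono (Icc_subset_Icc hl2.le hlt.le)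
    have e3 : U1 r1 < U2 r1 := by
      rw [G1.up.right]
      exact G2.up.pos r1 ⟨hl2.trans hr1, hlt⟩
    obtain ⟨u, hu1, hu2, hu3⟩ := ev_lt_right hr1 e1 e2 e3
    have h5 := hu3 ((r1 + u) / 2) (by linarith) (by linarith)
    have h6 := hU ((r1 + u) / 2) (max_lt (by linarith) (by linarith)) (by linarith)
    linarith
  have hl : l1 = l2 := by
    rcases lt_trichotomy l1 l2 with h | h | h
    · exact absurd h (hleft G1 G2 hU)
    · exact h
    · exact absurd h (hleft G2 G1 (by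
        rw [max_comm, min_comm]; exact fun x h1 h2 => (hU x h1 h2).symm))
  have hr : r1 = r2 := by
    rcases lt_trichotomy r1 r2 with h | h | h
    · exact absurd h (hright G1 G2 hU)
    · exact h
    · exact absurd h (hright G2 G1 (by
        rw [max_comm, min_comm]; exact fun x h1 h2 => (hU x h1 h2).symm))
  subst hl hr
  rw [max_self, min_self] at hU hL
  refine ⟨rfl, rfl, fun x hx => ?_, fun x hx => ?_⟩
  · rcases hx.1.lt_or_eq with h | h
    · rcases hx.2.lt_or_eq with h' | h'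
      · exact hU x h h'
      · rw [h', G1.up.right, G2.up.right]
    · rw [← h, G1.up.left, G2.up.left]
  · rcases hx.1.lt_or_eq with h | h
    · rcases hx.2.lt_or_eq with h' | h'
      · exact hL x h h'
      · rw [h', G1.lo.right, G2.lo.right]
    · rw [← h, G1.lo.left, G2.lo.left]

end Pool.Agent.K9h2.LW
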