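import Pool.Agent.K9h2.LW.Loop
import Pool.Agent.K9h2.LI.Size

/-! The measures of the loops, with a weight. -/

open Set Filter Topology MeasureTheory

namespace Pool.Agent.K9h2.LW

open Pool.Agent.K9h2.LI

variable {g h h1 h2 : ℝ → ℝ} {l r l1 r1 l2 r2 : ℝ} {U L U1 L1 U2 L2 : ℝ → ℝ}

lemma Lp.toLoop (G : Lp g h l r U L) : LI.Loop g h 0 l r U L where
  up := G.up.congr fun x => by simp
  lo := G.lo.congr fun x => by simp

lemma Lp.dens_nonneg (hg : Rest g) (G : Lp g h l r U L) (x : ℝ) : 0 ≤ dens g l r U L x :=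
  G.toLoop.dens_nonneg hg x

lemma Lp.integrable (hg : Rest g) (G : Lp g h l r U L) {k : ℝ → ℝ} (hk : Continuous k) :
    Integrable fun x => k x * dens g l r U L x := G.toLoop.integrable hg hk

lemma Lp.integral_zero (hg : Rest g) (G : Lp g h l r U L) (hh : Continuous h) :
    ∫ x, h x * dens g l r U L x = 0 := by
  have := G.toLoop.integral_zero hg hh
  simpa using this

lemma dens_zero {x : ℝ} (hx : x ∉ Icc l r) : dens g l r U L x = 0 := by
  unfold dens; rw [indicator_of_notMem hx]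

lemma dens_le_two (hg : Rest g) (l r : ℝ) (U L : ℝ → ℝ) (x : ℝ) : dens g l r U L x ≤ 2 := by
  refine (dens_le hg l r U L x).trans ?_
  by_cases hx : x ∈ Icc l r
  · rw [indicator_of_mem hx]
  · rw [indicator_of_notMem hx]; norm_num

lemma dens_mono (hg : Rest g) (h : Inside l1 r1 U1 L1 l2 r2 U2 L2) (G1 : Lp g h1 l1 r1 U1 L1)
    (G2 : Lp g h2 l2 r2 U2 L2) (x : ℝ) : dens g l1 r1 U1 L1 x ≤ dens g l2 r2 U2 L2 x := by
  by_cases hx : x ∈ Ioo l1 r1
  · have hx1 : x ∈ Icc l1 r1 := Ioo_subset_Icc_self hx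
    have hx2 : x ∈ Icc l2 r2 := ⟨h.1.le.trans hx1.1, hx1.2.trans h.2.1.le⟩
    unfold dens
    rw [indicator_of_mem hx1, indicator_of_mem hx2]
    have hz : 0 ≤ 2 * pot g x := by linarith [hg.pot_nonneg x]
    exact add_le_add (psi_mono hz (G1.up.pos x hx) (h.2.2.1 x hx).le)
      (psi_mono hz (G1.lo.pos x hx) (h.2.2.2 x hx).le)
  · refine le_trans (le_of_eq ?_) (G2.dens_nonneg hg x)
    by_cases hx1 : x ∈ Icc l1 r1
    · unfold dens
      rw [indicator_of_mem hx1]
      have : x = l1 ∨ x = r1 := by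
        by_contra hcon
        push Not at hcon
        exact hx ⟨lt_of_le_of_ne hx1.1 (Ne.symm hcon.1), lt_of_le_of_ne hx1.2 hcon.2⟩
      rcases this with rfl | rfl
      · rw [G1.up.left, G1.lo.left]; simp [psi]
      · rw [G1.up.right, G1.lo.right]; simp [psi]
    · exact dens_zero hx1

/-- superadditivity in the form which is used -/
lemma psi_add {z u v : ℝ} (hz : 0 ≤ z) (hu : 0 ≤ u) (hv : 0 ≤ v) :
    psi z (u + v) ≤ psi z u + psi z v := by
  have key : ∀ a b : ℝ, 0 ≤ a → 0 ≤ b → a / √(z + (a + b) ^ 2) ≤ a / √(z + a ^ 2) := by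
    intro a b ha hb
    rcases ha.eq_or_lt with h | h
    · rw [← h]; simp
    · apply div_le_div_of_nonneg_left ha
      · apply Real.sqrt_pos.2; positivity
      · apply Real.sqrt_le_sqrt
        have : a ^ 2 ≤ (a + b) ^ 2 := pow_le_pow_left₀ ha (by linarith) 2
        linarith
  unfold psi
  rw [add_div]
  refine add_le_add (key u v hu hv) ?_
  have := key v u hv hu
  rwa [add_comm v u] at this

/-- the density from below by the vertical width -/
lemma psi_ge {a b s : ℝ} (ha : 0 ≤ a) (hab : a ≤ b) (hb : 0 < b) (hs : 0 ≤ s)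
    (h : 8 * (b - a) ≤ s ^ 2) : 1 - a / b ≤ psi (2 * a) s := by
  set t := 1 - a / b with ht
  have h1 : t * b = b - a := by rw [ht]; field_simp
  have ht0 : 0 ≤ t := by
    rw [ht, sub_nonneg, div_le_one hb]; exact hab
  have ht1 : t ≤ 1 := by
    have : 0 ≤ a / b := by positivity
    linarith
  rcases ht0.eq_or_lt with h0 | h0
  · rw [← h0]; exact psi_nonneg hs
  · have hba : 0 < b - a := by
      rw [← h1]; positivity
    have hs2 : 0 < s ^ 2 := by linarith
    have hpos : 0 < 2 * a + s ^ 2 := by positivity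
    unfold psi
    rw [le_div_iff₀ (Real.sqrt_pos.2 hpos)]
    have e : t * √(2 * a + s ^ 2) = √(t ^ 2 * (2 * a + s ^ 2)) := by
      rw [Real.sqrt_mul (by positivity), Real.sqrt_sq ht0]
    rw [e]
    refine Real.sqrt_le_iff.2 ⟨hs, ?_⟩
    have h2 : t ^ 2 * (2 * a + s ^ 2) ≤ t * (2 * a + s ^ 2) := by
      have : t ^ 2 ≤ t := by nlinarith
      exact mul_le_mul_of_nonneg_right this hpos.le
    refine h2.trans ?_
    -- t (2 a + s²) ≤ s² iff 2 a t ≤ s² (1 - t)
    have h3 : (1 - t) * b = a := by rw [sub_mul, h1]; ring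
    have h4 : b * (t * (2 * a + s ^ 2)) ≤ b * s ^ 2 := by
      have e1 : b * (t * (2 * a + s ^ 2)) = (b - a) * (2 * a) + (b - a) * s ^ 2 := by
        rw [← h1]; ring
      rw [e1]
      have e2 : (b - a) * (2 * a) ≤ a * s ^ 2 := by
        have := mul_le_mul_of_nonneg_left h ha
        nlinarith [mul_nonneg ha hba.le]
      linarith
    exact le_of_mul_le_mul_left h4 hb

lemma Lp.dens_right (hg : Rest g) (G : Lp g h l r U L) {x : ℝ} (hx : x ∈ Icc 0 r) :
    1 - pot g x / pot g r ≤ dens g l r U L x := by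
  have hl := G.up.hl
  have hmem : x ∈ Icc l r := ⟨hl.le.trans hx.1, hx.2⟩
  have hz : 0 ≤ 2 * pot g x := by linarith [hg.pot_nonneg x]
  have h1 := G.toLoop.width_right hg hx
  have h2 := psi_ge (hg.pot_nonneg x)
    (hg.strictMonoOn.monotoneOn (mem_Ici.2 hx.1) (mem_Ici.2 G.up.hr.le) hx.2)
    (hg.pot_pos G.up.hr.ne') (add_nonneg (G.up.nonneg hmem) (G.lo.nonneg hmem)) h1
  refine h2.trans ?_
  unfold dens
  rw [indicator_of_mem hmem]
  exact psi_add hz (G.up.nonneg hmem) (G.lo.nonneg hmem)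

lemma Lp.dens_left (hg : Rest g) (G : Lp g h l r U L) {x : ℝ} (hx : x ∈ Icc l 0) :
    1 - pot g x / pot g l ≤ dens g l r U L x := by
  have hr := G.up.hr
  have hmem : x ∈ Icc l r := ⟨hx.1, hx.2.trans hr.le⟩
  have hz : 0 ≤ 2 * pot g x := by linarith [hg.pot_nonneg x]
  have h1 := G.toLoop.width_left hg hx
  have h2 := psi_ge (hg.pot_nonneg x)
    (hg.strictAntiOn.antitoneOn (mem_Iic.2 G.up.hl.le) (mem_Iic.2 hx.2) hx.1)
    (hg.pot_pos G.up.hl.ne) (add_nonneg (G.up.nonneg hmem) (G.lo.nonneg hmem)) h1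
  refine h2.trans ?_
  unfold dens
  rw [indicator_of_mem hmem]
  exact psi_add hz (G.up.nonneg hmem) (G.lo.nonneg hmem)

end Pool.Agent.K9h2.LW
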