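import Mathlib

/-! The weights `1 + x² + ... + x^(2 m)`. -/

open Finset Polynomial

namespace Pool.Agent.K9h2.LW

/-- `1 + x² + ... + x^(2 m)` -/
noncomputable def wt (m : ℕ) (x : ℝ) : ℝ := ∑ i ∈ range (m + 1), (x ^ 2) ^ i

lemma wt_cont (m : ℕ) : Continuous (wt m) := by
  unfold wt
  fun_prop

lemma wt_succ (m : ℕ) (x : ℝ) : wt (m + 1) x = wt m x + (x ^ 2) ^ (m + 1) := by
  unfold wt
  rw [sum_range_succ]

lemma wt_succ' (m : ℕ) (x : ℝ) : wt (m + 1) x = 1 + x ^ 2 * wt m x := by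
  unfold wt
  rw [sum_range_succ', mul_sum]
  simp only [pow_zero, pow_succ]
  rw [add_comm]
  congr 1
  exact sum_congr rfl fun i _ => by ring

lemma wt_nonneg (m : ℕ) (x : ℝ) : 0 ≤ wt m x := sum_nonneg fun i _ => by positivity

lemma one_le_wt (m : ℕ) (x : ℝ) : 1 ≤ wt m x := by
  rcases m with _ | m
  · simp [wt]
  · rw [wt_succ']
    have := mul_nonneg (sq_nonneg x) (wt_nonneg m x)
    linarith

lemma wt_le_succ (m : ℕ) (x : ℝ) : wt m x ≤ wt (m + 1) x := by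
  rw [wt_succ]
  have : 0 ≤ (x ^ 2) ^ (m + 1) := by positivity
  linarith

lemma wt_neg (m : ℕ) (x : ℝ) : wt m (-x) = wt m x := by
  unfold wt
  rw [neg_sq]

lemma wt_abs (m : ℕ) (x : ℝ) : wt m |x| = wt m x := by
  unfold wt
  rw [sq_abs]

lemma wt_mono (m : ℕ) {x y : ℝ} (h : |x| ≤ |y|) : wt m x ≤ wt m y := by
  unfold wt
  refine sum_le_sum fun i _ => pow_le_pow_left₀ (sq_nonneg x) ?_ i
  rw [← sq_abs x, ← sq_abs y]
  exact pow_le_pow_left₀ (abs_nonneg x) h 2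

lemma wt_le_of_le_one (m : ℕ) {x : ℝ} (h : |x| ≤ 1) : wt m x ≤ m + 1 := by
  have : wt m x ≤ wt m 1 := wt_mono m (by rwa [abs_one])
  refine this.trans (le_of_eq ?_)
  simp [wt]

lemma wt_le_pow (m : ℕ) {x : ℝ} (h : 1 ≤ x) : wt m x ≤ (m + 1) * x ^ (2 * m) := by
  unfold wt
  have : ∀ i ∈ range (m + 1), (x ^ 2) ^ i ≤ x ^ (2 * m) := by
    intro i hi
    rw [← pow_mul]
    exact pow_le_pow_right₀ h (by have := mem_range.1 hi; omega)
  refine (sum_le_card_nsmul _ _ _ this).trans (le_of_eq ?_)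
  simp

/-- comparison inside -/
lemma wt_inner (m : ℕ) {x R : ℝ} (hx : |x| ≤ R) (hR : 0 < R) :
    wt (m + 1) x ≤ 1 + (x / R) ^ 2 * wt (m + 1) R := by
  rw [wt_succ']
  have h1 : wt m x ≤ wt m R := wt_mono m (by rwa [abs_of_pos hR])
  have h2 : R ^ 2 * wt m R ≤ wt (m + 1) R := by rw [wt_succ']; linarith
  have h3 : (x / R) ^ 2 * (R ^ 2 * wt m R) ≤ (x / R) ^ 2 * wt (m + 1) R :=
    mul_le_mul_of_nonneg_left h2 (sq_nonneg _)
  have h4 : (x / R) ^ 2 * (R ^ 2 * wt m R) = x ^ 2 * wt m R := by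
    field_simp
  have h5 := mul_le_mul_of_nonneg_left h1 (sq_nonneg x)
  linarith

lemma sum_pow_abs (m : ℕ) (x : ℝ) :
    ∑ j ∈ range (2 * m + 2), |x| ^ j = (1 + |x|) * wt m x := by
  induction m with
  | zero => simp [wt, sum_range_succ]
  | succ m ih =>
    rw [show 2 * (m + 1) + 2 = (2 * m + 2) + 1 + 1 by ring, sum_range_succ, sum_range_succ, ih,
      wt_succ, ← sq_abs x]
    ring

lemma abs_sum_le {A : ℝ} {b : ℕ → ℝ} (hb : ∀ j, |b j| ≤ A) (m : ℕ) (x : ℝ) :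
    |∑ j ∈ range (2 * m + 2), b j * x ^ j| ≤ A * ((1 + |x|) * wt m x) := by
  rw [← sum_pow_abs, mul_sum]
  refine (abs_sum_le_sum_abs _ _).trans (sum_le_sum fun j _ => ?_)
  rw [abs_mul, abs_pow]
  exact mul_le_mul_of_nonneg_right (hb j) (by positivity)

variable {A : ℝ} {m : ℕ} {p : ℝ[X]}

lemma coeff_bd_nonneg (hp : ∀ j, |p.coeff j| ≤ A) : 0 ≤ A := (abs_nonneg _).trans (hp 0)

/-- near the origin -/
lemma near_zero (hd : p.natDegree ≤ 2 * (m + 1)) (hp : ∀ j, |p.coeff j| ≤ A) {x : ℝ}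
    (hx : |x| ≤ 1) : |p.eval x - p.coeff 0 * wt (m + 1) x| ≤ 3 * A * (|x| * wt (m + 1) x) := by
  have hA := coeff_bd_nonneg hp
  have e1 : p.eval x = x * (∑ j ∈ range (2 * m + 2), p.coeff (j + 1) * x ^ j) + p.coeff 0 := by
    rw [eval_eq_sum_range' (n := 2 * m + 2 + 1) (by omega), sum_range_succ', mul_sum]
    simp only [pow_zero, mul_one]
    congr 1
    exact sum_congr rfl fun j _ => by ring
  have e2 : p.eval x - p.coeff 0 * wt (m + 1) x =
      x * (∑ j ∈ range (2 * m + 2), p.coeff (j + 1) * x ^ j) -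
        p.coeff 0 * (x ^ 2 * wt m x) := by
    rw [e1, wt_succ']; ring
  have h1 := abs_sum_le (A := A) (b := fun j => p.coeff (j + 1)) (fun j => hp _) m x
  have hv := wt_nonneg m x
  have hx0 := abs_nonneg x
  rw [e2]
  refine (abs_sub _ _).trans ?_
  rw [abs_mul, abs_mul, abs_mul, abs_of_nonneg (sq_nonneg x), abs_of_nonneg hv]
  have h2 : |x| * |∑ j ∈ range (2 * m + 2), p.coeff (j + 1) * x ^ j| ≤
      |x| * (A * ((1 + |x|) * wt m x)) := mul_le_mul_of_nonneg_left h1 hx0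
  have h3 : |p.coeff 0| * (x ^ 2 * wt m x) ≤ A * (x ^ 2 * wt m x) :=
    mul_le_mul_of_nonneg_right (hp 0) (by positivity)
  have h4 : x ^ 2 = |x| * |x| := by rw [abs_mul_abs_self]; ring
  have h5 : A * (|x| * wt m x) * (1 + 2 * |x|) ≤ A * (|x| * wt m x) * 3 :=
    mul_le_mul_of_nonneg_left (by linarith) (by positivity)
  have h6 : A * (|x| * wt m x) ≤ A * (|x| * wt (m + 1) x) :=
    mul_le_mul_of_nonneg_left (mul_le_mul_of_nonneg_left (wt_le_succ m x) hx0) hA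
  rw [h4] at h3 ⊢
  linarith

/-- towards infinity -/
lemma near_inf (hd : p.natDegree ≤ 2 * (m + 1)) (hp : ∀ j, |p.coeff j| ≤ A) (x : ℝ) :
    |p.eval x - p.coeff (2 * (m + 1)) * wt (m + 1) x| ≤ A * ((2 + |x|) * wt m x) := by
  have e1 : p.eval x = (∑ j ∈ range (2 * m + 2), p.coeff j * x ^ j) +
      p.coeff (2 * (m + 1)) * (x ^ 2) ^ (m + 1) := by
    rw [← pow_mul, eval_eq_sum_range' (n := 2 * m + 2 + 1) (by omega), sum_range_succ]
    rfl
  have e2 : p.eval x - p.coeff (2 * (m + 1)) * wt (m + 1) x =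
      (∑ j ∈ range (2 * m + 2), p.coeff j * x ^ j) - p.coeff (2 * (m + 1)) * wt m x := by
    rw [e1, wt_succ]; ring
  have h1 := abs_sum_le (A := A) (b := fun j => p.coeff j) hp m x
  have hv := wt_nonneg m x
  rw [e2]
  refine (abs_sub _ _).trans ?_
  rw [abs_mul (p.coeff _), abs_of_nonneg hv]
  have h3 : |p.coeff (2 * (m + 1))| * wt m x ≤ A * wt m x :=
    mul_le_mul_of_nonneg_right (hp _) hv
  linarith

lemma far (hd : p.natDegree ≤ 2 * (m + 1)) (hp : ∀ j, |p.coeff j| ≤ A) {x : ℝ} (hx : 1 ≤ |x|) :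
    |p.eval x - p.coeff (2 * (m + 1)) * wt (m + 1) x| ≤ 3 * A * (wt (m + 1) x / |x|) := by
  have hA := coeff_bd_nonneg hp
  have hv := wt_nonneg m x
  have hx0 : 0 < |x| := by linarith
  refine (near_inf hd hp x).trans ?_
  have h1 : x ^ 2 * wt m x ≤ wt (m + 1) x := by rw [wt_succ']; linarith
  have h4 : x ^ 2 = |x| * |x| := by rw [abs_mul_abs_self]; ring
  have h2 : |x| * wt m x ≤ wt (m + 1) x / |x| := by
    rw [le_div_iff₀ hx0]
    rw [h4] at h1
    linarith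
  have h3 : (2 + |x|) * wt m x ≤ 3 * (|x| * wt m x) := by
    have := mul_le_mul_of_nonneg_right hx hv
    linarith
  have h5 : A * ((2 + |x|) * wt m x) ≤ A * (3 * (wt (m + 1) x / |x|)) :=
    mul_le_mul_of_nonneg_left (by linarith) hA
  linarith

lemma near (hd : p.natDegree ≤ 2 * (m + 1)) (hp : ∀ j, |p.coeff j| ≤ A) (x : ℝ) :
    |p.eval x - p.coeff (2 * (m + 1)) * wt (m + 1) x| ≤ 3 * A * wt (m + 1) x := by
  have hA := coeff_bd_nonneg hp
  rcases le_total |x| 1 with h | h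
  · refine (near_inf hd hp x).trans ?_
    have hv := wt_nonneg m x
    have h1 := wt_le_succ m x
    have h2 : (2 + |x|) * wt m x ≤ 3 * wt m x := mul_le_mul_of_nonneg_right (by linarith) hv
    have h5 : A * ((2 + |x|) * wt m x) ≤ A * (3 * wt (m + 1) x) :=
      mul_le_mul_of_nonneg_left (by linarith) hA
    linarith
  · refine (far hd hp h).trans ?_
    exact mul_le_mul_of_nonneg_left (div_le_self (wt_nonneg _ _) h) (by positivity)

/-- the friction inside -/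
lemma inner_bd (hd : p.natDegree ≤ 2 * (m + 1)) (hp : ∀ j, |p.coeff j| ≤ A) {x R : ℝ}
    (hx : |x| ≤ R) (hR : 1 ≤ R) :
    |p.eval x - p.coeff (2 * (m + 1)) * wt (m + 1) x| ≤ 3 * A * (1 + wt (m + 1) R / R) := by
  have hA := coeff_bd_nonneg hp
  have hR0 : 0 < R := by linarith
  have hw := wt_nonneg (m + 1) R
  have hin := wt_inner m hx hR0
  rcases le_total |x| 1 with h | h
  · refine (near hd hp x).trans (mul_le_mul_of_nonneg_left (hin.trans ?_) (by positivity))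
    have h1 : (x / R) ^ 2 * wt (m + 1) R ≤ (1 / R) * wt (m + 1) R := by
      refine mul_le_mul_of_nonneg_right ?_ hw
      rw [← sq_abs, abs_div, abs_of_pos hR0]
      have h2 : |x| / R ≤ 1 / R := div_le_div_of_nonneg_right h hR0.le
      have h3 : 1 / R ≤ 1 := by rw [div_le_one hR0]; exact hR
      have h4 : 0 ≤ |x| / R := by positivity
      nlinarith
    have e : (1 / R) * wt (m + 1) R = wt (m + 1) R / R := by ring
    linarith
  · refine (far hd hp h).trans (mul_le_mul_of_nonneg_left ?_ (by positivity))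
    have hx0 : 0 < |x| := by linarith
    rw [div_le_iff₀ hx0]
    refine hin.trans ?_
    have h1 : (x / R) ^ 2 * wt (m + 1) R ≤ wt (m + 1) R / R * |x| := by
      have e1 : (x / R) ^ 2 * wt (m + 1) R = (|x| / R) * (wt (m + 1) R / R * |x|) := by
        rw [← sq_abs, abs_div, abs_of_pos hR0]; ring
      rw [e1]
      have h2 : |x| / R ≤ 1 := by rw [div_le_one hR0]; exact hx
      have h3 : 0 ≤ wt (m + 1) R / R * |x| := by positivity
      exact mul_le_of_le_one_left h3 h2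
    linarith

/-- the friction is positive for large parameters -/
lemma eval_lt (hd : p.natDegree ≤ 2 * (m + 1)) (hp : ∀ j, |p.coeff j| ≤ A) (x : ℝ) :
    |p.eval x| ≤ 2 * A * wt (m + 1) x := by
  have hA := coeff_bd_nonneg hp
  have e1 : p.eval x = (∑ j ∈ range (2 * m + 2), p.coeff j * x ^ j) +
      p.coeff (2 * (m + 1)) * (x ^ 2) ^ (m + 1) := by
    rw [← pow_mul, eval_eq_sum_range' (n := 2 * m + 2 + 1) (by omega), sum_range_succ]
    rfl
  have h1 := abs_sum_le (A := A) (b := fun j => p.coeff j) hp m x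
  have hpow : 0 ≤ (x ^ 2) ^ (m + 1) := by positivity
  have h2 : |p.coeff (2 * (m + 1))| * (x ^ 2) ^ (m + 1) ≤ A * (x ^ 2) ^ (m + 1) :=
    mul_le_mul_of_nonneg_right (hp _) hpow
  have hv := wt_nonneg m x
  have h3 : |x| ≤ (1 + x ^ 2) / 2 := by
    rw [← sq_abs]
    nlinarith [sq_nonneg (|x| - 1)]
  have h4 : |x| * wt m x ≤ (1 + x ^ 2) / 2 * wt m x := mul_le_mul_of_nonneg_right h3 hv
  have e2 : wt (m + 1) x = 1 + x ^ 2 * wt m x := wt_succ' m x
  have e3 : wt (m + 1) x = wt m x + (x ^ 2) ^ (m + 1) := wt_succ m x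
  rw [e1]
  refine (abs_add_le _ _).trans ?_
  rw [abs_mul, abs_of_nonneg hpow]
  have h5 : (1 + |x|) * wt m x + (x ^ 2) ^ (m + 1) ≤ 2 * wt (m + 1) x := by linarith
  have h6 := mul_le_mul_of_nonneg_left h5 hA
  linarith

end Pool.Agent.K9h2.LW
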