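import Mathlib
import Pool.Agent.K9h2.LW.Weight

/-! Even polynomials relative to the weight `1 + x² + ...`. -/

open Set Filter Topology MeasureTheory
open Finset (range)

namespace Pool.Agent.K9h2.LW

/-- `∑ b_i x^(2 i)` -/
noncomputable def ev (b : ℕ → ℝ) (n : ℕ) (x : ℝ) : ℝ := ∑ i ∈ range (n + 1), b i * x ^ (2 * i)

/-- its derivative -/
noncomputable def ev' (b : ℕ → ℝ) (n : ℕ) (x : ℝ) : ℝ :=
  ∑ i ∈ range (n + 1), b i * ((2 * i : ℕ) * x ^ (2 * i - 1))

lemma ev_hasDerivAt (b : ℕ → ℝ) (n : ℕ) (x : ℝ) : HasDerivAt (ev b n) (ev' b n x) x := by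
  unfold ev ev'
  refine HasDerivAt.fun_sum fun i _ => ?_
  exact (hasDerivAt_pow (2 * i) x).const_mul (b i)

lemma ev_cont (b : ℕ → ℝ) (n : ℕ) : Continuous (ev b n) := by
  unfold ev
  fun_prop

lemma ev'_cont (b : ℕ → ℝ) (n : ℕ) : Continuous (ev' b n) := by
  unfold ev'
  fun_prop

lemma wt_eq_ev (n : ℕ) (x : ℝ) : wt n x = ev (fun _ => 1) n x := by
  unfold wt ev
  refine Finset.sum_congr rfl fun i _ => ?_
  rw [one_mul, pow_mul]

lemma ev_one_pos (n : ℕ) (x : ℝ) : 0 < ev (fun _ => 1) n x := by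
  rw [← wt_eq_ev]
  linarith [one_le_wt n x]

variable {b : ℕ → ℝ} {n : ℕ} {A : ℝ}

lemma ev_abs (hb : ∀ i, |b i| ≤ A) (x : ℝ) : |ev b n x| ≤ A * ev (fun _ => 1) n x := by
  unfold ev
  rw [Finset.mul_sum]
  refine (Finset.abs_sum_le_sum_abs _ _).trans (Finset.sum_le_sum fun i _ => ?_)
  rw [abs_mul, one_mul, pow_mul, abs_of_nonneg (show 0 ≤ (x ^ 2) ^ i by positivity)]
  exact mul_le_mul_of_nonneg_right (hb i) (by positivity)

lemma ev'_abs (hb : ∀ i, |b i| ≤ A) {x : ℝ} (hx : 0 ≤ x) :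
    |ev' b n x| ≤ A * ev' (fun _ => 1) n x := by
  unfold ev'
  rw [Finset.mul_sum]
  refine (Finset.abs_sum_le_sum_abs _ _).trans (Finset.sum_le_sum fun i _ => ?_)
  rw [abs_mul, one_mul, abs_of_nonneg (show 0 ≤ ((2 * i : ℕ) : ℝ) * x ^ (2 * i - 1) by positivity)]
  exact mul_le_mul_of_nonneg_right (hb i) (by positivity)

lemma rev_abs (hb : ∀ i, |b i| ≤ A) (x : ℝ) :
    |2 * n * ev b n x - x * ev' b n x| ≤
      A * (2 * n * ev (fun _ => 1) n x - x * ev' (fun _ => 1) n x) := by
  have e : ∀ c : ℕ → ℝ, 2 * n * ev c n x - x * ev' c n x =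
      ∑ i ∈ range (n + 1), c i * ((2 * n - 2 * i) * x ^ (2 * i)) := by
    intro c
    unfold ev ev'
    rw [Finset.mul_sum, Finset.mul_sum, ← Finset.sum_sub_distrib]
    refine Finset.sum_congr rfl fun i _ => ?_
    rcases i with _ | i
    · simp; ring
    · rw [show 2 * (i + 1) - 1 = 2 * i + 1 by omega, show 2 * (i + 1) = (2 * i + 1) + 1 by ring,
        pow_succ]
      push_cast
      ring
  rw [e, e, Finset.mul_sum]
  refine (Finset.abs_sum_le_sum_abs _ _).trans (Finset.sum_le_sum fun i hi => ?_)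
  have hi' : (i:ℝ) ≤ n := by exact_mod_cast Nat.lt_succ_iff.1 (Finset.mem_range.1 hi)
  have h0 : 0 ≤ (2 * (n:ℝ) - 2 * i) * x ^ (2 * i) := by
    rw [pow_mul]
    exact mul_nonneg (by linarith) (by positivity)
  rw [abs_mul, one_mul, abs_of_nonneg h0]
  exact mul_le_mul_of_nonneg_right (hb i) h0

/-- the quotient -/
noncomputable def quo (b : ℕ → ℝ) (n : ℕ) (x : ℝ) : ℝ := ev b n x / ev (fun _ => 1) n x

/-- its derivative -/
noncomputable def quo' (b : ℕ → ℝ) (n : ℕ) (x : ℝ) : ℝ :=
  (ev' b n x * ev (fun _ => 1) n x - ev b n x * ev' (fun _ => 1) n x) / ev (fun _ => 1) n x ^ 2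

lemma quo_hasDerivAt (b : ℕ → ℝ) (n : ℕ) (x : ℝ) : HasDerivAt (quo b n) (quo' b n x) x :=
  (ev_hasDerivAt b n x).div (ev_hasDerivAt _ n x) (ev_one_pos n x).ne'

lemma quo'_cont (b : ℕ → ℝ) (n : ℕ) : Continuous (quo' b n) := by
  unfold quo'
  have h1 := ev_cont b n
  have h2 := ev'_cont b n
  have h3 := ev_cont (fun _ => 1) n
  have h4 := ev'_cont (fun _ => 1) n
  exact Continuous.div (by fun_prop) (by fun_prop) fun x => pow_ne_zero 2 (ev_one_pos n x).ne'

lemma quo'_le1 (hb : ∀ i, |b i| ≤ A) {x : ℝ} (hx : 0 ≤ x) :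
    |quo' b n x| ≤ 2 * A * (ev' (fun _ => 1) n x / ev (fun _ => 1) n x) := by
  have hA : 0 ≤ A := (abs_nonneg _).trans (hb 0)
  set v := ev (fun _ => 1) n x with hv
  set v' := ev' (fun _ => 1) n x with hv'
  have hv0 : 0 < v := ev_one_pos n x
  have h1 := ev_abs (n := n) hb x
  have h2 := ev'_abs (n := n) hb hx
  rw [← hv] at h1
  rw [← hv'] at h2
  unfold quo'
  rw [← hv, ← hv', abs_div, abs_of_pos (pow_pos hv0 2), div_le_iff₀ (pow_pos hv0 2)]
  have h3 : |ev' b n x * v - ev b n x * v'| ≤ A * v' * v + A * v * |v'| := by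
    refine (abs_sub _ _).trans (add_le_add ?_ ?_)
    · rw [abs_mul, abs_of_pos hv0]
      exact mul_le_mul_of_nonneg_right h2 hv0.le
    · rw [abs_mul]
      exact mul_le_mul_of_nonneg_right h1 (abs_nonneg _)
  have h4 : 0 ≤ v' := by
    rw [hv']; unfold ev'
    exact Finset.sum_nonneg fun i _ => by positivity
  rw [abs_of_nonneg h4] at h3
  have e : 2 * A * (v' / v) * v ^ 2 = A * v' * v + A * v * v' := by
    field_simp
    ring
  rw [e]
  exact h3

lemma quo'_le2 (hb : ∀ i, |b i| ≤ A) {x : ℝ} (hx : 0 < x) :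
    |quo' b n x| ≤ 2 * A * (2 * n / x - ev' (fun _ => 1) n x / ev (fun _ => 1) n x) := by
  have hA : 0 ≤ A := (abs_nonneg _).trans (hb 0)
  set v := ev (fun _ => 1) n x with hv
  set v' := ev' (fun _ => 1) n x with hv'
  have hv0 : 0 < v := ev_one_pos n x
  have h1 := ev_abs (n := n) hb x
  have h2 := rev_abs (n := n) hb x
  rw [← hv] at h1
  rw [← hv, ← hv'] at h2
  set r := 2 * n * ev b n x - x * ev' b n x with hr
  set r1 := 2 * n * v - x * v' with hr1
  have hr0 : 0 ≤ A * r1 := (abs_nonneg _).trans h2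
  unfold quo'
  rw [← hv, ← hv', abs_div, abs_of_pos (pow_pos hv0 2), div_le_iff₀ (pow_pos hv0 2)]
  have e1 : x * (ev' b n x * v - ev b n x * v') = ev b n x * r1 - r * v := by
    rw [hr, hr1]; ring
  have h3 : x * |ev' b n x * v - ev b n x * v'| ≤ 2 * (A * r1 * v) := by
    rw [← abs_of_pos hx, ← abs_mul, abs_of_pos hx, e1]
    refine (abs_sub _ _).trans ?_
    rw [abs_mul, abs_mul, abs_of_pos hv0]
    have h4 : |r| * v ≤ A * r1 * v := mul_le_mul_of_nonneg_right h2 hv0.le
    have h5 : |ev b n x| * |r1| ≤ A * v * |r1| := mul_le_mul_of_nonneg_right h1 (abs_nonneg _)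
    have h6 : A * v * |r1| = A * r1 * v := by
      rcases hA.eq_or_lt with h0 | h0
      · rw [← h0]; ring
      · have : 0 ≤ r1 := by
          by_contra hcon
          push Not at hcon
          have := mul_neg_of_pos_of_neg h0 hcon
          linarith
        rw [abs_of_nonneg this]; ring
    linarith
  have e2 : x * (2 * A * (2 * n / x - v' / v) * v ^ 2) = 2 * (A * r1 * v) := by
    rw [hr1]
    field_simp
  rw [← e2] at h3
  exact le_of_mul_le_mul_left h3 hx

lemma ev_one_ge (n : ℕ) {x : ℝ} (_hx : 0 ≤ x) : x ^ (2 * n) ≤ ev (fun _ => 1) n x := by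
  unfold ev
  rw [Finset.sum_range_succ, one_mul]
  have : 0 ≤ ∑ i ∈ range n, (1:ℝ) * x ^ (2 * i) := Finset.sum_nonneg fun i _ => by
    rw [one_mul, pow_mul]; positivity
  linarith

lemma log_ev_hasDerivAt (n : ℕ) (x : ℝ) :
    HasDerivAt (fun x => Real.log (ev (fun _ => 1) n x))
      (ev' (fun _ => 1) n x / ev (fun _ => 1) n x) x :=
  (ev_hasDerivAt _ n x).log (ev_one_pos n x).ne'

lemma ev_one_one (n : ℕ) : ev (fun _ => 1) n 1 = n + 1 := by simp [ev]

lemma ev_one_zero (n : ℕ) : ev (fun _ => 1) n 0 = 1 := by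
  unfold ev
  rw [Finset.sum_range_succ']
  simp

/-- the variation of the quotient -/
theorem quo_var (hb : ∀ i, |b i| ≤ A) {R : ℝ} (hR : 0 ≤ R) :
    ∫ x in (0:ℝ)..R, |quo' b n x| ≤ 4 * A * Real.log (n + 1) := by
  have hA : 0 ≤ A := (abs_nonneg _).trans (hb 0)
  have hc := (quo'_cont b n).abs
  have hv := ev_cont (fun _ => 1) n
  have hv' := ev'_cont (fun _ => 1) n
  have hvne : ∀ x, ev (fun _ => 1) n x ≠ 0 := fun x => (ev_one_pos n x).ne'
  have hq : Continuous fun x => ev' (fun _ => 1) n x / ev (fun _ => 1) n x :=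
    hv'.div hv hvne
  -- the part inside
  have hin : ∀ r : ℝ, 0 ≤ r → r ≤ 1 → ∫ x in (0:ℝ)..r, |quo' b n x| ≤
      2 * A * Real.log (n + 1) := by
    intro r h0 h1
    have h2 : ∫ x in (0:ℝ)..r, |quo' b n x| ≤
        ∫ x in (0:ℝ)..r, 2 * A * (ev' (fun _ => 1) n x / ev (fun _ => 1) n x) :=
      intervalIntegral.integral_mono_on h0 (hc.intervalIntegrable _ _)
        ((continuous_const.mul hq).intervalIntegrable _ _) fun x hx => quo'_le1 hb hx.1
    refine h2.trans ?_
    rw [intervalIntegral.integral_const_mul, intervalIntegral.integral_eq_sub_of_hasDerivAt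
      (fun x _ => log_ev_hasDerivAt n x) (hq.intervalIntegrable _ _), ev_one_zero, Real.log_one,
      sub_zero]
    refine mul_le_mul_of_nonneg_left ?_ (by positivity)
    apply Real.log_le_log (ev_one_pos n r)
    rw [← ev_one_one, ← wt_eq_ev, ← wt_eq_ev]
    exact wt_mono n (by rw [abs_of_nonneg h0, abs_one]; exact h1)
  have hlog : 0 ≤ Real.log ((n:ℝ) + 1) := Real.log_nonneg (by
    have : (0:ℝ) ≤ n := Nat.cast_nonneg n
    linarith)
  rcases le_total R 1 with h1 | h1
  · have := hin R hR h1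
    have h2 : 0 ≤ A * Real.log (n + 1) := mul_nonneg hA hlog
    linarith
  · have h2 := hin 1 zero_le_one le_rfl
    have h3 : ∫ x in (1:ℝ)..R, |quo' b n x| ≤ 2 * A * Real.log (n + 1) := by
      have hci : ∀ x ∈ uIcc 1 R, HasDerivAt (fun x => 2 * n * Real.log x -
          Real.log (ev (fun _ => 1) n x))
          (2 * n / x - ev' (fun _ => 1) n x / ev (fun _ => 1) n x) x := by
        intro x hx
        rw [uIcc_of_le h1] at hx
        have hx0 : x ≠ 0 := by linarith [hx.1]
        refine (((Real.hasDerivAt_log hx0).const_mul (2 * (n:ℝ))).sub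
          (log_ev_hasDerivAt n x)).congr_deriv ?_
        ring
      have hcont : ContinuousOn (fun x => 2 * A * (2 * n / x -
          ev' (fun _ => 1) n x / ev (fun _ => 1) n x)) (uIcc 1 R) := by
        rw [uIcc_of_le h1]
        refine continuousOn_const.mul (ContinuousOn.sub ?_ hq.continuousOn)
        exact continuousOn_const.div continuousOn_id fun x hx => by
          have := hx.1
          linarith
      have hcont2 : ContinuousOn (fun x => 2 * n / x -
          ev' (fun _ => 1) n x / ev (fun _ => 1) n x) (uIcc 1 R) := by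
        rw [uIcc_of_le h1]
        refine ContinuousOn.sub ?_ hq.continuousOn
        exact continuousOn_const.div continuousOn_id fun x hx => by
          have := hx.1
          linarith
      have h4 : ∫ x in (1:ℝ)..R, |quo' b n x| ≤ ∫ x in (1:ℝ)..R, 2 * A * (2 * n / x -
          ev' (fun _ => 1) n x / ev (fun _ => 1) n x) :=
        intervalIntegral.integral_mono_on h1 (hc.intervalIntegrable _ _)
          hcont.intervalIntegrable fun x hx => quo'_le2 hb (by linarith [hx.1])
      refine h4.trans ?_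
      rw [intervalIntegral.integral_const_mul, intervalIntegral.integral_eq_sub_of_hasDerivAt
        hci hcont2.intervalIntegrable, ev_one_one, Real.log_one, mul_zero, zero_sub]
      have h5 : 2 * n * Real.log R ≤ Real.log (ev (fun _ => 1) n R) := by
        have h6 := Real.log_le_log (pow_pos (by linarith) _) (ev_one_ge n hR (x := R))
        rw [Real.log_pow] at h6
        push_cast at h6
        exact h6
      refine mul_le_mul_of_nonneg_left ?_ (by positivity)
      linarith
    rw [← intervalIntegral.integral_add_adjacent_intervals (b := 1)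
      (hc.intervalIntegrable _ _) (hc.intervalIntegrable _ _)]
    linarith

/-- integrals over the half-line from bounded partial integrals -/
lemma half_line {F : ℝ → ℝ} (hF : Continuous F) {K : ℝ}
    (h : ∀ R : ℝ, 0 ≤ R → ∫ x in (0:ℝ)..R, |F x| ≤ K) :
    IntegrableOn F (Ioi 0) ∧ ∫ x in Ioi 0, |F x| ≤ K := by
  have h1 : IntegrableOn F (Ioi 0) := by
    refine integrableOn_Ioi_of_intervalIntegral_norm_bounded (l := atTop) (b := id) K 0
      (fun i => ?_) tendsto_id ?_
    · exact (hF.integrableOn_Icc).mono_set Ioc_subset_Icc_self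
    · filter_upwards [eventually_ge_atTop 0] with R hR
      simpa [Real.norm_eq_abs] using h R hR
  refine ⟨h1, ?_⟩
  have h2 := intervalIntegral_tendsto_integral_Ioi (l := atTop) (b := id) 0 h1.abs tendsto_id
  refine le_of_tendsto h2 ?_
  filter_upwards [eventually_ge_atTop 0] with R hR
  exact h R hR

end Pool.Agent.K9h2.LW
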