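import Pool.Agent.K9h2.LW.Whole

/-! All closed orbits in the whole plane: the theorem. -/

open Set Filter Topology MeasureTheory Polynomial
open scoped ENNReal

namespace Pool.Agent.K9h2.LW

open Pool.Agent.K9h2.LI

variable {g f w : ℝ → ℝ} {A : ℝ} {m : ℕ} {p : ℝ[X]}

lemma WOrb.ρ_pos (o : WOrb g f w) : 0 < o.ρ :=
  o.loop.up.hr.trans_le (le_max_left _ _)

/-- the friction part is small compared to the size -/
lemma WOrb.B_le (hg : Rest g) (hm : Monotone g) (hd : p.natDegree ≤ 2 * (m + 1))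
    (hp : ∀ j, |p.coeff j| ≤ A) (o : WOrb g (fun x => p.eval x) (wt (m + 1))) :
    o.ρ * o.B (fun x => p.eval x - p.coeff (2 * (m + 1)) * wt (m + 1) x) ≤ 150 * A * o.S := by
  have hA := coeff_bd_nonneg hp
  have hwc := wt_cont (m + 1)
  have hpc := p.continuous
  have hρ := o.ρ_pos
  set k : ℝ → ℝ := fun x => p.eval x - p.coeff (2 * (m + 1)) * wt (m + 1) x with hk
  have hkc : Continuous k := by fun_prop
  have hS0 : 0 ≤ o.S := integral_nonneg fun x => mul_nonneg (wt_nonneg _ x) (o.d_nonneg hg x)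
  rcases le_total o.ρ 2 with h2 | h2
  · have h1 : o.B k ≤ 3 * A * o.S := by
      unfold WOrb.B WOrb.S
      rw [← integral_const_mul]
      refine integral_mono (o.integrable hg hkc.abs) ((o.integrable hg hwc).const_mul _) fun x => ?_
      have := mul_le_mul_of_nonneg_right (near hd hp x) (o.d_nonneg hg x)
      simp only [hk]
      linarith
    have h3 : o.ρ * o.B k ≤ 2 * (3 * A * o.S) :=
      mul_le_mul h2 h1 (o.B_nonneg hg k) (by norm_num)
    have h4 : 0 ≤ A * o.S := mul_nonneg hA hS0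
    linarith
  · set R : ℝ := o.ρ / 2 with hR
    have hR1 : 1 ≤ R := by rw [hR]; linarith
    have hR0 : 0 < R := by linarith
    have hwR := wt_nonneg (m + 1) R
    have hwR2 : 2 * R ≤ wt (m + 1) R := by
      have h3 := one_le_wt m R
      rw [wt_succ']
      nlinarith [sq_nonneg (R - 1), sq_nonneg R]
    set q : ℝ := 6 * A * (1 + wt (m + 1) R / R) with hq
    have hq0 : 0 ≤ q := by positivity
    have hi1 : Integrable ((Icc (-R) R).indicator fun _ => q) := by
      rw [integrable_indicator_iff measurableSet_Icc]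
      exact continuous_const.continuousOn.integrableOn_Icc
    have hi2 : Integrable fun x => 3 * A / R * (wt (m + 1) x * o.d x) :=
      (o.integrable hg hwc).const_mul _
    have h1 : o.B k ≤ ∫ x, ((Icc (-R) R).indicator (fun _ => q) x +
        3 * A / R * (wt (m + 1) x * o.d x)) := by
      refine integral_mono (o.integrable hg hkc.abs) (hi1.add hi2) fun x => ?_
      have hd0 := o.d_nonneg hg x
      have hd2 := o.d_le hg x
      have hsec : 0 ≤ 3 * A / R * (wt (m + 1) x * o.d x) := by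
        have := wt_nonneg (m + 1) x
        positivity
      by_cases hx : |x| ≤ R
      · have hxm : x ∈ Icc (-R) R := abs_le.1 hx
        have h3 := inner_bd hd hp hx hR1
        simp only [indicator_of_mem hxm]
        have h4 : |k x| * o.d x ≤ 3 * A * (1 + wt (m + 1) R / R) * 2 :=
          mul_le_mul h3 hd2 hd0 (by positivity)
        linarith
      · push Not at hx
        have hx1 : 1 ≤ |x| := hR1.trans hx.le
        have h3 := far hd hp hx1
        have h4 : wt (m + 1) x / |x| ≤ wt (m + 1) x / R :=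
          div_le_div_of_nonneg_left (wt_nonneg _ _) hR0 hx.le
        have h5 := mul_le_mul_of_nonneg_left h4 (show 0 ≤ 3 * A by positivity)
        have h6 : |k x| * o.d x ≤ 3 * A * (wt (m + 1) x / R) * o.d x :=
          mul_le_mul_of_nonneg_right (h3.trans h5) hd0
        have h7 : 0 ≤ (Icc (-R) R).indicator (fun _ => q) x := indicator_nonneg (fun _ _ => hq0) x
        have e : 3 * A * (wt (m + 1) x / R) * o.d x = 3 * A / R * (wt (m + 1) x * o.d x) := by ring
        simp only
        linarith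
    have h2' : ∫ x, ((Icc (-R) R).indicator (fun _ => q) x +
        3 * A / R * (wt (m + 1) x * o.d x)) = 2 * R * q + 3 * A / R * o.S := by
      rw [integral_add hi1 hi2, integral_const_mul, integral_indicator measurableSet_Icc,
        integral_Icc_eq_integral_Ioc, ← intervalIntegral.integral_of_le (by linarith),
        intervalIntegral.integral_const, smul_eq_mul]
      unfold WOrb.S
      ring
    rw [h2'] at h1
    have h3 : 2 * R * q = 12 * A * (R + wt (m + 1) R) := by
      rw [hq]; field_simp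
      ring
    have h4 : R + wt (m + 1) R ≤ 3 / 2 * wt (m + 1) R := by linarith
    have h5 : 12 * A * (R + wt (m + 1) R) ≤ 12 * A * (3 / 2 * wt (m + 1) R) :=
      mul_le_mul_of_nonneg_left h4 (by positivity)
    have h6 := o.S_ρ hg hm
    rw [← hR] at h6
    have h7 : o.ρ * (12 * A * (3 / 2 * wt (m + 1) R)) ≤ 144 * A * o.S := by
      have := mul_le_mul_of_nonneg_left h6 (show 0 ≤ 144 * A by positivity)
      linarith
    have h8 : o.ρ * (3 * A / R * o.S) = 6 * A * o.S := by
      rw [hR]; field_simp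
      ring
    have h9 : o.ρ * o.B k ≤ o.ρ * (12 * A * (3 / 2 * wt (m + 1) R) + 3 * A / R * o.S) :=
      mul_le_mul_of_nonneg_left (by linarith) hρ.le
    rw [mul_add, h8] at h9
    linarith

/-- the reach of the orbit as a power of the size -/
lemma WOrb.ρ_ge (hg : Rest g) (o : WOrb g f (wt (m + 1))) (h1 : 1 ≤ o.ρ) (hS : 0 < o.S) :
    (o.S / (4 * (m + 2))) ^ (1 / (2 * (m:ℝ) + 3)) ≤ o.ρ := by
  have h2 := o.S_le hg
  have h3 := wt_le_pow (m + 1) h1
  have hρ := o.ρ_pos
  have h4 : o.S ≤ 4 * (m + 2) * o.ρ ^ (2 * m + 3) := by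
    have h5 : o.ρ * wt (m + 1) o.ρ ≤ o.ρ * (((m + 1 : ℕ) + 1) * o.ρ ^ (2 * (m + 1))) :=
      mul_le_mul_of_nonneg_left h3 hρ.le
    have e : o.ρ * ((((m + 1 : ℕ) : ℝ) + 1) * o.ρ ^ (2 * (m + 1))) =
        (m + 2) * o.ρ ^ (2 * m + 3) := by
      push_cast
      rw [show 2 * m + 3 = 2 * (m + 1) + 1 by ring, pow_succ]
      ring
    rw [e] at h5
    linarith
  have h5 : o.S / (4 * (m + 2)) ≤ o.ρ ^ (2 * m + 3) := by
    rw [div_le_iff₀ (by positivity)]
    linarith
  have h6 : (o.S / (4 * (m + 2))) ^ (1 / (2 * (m:ℝ) + 3)) ≤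
      (o.ρ ^ (2 * m + 3)) ^ (1 / (2 * (m:ℝ) + 3)) :=
    Real.rpow_le_rpow (by positivity) h5 (by positivity)
  refine h6.trans (le_of_eq ?_)
  rw [← Real.rpow_natCast, ← Real.rpow_mul hρ.le]
  have : ((2 * m + 3 : ℕ) : ℝ) * (1 / (2 * (m:ℝ) + 3)) = 1 := by
    push_cast
    field_simp
  rw [this, Real.rpow_one]

lemma three_pow (m : ℕ) : (8 * (m + 2) : ℝ) ≤ 3 ^ (2 * m + 3) := by
  induction m with
  | zero => norm_num
  | succ m ih =>
    rw [show 2 * (m + 1) + 3 = (2 * m + 3) + 2 by ring, pow_add]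
    push_cast
    have : (0:ℝ) ≤ m := Nat.cast_nonneg m
    nlinarith

/-- orbits which leave the strip `|x| ≤ 1` -/
theorem outer (hg : Rest g) (hm : Monotone g) (hd : p.natDegree ≤ 2 * (m + 1))
    (hp : ∀ j, |p.coeff j| ≤ A) :
    ∃ N : ℝ → ℝ≥0∞, Measurable N ∧
      (∀ μ, (({C | C ∈ orbitsW g (fun x => p.eval x) (wt (m + 1)) μ ∧
        ∃ z ∈ C, 1 < |z.1|}.encard : ℕ∞) : ℝ≥0∞) ≤ N μ) ∧
      ∫⁻ μ, N μ ≤ ENNReal.ofReal (3150 * A * (m + 1)) := by
  have hA := coeff_bd_nonneg hp
  have hm0 : (0:ℝ) ≤ m := Nat.cast_nonneg m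
  set β : ℝ := 1 / (2 * (m:ℝ) + 3) with hβ
  have hβ0 : 0 < β := by positivity
  have hβ1 : β ≤ 1 := by
    rw [hβ, div_le_one (by positivity)]; linarith
  set D : ℝ := 4 * (m + 2) with hD
  have hD0 : 0 < D := by positivity
  obtain ⟨N, h1, h2, h3⟩ := sup_bound hg (wt_Wt (m + 1)) p.continuous (p.coeff (2 * (m + 1)))
    (β := β) (K := 150 * A * D ^ β) (S0 := 1 / 2) hβ0 hβ1
    (mul_nonneg (by positivity) (Real.rpow_nonneg hD0.le _)) (by norm_num)
    (fun C => ∃ z ∈ C, 1 < |z.1|) (by
      rintro o ⟨z, hz, hz1⟩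
      have hzm : z.1 ∈ Icc o.l o.r := by
        rcases hz with ⟨y, hy, rfl⟩ | ⟨y, hy, rfl⟩ <;> exact hy
      have hρ1 : 1 ≤ o.ρ := hz1.le.trans (o.ρ_mem hzm)
      have hρ := o.ρ_pos
      have hhalf := o.S_half hg hm
      have hS : 1 / 2 ≤ o.S := by
        have h5 : |z.1| ≤ o.r - o.l := by
          have := o.loop.up.hl
          have := o.loop.up.hr
          exact abs_le.2 ⟨by linarith [hzm.1], by linarith [hzm.2]⟩
        linarith
      have hS0 : 0 < o.S := by linarith
      refine ⟨hS, ?_⟩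
      have hB := o.B_le hg hm hd hp
      have hge := o.ρ_ge hg hρ1 hS0
      rw [← hD, ← hβ] at hge
      set Bv := o.B (fun x => p.eval x - p.coeff (2 * (m + 1)) * wt (m + 1) x) with hBv
      have hBn : 0 ≤ Bv := o.B_nonneg hg _
      have hpos : 0 < (o.S / D) ^ β := Real.rpow_pos_of_pos (by positivity) _
      have h6 : (o.S / D) ^ β * Bv ≤ 150 * A * o.S :=
        (mul_le_mul_of_nonneg_right hge hBn).trans hB
      have h7 : Bv ≤ 150 * A * o.S / (o.S / D) ^ β := by
        rw [le_div_iff₀ hpos]; linarith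
      refine h7.trans (le_of_eq ?_)
      rw [Real.div_rpow hS0.le hD0.le, sub_eq_add_neg, Real.rpow_add hS0, Real.rpow_one,
        Real.rpow_neg hS0.le]
      have := (Real.rpow_pos_of_pos hS0 β).ne'
      have := (Real.rpow_pos_of_pos hD0 β).ne'
      field_simp)
  refine ⟨N, h1, h2, h3.trans (ENNReal.ofReal_le_ofReal ?_)⟩
  have e1 : D ^ β * (1 / 2) ^ (-β) = (2 * D) ^ β := by
    rw [one_div, Real.inv_rpow (by norm_num), Real.rpow_neg (by norm_num), inv_inv,
      Real.mul_rpow (by norm_num) hD0.le]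
    ring
  have e2 : (2 * D) ^ β ≤ 3 := by
    have h4 : 2 * D ≤ 3 ^ (2 * m + 3) := by
      rw [hD]
      have := three_pow m
      linarith
    have h5 : (2 * D) ^ β ≤ ((3:ℝ) ^ (2 * m + 3)) ^ β := Real.rpow_le_rpow (by positivity) h4 hβ0.le
    refine h5.trans (le_of_eq ?_)
    rw [← Real.rpow_natCast, ← Real.rpow_mul (by norm_num)]
    have : ((2 * m + 3 : ℕ) : ℝ) * β = 1 := by
      rw [hβ]
      push_cast
      field_simp
    rw [this, Real.rpow_one]
  have e3 : 150 * A * D ^ β * (1 / 2) ^ (-β) * (1 + 2 / β) =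
      150 * A * ((2 * D) ^ β * (4 * m + 7)) := by
    rw [← e1, hβ]
    field_simp
    ring
  rw [e3]
  have h5 : (2 * D) ^ β * (4 * m + 7) ≤ 3 * (7 * (m + 1)) :=
    mul_le_mul e2 (by linarith) (by positivity) (by norm_num)
  have h6 := mul_le_mul_of_nonneg_left h5 (show 0 ≤ 150 * A by positivity)
  linarith

/-- orbits in the strip `|x| ≤ 1` -/
theorem inner (hg : Rest g) (hm : Monotone g) (hd : p.natDegree ≤ 2 * (m + 1))
    (hp : ∀ j, |p.coeff j| ≤ A) :
    ∃ N : ℝ → ℝ≥0∞, Measurable N ∧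
      (∀ μ, (({C | C ∈ orbitsW g (fun x => p.eval x) (wt (m + 1)) μ ∧
        ∀ z ∈ C, |z.1| ≤ 1}.encard : ℕ∞) : ℝ≥0∞) ≤ N μ) ∧
      ∫⁻ μ, N μ ≤ ENNReal.ofReal (96 * A * (m + 1)) := by
  have hA := coeff_bd_nonneg hp
  have hm0 : (0:ℝ) ≤ m := Nat.cast_nonneg m
  set I : Set ℝ := Icc (-1) 1 \ {0} with hI
  have hIm : MeasurableSet I := measurableSet_Icc.diff (measurableSet_singleton 0)
  have hae : I =ᵐ[volume] Icc (-1) 1 := sdiff_null_ae_eq_self (by simp)
  have hpc := p.continuous
  have hwc := wt_cont (m + 1)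
  have hbd : ∀ x ∈ I, |p.eval x - p.coeff 0 * wt (m + 1) x| / (|x| / 2) ≤ 6 * A * (m + 2) := by
    intro x hx
    have hx1 : |x| ≤ 1 := abs_le.2 hx.1
    have hx0 : 0 < |x| := abs_pos.2 hx.2
    rw [div_le_iff₀ (by positivity)]
    refine (near_zero hd hp hx1).trans ?_
    have h1 := wt_le_of_le_one (m + 1) hx1
    push_cast at h1
    have h2 : 3 * A * |x| * wt (m + 1) x ≤ 3 * A * |x| * (m + 2) :=
      mul_le_mul_of_nonneg_left (by linarith) (by positivity)
    linarith
  have hvol : volume I ≠ ⊤ := by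
    have : volume I ≤ volume (Icc (-1:ℝ) 1) := measure_mono sdiff_subset
    exact ne_top_of_le_ne_top (by simp) this
  have hint : IntegrableOn (fun x => |p.eval x - p.coeff 0 * wt (m + 1) x| / (|x| / 2)) I := by
    have hconst : IntegrableOn (fun _ : ℝ => 6 * A * (m + 2)) I :=
      integrableOn_const hvol
    refine Integrable.mono' hconst ?_ ?_
    · have h1 : Measurable fun x => |p.eval x - p.coeff 0 * wt (m + 1) x| / (|x| / 2) := by
        have : Measurable fun x => p.eval x := hpc.measurable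
        have : Measurable (wt (m + 1)) := hwc.measurable
        fun_prop
      exact h1.aestronglyMeasurable
    · refine (ae_restrict_iff' hIm).2 (Eventually.of_forall fun x hx => ?_)
      rw [Real.norm_eq_abs, abs_of_nonneg (by positivity)]
      exact hbd x hx
  obtain ⟨N, h1, h2, h3⟩ := l1_bound hg (wt_Wt (m + 1)) p.continuous (p.coeff 0) hIm
    (s := fun x => |x| / 2) (by fun_prop) (fun x hx => by
      have := abs_pos.2 hx.2
      positivity)
    (fun C => ∀ z ∈ C, |z.1| ≤ 1) (by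
      intro o ho
      have hlr : o.l ≤ o.r := (o.loop.up.hl.trans o.loop.up.hr).le
      have hlr' : o.l < o.r := o.loop.up.hl.trans o.loop.up.hr
      have hl1 := abs_le.1 (ho (o.l, o.U o.l) (Or.inl ⟨o.l, left_mem_Icc.2 hlr, rfl⟩))
      have hr1 := abs_le.1 (ho (o.r, o.U o.r) (Or.inl ⟨o.r, right_mem_Icc.2 hlr, rfl⟩))
      have hhalf := o.S_half hg hm
      refine ⟨?_, by linarith, ?_⟩
      · have h0 : ∀ᵐ x : ℝ, x ≠ 0 := by simp [ae_iff]
        filter_upwards [h0] with x hx hxI
        exact dens_zero fun hcon => hxI ⟨⟨hl1.1.trans hcon.1, hcon.2.trans hr1.2⟩, hx⟩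
      · intro x _ hx
        refine le_trans ?_ hhalf
        have := o.loop.up.hl
        have := o.loop.up.hr
        have : |x| ≤ o.r - o.l := abs_le.2 ⟨by linarith [hx.1], by linarith [hx.2]⟩
        linarith) hint
  refine ⟨N, h1, h2, h3.trans (ENNReal.ofReal_le_ofReal ?_)⟩
  have h4 : ∫ x in I, |p.eval x - p.coeff 0 * wt (m + 1) x| / (|x| / 2) ≤
      ∫ _ in I, 6 * A * (m + 2) :=
    setIntegral_mono_on hint (integrableOn_const hvol) hIm hbd
  have h5 : ∫ _ in I, 6 * A * (m + 2) = 12 * A * (m + 2) := by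
    rw [setIntegral_congr_set hae, integral_Icc_eq_integral_Ioc,
      ← intervalIntegral.integral_of_le (by norm_num), intervalIntegral.integral_const,
      smul_eq_mul]
    ring
  have h6 : 0 ≤ A * m := mul_nonneg hA hm0
  linarith

/-- **All closed orbits in the whole plane.** -/
theorem whole (hg : Rest g) (hm : Monotone g) (hd : p.natDegree ≤ 2 * (m + 1))
    (hp : ∀ j, |p.coeff j| ≤ A) :
    ∃ N : ℝ → ℝ≥0∞, Measurable N ∧
      (∀ μ, (((orbitsW g (fun x => p.eval x) (wt (m + 1)) μ).encard : ℕ∞) : ℝ≥0∞) ≤ N μ) ∧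
      ∫⁻ μ, N μ ≤ ENNReal.ofReal (3250 * A * (m + 1)) := by
  have hA := coeff_bd_nonneg hp
  have hm0 : (0:ℝ) ≤ m := Nat.cast_nonneg m
  obtain ⟨N1, a1, a2, a3⟩ := inner hg hm hd hp
  obtain ⟨N2, b1, b2, b3⟩ := outer hg hm hd hp
  refine ⟨fun μ => N1 μ + N2 μ, a1.add b1, fun μ => ?_, ?_⟩
  · refine le_trans ?_ (add_le_add (a2 μ) (b2 μ))
    rw [← ENat.toENNReal_add]
    refine ENat.toENNReal_le.2 (le_trans (encard_le_encard ?_) (encard_union_le _ _))
    intro C hC
    by_cases h : ∀ z ∈ C, |z.1| ≤ 1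
    · exact Or.inl ⟨hC, h⟩
    · push Not at h
      exact Or.inr ⟨hC, h⟩
  · rw [lintegral_add_left a1]
    refine (add_le_add a3 b3).trans ?_
    rw [← ENNReal.ofReal_add (by positivity) (by positivity)]
    apply ENNReal.ofReal_le_ofReal
    have h6 : 0 ≤ A * m := mul_nonneg hA hm0
    linarith

/-- closed orbits exist only for small parameters -/
theorem param_le (hg : Rest g) (hd : p.natDegree ≤ 2 * (m + 1))
    (hp : ∀ j, |p.coeff j| ≤ A) {μ : ℝ}
    (hne : (orbitsW g (fun x => p.eval x) (wt (m + 1)) μ).Nonempty) : |μ| ≤ 2 * A := by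
  have hA := coeff_bd_nonneg hp
  obtain ⟨C, hC⟩ := hne
  obtain ⟨o, ho, -⟩ := exists_worb hg (wt_Wt (m + 1)) p.continuous hC
  have hwc := wt_cont (m + 1)
  have hpc := p.continuous
  have hz := o.loop.integral_zero hg (o.cont_h (wt_Wt (m + 1)) p.continuous)
  rw [ho] at hz
  change ∫ x, (p.eval x + μ * wt (m + 1) x) * o.d x = 0 at hz
  -- positivity of the integral of d
  have hS : 0 < ∫ x, 1 * o.d x := by
    have hl := o.loop.up.hl
    have hr := o.loop.up.hr
    have hpc := hg.pot_cont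
    have hpr := hg.pot_pos hr.ne'
    have hpl := hg.pot_pos hl.ne
    have h := o.int_ge hg (k := fun _ => 1) continuous_const fun _ => zero_le_one
    have h1 : 0 ≤ ∫ x in o.l..0, (1:ℝ) * (1 - pot g x / pot g o.l) := by
      refine intervalIntegral.integral_nonneg hl.le fun x hx => ?_
      rw [one_mul, sub_nonneg, div_le_one hpl]
      exact hg.strictAntiOn.antitoneOn (mem_Iic.2 hl.le) (mem_Iic.2 hx.2) hx.1
    have h2 : 0 < ∫ x in (0:ℝ)..o.r, (1:ℝ) * (1 - pot g x / pot g o.r) := by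
      refine intervalIntegral.intervalIntegral_pos_of_pos_on
        (Continuous.intervalIntegrable (by fun_prop) _ _) (fun x hx => ?_) hr
      rw [one_mul, sub_pos, div_lt_one hpr]
      exact hg.strictMonoOn (mem_Ici.2 hx.1.le) (mem_Ici.2 hr.le) hx.2
    linarith
  by_contra hcon
  push Not at hcon
  set ε : ℝ := |μ| - 2 * A with hε
  have hε0 : 0 < ε := by linarith
  have key : ∀ s : ℝ, |s| = 1 → s * μ = |μ| → False := by
    intro s hs1 hs2
    have h1 : ε * ∫ x, 1 * o.d x ≤ ∫ x, (s * (p.eval x + μ * wt (m + 1) x)) * o.d x := by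
      rw [← integral_const_mul]
      refine integral_mono ((o.integrable hg continuous_const).const_mul _)
        (o.integrable hg (k := fun x => s * (p.eval x + μ * wt (m + 1) x)) (by fun_prop))
        fun x => ?_
      have h2 := eval_lt hd hp x
      have h3 := one_le_wt (m + 1) x
      have h4 : -|p.eval x| ≤ s * p.eval x := by
        have := neg_abs_le (s * p.eval x)
        rwa [abs_mul, hs1, one_mul] at this
      have h5 : ε * 1 ≤ ε * wt (m + 1) x := mul_le_mul_of_nonneg_left h3 hε0.le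
      have h6 : ε ≤ s * (p.eval x + μ * wt (m + 1) x) := by
        have e : s * (p.eval x + μ * wt (m + 1) x) = s * p.eval x + |μ| * wt (m + 1) x := by
          rw [← hs2]; ring
        have e2 : ε * wt (m + 1) x = |μ| * wt (m + 1) x - 2 * A * wt (m + 1) x := by
          rw [hε]; ring
        rw [e]
        linarith
      have := mul_le_mul_of_nonneg_right h6 (o.d_nonneg hg x)
      simp only
      linarith
    have h7 : ∫ x, (s * (p.eval x + μ * wt (m + 1) x)) * o.d x = 0 := by
      have : (fun x => (s * (p.eval x + μ * wt (m + 1) x)) * o.d x) =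
          fun x => s * ((p.eval x + μ * wt (m + 1) x) * o.d x) := by
        funext x; ring
      rw [this, integral_const_mul, hz, mul_zero]
    have := mul_pos hε0 hS
    linarith
  rcases le_total 0 μ with h | h
  · exact key 1 abs_one (by rw [abs_of_nonneg h, one_mul])
  · exact key (-1) (by simp) (by rw [abs_of_nonpos h]; ring)

end Pool.Agent.K9h2.LW
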