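import Pool.Agent.K9h2.LW.Pot
import Pool.Agent.K9h2.LW.Poly
import Pool.Agent.K9h2.LW.Whole2

/-! All closed orbits in the whole plane: polylogarithmic for even friction. -/

open Set Filter Topology MeasureTheory Polynomial
open scoped ENNReal

namespace Pool.Agent.K9h2.LW

open Pool.Agent.K9h2.LI

variable {g f : ℝ → ℝ} {A B : ℝ} {m n : ℕ} {p : ℝ[X]}

/-! ### the weight -/

lemma sW_ge (n : ℕ) {t : ℝ} (ht : 0 < t) :
    ∫ x in (0:ℝ)..t, wt n x ≤ (2 * n + 2) * sW (wt n) t := by
  have e1 : ∫ x in (0:ℝ)..t, wt n x = ∑ i ∈ Finset.range (n + 1), t ^ (2 * i + 1) / (2 * i + 1) := by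
    unfold wt
    rw [intervalIntegral.integral_finsetSum fun i _ =>
      Continuous.intervalIntegrable (by fun_prop) _ _]
    refine Finset.sum_congr rfl fun i _ => ?_
    have : ∀ x : ℝ, (x ^ 2) ^ i = x ^ (2 * i) := fun x => by rw [pow_mul]
    simp only [this]
    rw [integral_pow]
    simp
  have e2 : sW (wt n) t = ∑ i ∈ Finset.range (n + 1),
      t ^ (2 * i + 1) / ((2 * i + 1) * (2 * i + 2)) := by
    unfold sW wt
    have e3 : ∀ x : ℝ, (∑ i ∈ Finset.range (n + 1), (x ^ 2) ^ i) * (1 - x / t) =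
        ∑ i ∈ Finset.range (n + 1), (x ^ (2 * i) - x ^ (2 * i + 1) / t) := by
      intro x
      rw [Finset.sum_mul]
      refine Finset.sum_congr rfl fun i _ => ?_
      have h1 : x ^ (2 * i) = (x ^ 2) ^ i := pow_mul x 2 i
      have h2 : x ^ (2 * i + 1) = (x ^ 2) ^ i * x := by rw [pow_succ, h1]
      rw [h1, h2]
      ring
    simp only [e3]
    rw [intervalIntegral.integral_finsetSum fun i _ =>
      Continuous.intervalIntegrable (by fun_prop) _ _]
    refine Finset.sum_congr rfl fun i _ => ?_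
    rw [intervalIntegral.integral_sub (Continuous.intervalIntegrable (by fun_prop) _ _)
      (Continuous.intervalIntegrable (by fun_prop) _ _), intervalIntegral.integral_div,
      integral_pow, integral_pow]
    have h1 : (2 * (i:ℝ) + 1) ≠ 0 := by positivity
    have h2 : (2 * (i:ℝ) + 2) ≠ 0 := by positivity
    push_cast
    rw [pow_succ t (2 * i + 1)]
    simp only [ne_eq, Nat.add_eq_zero_iff, one_ne_zero, and_false, not_false_eq_true, zero_pow,
      sub_zero]
    have h3 : (2 * (i:ℝ) + 1 + 1) = 2 * i + 2 := by ring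
    rw [h3]
    field_simp
    ring
  rw [e1, e2, Finset.mul_sum]
  refine Finset.sum_le_sum fun i hi => ?_
  have hi' : (i:ℝ) ≤ n := by exact_mod_cast Nat.lt_succ_iff.1 (Finset.mem_range.1 hi)
  have h1 : 0 < 2 * (i:ℝ) + 1 := by positivity
  have h2 : 0 < 2 * (i:ℝ) + 2 := by positivity
  have e4 : t ^ (2 * i + 1) / (2 * (i:ℝ) + 1) =
      (2 * i + 2) * (t ^ (2 * i + 1) / ((2 * i + 1) * (2 * i + 2))) := by
    field_simp
  rw [e4]
  exact mul_le_mul_of_nonneg_right (by linarith) (by positivity)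

lemma sW_pos (n : ℕ) {t : ℝ} (ht : 0 < t) : 0 < sW (wt n) t := by
  have h1 := sW_ge n ht
  have h2 : 0 < ∫ x in (0:ℝ)..t, wt n x := by
    refine intervalIntegral.intervalIntegral_pos_of_pos_on
      ((wt_cont n).intervalIntegrable _ _) (fun x _ => ?_) ht
    linarith [one_le_wt n x]
  have h3 : (0:ℝ) < 2 * n + 2 := by positivity
  by_contra hcon
  push Not at hcon
  have := mul_nonpos_of_nonneg_of_nonpos h3.le hcon
  linarith

/-! ### the odd part -/

/-- the general form of the estimate of a decaying part -/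
lemma WOrb.B_le' (hg : Rest g) (hm : Monotone g) {a : ℝ} (ha : 0 ≤ a)
    {k : ℝ → ℝ} (hkc : Continuous k) (hk1 : ∀ x, |k x| ≤ a * wt (m + 1) x)
    (hk2 : ∀ x, 1 ≤ |x| → |k x| ≤ a * (wt (m + 1) x / |x|))
    (o : WOrb g f (wt (m + 1))) : o.ρ * o.B k ≤ 50 * a * o.S := by
  have hwc := wt_cont (m + 1)
  have hρ := o.ρ_pos
  have hS0 : 0 ≤ o.S := integral_nonneg fun x => mul_nonneg (wt_nonneg _ x) (o.d_nonneg hg x)
  have haS : 0 ≤ a * o.S := mul_nonneg ha hS0
  rcases le_total o.ρ 2 with h2 | h2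
  · have h1 : o.B k ≤ a * o.S := by
      unfold WOrb.B WOrb.S
      rw [← integral_const_mul]
      refine integral_mono (o.integrable hg hkc.abs) ((o.integrable hg hwc).const_mul _) fun x => ?_
      have := mul_le_mul_of_nonneg_right (hk1 x) (o.d_nonneg hg x)
      simp only
      linarith
    have h3 : o.ρ * o.B k ≤ 2 * (a * o.S) :=
      mul_le_mul h2 h1 (o.B_nonneg hg k) (by norm_num)
    linarith
  · set R : ℝ := o.ρ / 2 with hR
    have hR1 : 1 ≤ R := by rw [hR]; linarith
    have hR0 : 0 < R := by linarith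
    have hwR := wt_nonneg (m + 1) R
    have hwR2 : 2 * R ≤ wt (m + 1) R := by
      have h3 := one_le_wt m R
      rw [wt_succ']
      nlinarith [sq_nonneg (R - 1), sq_nonneg R]
    have hinner : ∀ x, |x| ≤ R → |k x| ≤ a * (1 + wt (m + 1) R / R) := by
      intro x hx
      have hin := wt_inner m hx hR0
      rcases le_total |x| 1 with h | h
      · refine (hk1 x).trans (mul_le_mul_of_nonneg_left (hin.trans ?_) ha)
        have h1 : (x / R) ^ 2 * wt (m + 1) R ≤ (1 / R) * wt (m + 1) R := by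
          refine mul_le_mul_of_nonneg_right ?_ hwR
          rw [← sq_abs, abs_div, abs_of_pos hR0]
          have h2 : |x| / R ≤ 1 / R := div_le_div_of_nonneg_right h hR0.le
          have h3 : 1 / R ≤ 1 := by rw [div_le_one hR0]; exact hR1
          have h4 : 0 ≤ |x| / R := by positivity
          nlinarith
        have e : (1 / R) * wt (m + 1) R = wt (m + 1) R / R := by ring
        linarith
      · refine (hk2 x h).trans (mul_le_mul_of_nonneg_left ?_ ha)
        have hx0 : 0 < |x| := by linarith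
        rw [div_le_iff₀ hx0]
        refine hin.trans ?_
        have h1 : (x / R) ^ 2 * wt (m + 1) R ≤ wt (m + 1) R / R * |x| := by
          have e1 : (x / R) ^ 2 * wt (m + 1) R = (|x| / R) * (wt (m + 1) R / R * |x|) := by
            rw [← sq_abs, abs_div, abs_of_pos hR0]; ring
          rw [e1]
          have h2 : |x| / R ≤ 1 := by rw [div_le_one hR0]; exact hx
          have h3 : 0 ≤ wt (m + 1) R / R * |x| := by positivity
          exact mul_le_of_le_one_left h3 h2
        linarith
    set q : ℝ := 2 * a * (1 + wt (m + 1) R / R) with hq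
    have hq0 : 0 ≤ q := by positivity
    have hi1 : Integrable ((Icc (-R) R).indicator fun _ => q) := by
      rw [integrable_indicator_iff measurableSet_Icc]
      exact continuous_const.continuousOn.integrableOn_Icc
    have hi2 : Integrable fun x => a / R * (wt (m + 1) x * o.d x) :=
      (o.integrable hg hwc).const_mul _
    have h1 : o.B k ≤ ∫ x, ((Icc (-R) R).indicator (fun _ => q) x +
        a / R * (wt (m + 1) x * o.d x)) := by
      refine integral_mono (o.integrable hg hkc.abs) (hi1.add hi2) fun x => ?_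
      have hd0 := o.d_nonneg hg x
      have hd2 := o.d_le hg x
      have hsec : 0 ≤ a / R * (wt (m + 1) x * o.d x) := by
        have := wt_nonneg (m + 1) x
        positivity
      by_cases hx : |x| ≤ R
      · have hxm : x ∈ Icc (-R) R := abs_le.1 hx
        have h3 := hinner x hx
        simp only [indicator_of_mem hxm]
        have h4 : |k x| * o.d x ≤ a * (1 + wt (m + 1) R / R) * 2 :=
          mul_le_mul h3 hd2 hd0 (by positivity)
        linarith
      · push Not at hx
        have hx1 : 1 ≤ |x| := hR1.trans hx.le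
        have h3 := hk2 x hx1
        have h4 : wt (m + 1) x / |x| ≤ wt (m + 1) x / R :=
          div_le_div_of_nonneg_left (wt_nonneg _ _) hR0 hx.le
        have h5 := mul_le_mul_of_nonneg_left h4 ha
        have h6 : |k x| * o.d x ≤ a * (wt (m + 1) x / R) * o.d x :=
          mul_le_mul_of_nonneg_right (h3.trans h5) hd0
        have h7 : 0 ≤ (Icc (-R) R).indicator (fun _ => q) x := indicator_nonneg (fun _ _ => hq0) x
        have e : a * (wt (m + 1) x / R) * o.d x = a / R * (wt (m + 1) x * o.d x) := by ring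
        simp only
        linarith
    have h2' : ∫ x, ((Icc (-R) R).indicator (fun _ => q) x +
        a / R * (wt (m + 1) x * o.d x)) = 2 * R * q + a / R * o.S := by
      rw [integral_add hi1 hi2, integral_const_mul, integral_indicator measurableSet_Icc,
        integral_Icc_eq_integral_Ioc, ← intervalIntegral.integral_of_le (by linarith),
        intervalIntegral.integral_const, smul_eq_mul]
      unfold WOrb.S
      ring
    rw [h2'] at h1
    have h3 : 2 * R * q = 4 * a * (R + wt (m + 1) R) := by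
      rw [hq]; field_simp
      ring
    have h4 : R + wt (m + 1) R ≤ 3 / 2 * wt (m + 1) R := by linarith
    have h5 : 4 * a * (R + wt (m + 1) R) ≤ 4 * a * (3 / 2 * wt (m + 1) R) :=
      mul_le_mul_of_nonneg_left h4 (by positivity)
    have h6 := o.S_ρ hg hm
    rw [← hR] at h6
    have h7 : o.ρ * (4 * a * (3 / 2 * wt (m + 1) R)) ≤ 48 * a * o.S := by
      have := mul_le_mul_of_nonneg_left h6 (show 0 ≤ 48 * a by positivity)
      linarith
    have h8 : o.ρ * (a / R * o.S) = 2 * a * o.S := by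
      rw [hR]; field_simp
    have h9 : o.ρ * o.B k ≤ o.ρ * (4 * a * (3 / 2 * wt (m + 1) R) + a / R * o.S) :=
      mul_le_mul_of_nonneg_left (by linarith) hρ.le
    rw [mul_add, h8] at h9
    linarith

/-- the potential of the odd part -/
theorem odd_pot (hg : Rest g) (hm : Monotone g) (hf : Continuous f) {a : ℝ} (ha : 0 ≤ a)
    {k : ℝ → ℝ} (hkc : Continuous k) (hk1 : ∀ x, |k x| ≤ a * wt (m + 1) x)
    (hk2 : ∀ x, 1 ≤ |x| → |k x| ≤ a * (wt (m + 1) x / |x|))
    (hk3 : ∀ x, |x| ≤ 1 → |k x| ≤ a * (|x| * wt (m + 1) x)) :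
    ∃ θ : WOrb g f (wt (m + 1)) → ℝ,
      (∀ o o' : WOrb g f (wt (m + 1)), o.U 0 < o'.U 0 →
        |(∫ x, k x * o'.d x) / o'.S - (∫ x, k x * o.d x) / o.S| ≤ θ o' - θ o) ∧
      (∀ o o' : WOrb g f (wt (m + 1)), o.U 0 = o'.U 0 → θ o = θ o') ∧
      ∀ o o' : WOrb g f (wt (m + 1)), θ o' - θ o ≤ 903 * a * (m + 1) := by
  have hm0 : (0:ℝ) ≤ m := Nat.cast_nonneg m
  have hwc := wt_cont (m + 1)
  set β : ℝ := 1 / (2 * (m:ℝ) + 3) with hβ
  have hβ0 : 0 < β := by positivity
  have hβ1 : β ≤ 1 := by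
    rw [hβ, div_le_one (by positivity)]; linarith
  set D : ℝ := 4 * (m + 2) with hD
  have hD0 : 0 < D := by positivity
  have hpos : ∀ o : WOrb g f (wt (m + 1)), 0 < o.S := by
    intro o
    have := o.S_half hg hm
    have := o.loop.up.hl
    have := o.loop.up.hr
    linarith
  have htriv : ∀ o : WOrb g f (wt (m + 1)), o.B k ≤ a * o.S := by
    intro o
    unfold WOrb.B WOrb.S
    rw [← integral_const_mul]
    refine integral_mono (o.integrable hg hkc.abs) ((o.integrable hg hwc).const_mul _) fun x => ?_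
    have := mul_le_mul_of_nonneg_right (hk1 x) (o.d_nonneg hg x)
    simp only
    linarith
  have hρS : ∀ o : WOrb g f (wt (m + 1)), o.ρ ≤ 2 * o.S := by
    intro o
    have h1 := o.S_half hg hm
    have h2 := o.loop.up.hl
    have h3 := o.loop.up.hr
    unfold WOrb.ρ
    exact max_le (by linarith) (by linarith)
  have hsmall : ∀ o : WOrb g f (wt (m + 1)), o.S ≤ 1 / 2 → o.B k ≤ 2 * a * o.S ^ 2 := by
    intro o ho
    have hρ1 : o.ρ ≤ 1 := (hρS o).trans (by linarith)
    have h1 : o.B k ≤ a * o.ρ * o.S := by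
      unfold WOrb.B WOrb.S
      rw [← integral_const_mul]
      refine integral_mono (o.integrable hg hkc.abs) ((o.integrable hg hwc).const_mul _)
        fun x => ?_
      simp only
      by_cases hx : x ∈ Icc o.l o.r
      · have h2 := o.ρ_mem hx
        have h3 := hk3 x (h2.trans hρ1)
        have h4 : |x| * wt (m + 1) x ≤ o.ρ * wt (m + 1) x :=
          mul_le_mul_of_nonneg_right h2 (wt_nonneg _ _)
        have h5 := mul_le_mul_of_nonneg_left h4 ha
        have := mul_le_mul_of_nonneg_right (h3.trans h5) (o.d_nonneg hg x)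
        linarith
      · have : o.d x = 0 := dens_zero hx
        simp [this]
    have h2 : a * o.ρ * o.S ≤ a * (2 * o.S) * o.S :=
      mul_le_mul_of_nonneg_right (mul_le_mul_of_nonneg_left (hρS o) ha) (hpos o).le
    calc o.B k ≤ a * (2 * o.S) * o.S := h1.trans h2
      _ = 2 * a * o.S ^ 2 := by ring
  have hall : ∀ o : WOrb g f (wt (m + 1)), o.B k ≤ 50 * a * D ^ β * o.S ^ (1 - β) := by
    intro o
    have hS0 := hpos o
    have e1 : o.S ^ (1 - β) = o.S * (o.S ^ β)⁻¹ := by
      rw [sub_eq_add_neg, Real.rpow_add hS0, Real.rpow_one, Real.rpow_neg hS0.le]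
    have hSβ : 0 < o.S ^ β := Real.rpow_pos_of_pos hS0 _
    have hDβ : 0 < D ^ β := Real.rpow_pos_of_pos hD0 _
    rcases le_total 1 o.ρ with h1 | h1
    · have hB := o.B_le' hg hm ha hkc hk1 hk2
      have hge := o.ρ_ge hg h1 hS0
      rw [← hD, ← hβ] at hge
      have hBn : 0 ≤ o.B k := o.B_nonneg hg _
      have hpos' : 0 < (o.S / D) ^ β := Real.rpow_pos_of_pos (by positivity) _
      have h6 : (o.S / D) ^ β * o.B k ≤ 50 * a * o.S :=
        (mul_le_mul_of_nonneg_right hge hBn).trans hB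
      have h7 : o.B k ≤ 50 * a * o.S / (o.S / D) ^ β := by
        rw [le_div_iff₀ hpos']; linarith
      refine h7.trans (le_of_eq ?_)
      rw [Real.div_rpow hS0.le hD0.le, e1]
      have := hSβ.ne'
      have := hDβ.ne'
      field_simp
    · have h2 : o.S ≤ D := by
        have h3 := o.S_le hg
        have h4 : wt (m + 1) o.ρ ≤ m + 2 := by
          have := wt_le_of_le_one (m + 1) (x := o.ρ) (by rw [abs_of_pos o.ρ_pos]; exact h1)
          push_cast at this
          linarith
        have h5 : o.ρ * wt (m + 1) o.ρ ≤ 1 * (m + 2) :=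
          mul_le_mul h1 h4 (wt_nonneg _ _) zero_le_one
        rw [hD]
        linarith
      have h3 : o.S ^ β ≤ D ^ β := Real.rpow_le_rpow hS0.le h2 hβ0.le
      have h4 : 1 ≤ D ^ β * (o.S ^ β)⁻¹ := by
        rw [← div_eq_mul_inv, le_div_iff₀ hSβ, one_mul]; exact h3
      have h5 : a * o.S * 1 ≤ a * o.S * (D ^ β * (o.S ^ β)⁻¹) :=
        mul_le_mul_of_nonneg_left h4 (mul_nonneg ha hS0.le)
      have h6 : 0 ≤ a * o.S * (D ^ β * (o.S ^ β)⁻¹) := by positivity
      rw [e1]
      have := htriv o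
      have e2 : 50 * a * D ^ β * (o.S * (o.S ^ β)⁻¹) =
          50 * (a * o.S * (D ^ β * (o.S ^ β)⁻¹)) := by ring
      rw [e2]
      linarith
  obtain ⟨θ, t1, t2, t3⟩ := power_pot hg (wt_Wt (m + 1)) hf (β := β) (c1 := 2 * a)
    (c2 := 50 * a * D ^ β) (s0 := 1 / 2) (c3 := a) hβ0 hβ1 (by positivity)
    (mul_nonneg (by positivity) (Real.rpow_nonneg hD0.le _)) (by norm_num) hkc hpos hsmall hall
    htriv
  refine ⟨θ, t1, t2, fun o o' => (t3 o o').trans ?_⟩
  have e1 : D ^ β * (1 / 2) ^ (-β) = (2 * D) ^ β := by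
    rw [one_div, Real.inv_rpow (by norm_num), Real.rpow_neg (by norm_num), inv_inv,
      Real.mul_rpow (by norm_num) hD0.le]
    ring
  have e2 : (2 * D) ^ β ≤ 3 := by
    have h4 : 2 * D ≤ 3 ^ (2 * m + 3) := by
      rw [hD]
      have := three_pow m
      linarith
    have h5 : (2 * D) ^ β ≤ ((3:ℝ) ^ (2 * m + 3)) ^ β := Real.rpow_le_rpow (by positivity) h4 hβ0.le
    refine h5.trans (le_of_eq ?_)
    rw [← Real.rpow_natCast, ← Real.rpow_mul (by norm_num)]
    have : ((2 * m + 3 : ℕ) : ℝ) * β = 1 := by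
      rw [hβ]
      push_cast
      field_simp
    rw [this, Real.rpow_one]
  have e3 : a + 2 * (2 * a * (1 / 2) + 50 * a * D ^ β / β * (1 / 2) ^ (-β)) =
      3 * a + 100 * a * ((2 * D) ^ β * (2 * m + 3)) := by
    rw [← e1, hβ]
    field_simp
    ring
  rw [e3]
  have h5 : (2 * D) ^ β * (2 * m + 3) ≤ 3 * (2 * m + 3) :=
    mul_le_mul_of_nonneg_right e2 (by linarith)
  have h6 := mul_le_mul_of_nonneg_left h5 (show 0 ≤ 100 * a by positivity)
  have h7 : 0 ≤ a * m := mul_nonneg ha hm0
  linarith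

/-! ### polynomials -/

/-- the odd part of a polynomial -/
noncomputable def od (p : ℝ[X]) (m : ℕ) (x : ℝ) : ℝ :=
  x * ∑ i ∈ Finset.range (m + 1), p.coeff (2 * i + 1) * (x ^ 2) ^ i

lemma split_eval (hd : p.natDegree ≤ 2 * (m + 1)) (x : ℝ) :
    p.eval x = ev (fun i => p.coeff (2 * i)) (m + 1) x + od p m x := by
  have key : ∀ m : ℕ, ∑ j ∈ Finset.range (2 * m + 2 + 1), p.coeff j * x ^ j =
      ev (fun i => p.coeff (2 * i)) (m + 1) x + od p m x := by
    intro m
    induction m with
    | zero =>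
      simp [ev, od, Finset.sum_range_succ]
      ring
    | succ m ih =>
      rw [show 2 * (m + 1) + 2 + 1 = (2 * m + 2 + 1) + 1 + 1 by ring, Finset.sum_range_succ,
        Finset.sum_range_succ, ih]
      have e1 : ev (fun i => p.coeff (2 * i)) (m + 1 + 1) x =
          ev (fun i => p.coeff (2 * i)) (m + 1) x +
            p.coeff (2 * (m + 2)) * x ^ (2 * (m + 2)) := by
        unfold ev
        rw [Finset.sum_range_succ]
      have e2 : od p (m + 1) x = od p m x + p.coeff (2 * (m + 1) + 1) * x ^ (2 * (m + 1) + 1) := by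
        have h2 : x ^ (2 * (m + 1) + 1) = (x ^ 2) ^ (m + 1) * x := by rw [pow_succ, pow_mul]
        unfold od
        rw [Finset.sum_range_succ, h2]
        ring
      have e4 : 2 * m + 2 + 1 + 1 = 2 * (m + 2) := by ring
      have e5 : 2 * m + 2 + 1 = 2 * (m + 1) + 1 := by ring
      rw [e1, e2, e4, e5]
      ring
  rw [eval_eq_sum_range' (n := 2 * m + 2 + 1) (by omega), key]

lemma od_cont (p : ℝ[X]) (m : ℕ) : Continuous (od p m) := by
  unfold od
  fun_prop

lemma od_abs (hp : ∀ i, |p.coeff (2 * i + 1)| ≤ B) (x : ℝ) :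
    |od p m x| ≤ B * (|x| * wt m x) := by
  unfold od wt
  rw [abs_mul]
  have h1 : |∑ i ∈ Finset.range (m + 1), p.coeff (2 * i + 1) * (x ^ 2) ^ i| ≤
      B * ∑ i ∈ Finset.range (m + 1), (x ^ 2) ^ i := by
    rw [Finset.mul_sum]
    refine (Finset.abs_sum_le_sum_abs _ _).trans (Finset.sum_le_sum fun i _ => ?_)
    rw [abs_mul, abs_of_nonneg (show 0 ≤ (x ^ 2) ^ i by positivity)]
    exact mul_le_mul_of_nonneg_right (hp i) (by positivity)
  have := mul_le_mul_of_nonneg_left h1 (abs_nonneg x)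
  linarith

lemma abs_wt_le (m : ℕ) (x : ℝ) : |x| * wt m x ≤ wt (m + 1) x := by
  have hv := wt_nonneg m x
  have h3 : |x| ≤ (1 + x ^ 2) / 2 := by
    rw [← sq_abs]
    nlinarith [sq_nonneg (|x| - 1)]
  have h4 : |x| * wt m x ≤ (1 + x ^ 2) / 2 * wt m x := mul_le_mul_of_nonneg_right h3 hv
  have e2 : wt (m + 1) x = 1 + x ^ 2 * wt m x := wt_succ' m x
  have h5 := wt_le_succ m x
  linarith

/-- **All closed orbits in the whole plane.** -/
theorem plane (hg : Rest g) (hm : Monotone g) (hd : p.natDegree ≤ 2 * (m + 1))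
    (hA : ∀ i, |p.coeff (2 * i)| ≤ A) (hB : ∀ i, |p.coeff (2 * i + 1)| ≤ B) :
    ∃ N : ℝ → ℝ≥0∞, Measurable N ∧
      (∀ μ, (((orbitsW g (fun x => p.eval x) (wt (m + 1)) μ).encard : ℕ∞) : ℝ≥0∞) ≤ N μ) ∧
      ∫⁻ μ, N μ ≤ ENNReal.ofReal (2 * A * Real.log (m + 2) * (2 + Real.log (8 * (m + 2))) +
        903 * B * (m + 1)) := by
  have hA0 : 0 ≤ A := (abs_nonneg _).trans (hA 0)
  have hB0 : 0 ≤ B := (abs_nonneg _).trans (hB 0)
  have hm0 : (0:ℝ) ≤ m := Nat.cast_nonneg m
  have hQ : (1:ℝ) ≤ 8 * (m + 2) := by linarith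
  obtain ⟨θ, t1, t2, t3⟩ := odd_pot (g := g) (f := fun x => p.eval x) (m := m) hg hm p.continuous
    hB0 (od_cont p m)
    (fun x => (od_abs hB x).trans (mul_le_mul_of_nonneg_left (abs_wt_le m x) hB0))
    (fun x hx => (od_abs hB x).trans (mul_le_mul_of_nonneg_left (by
      have hx0 : 0 < |x| := by linarith
      rw [le_div_iff₀ hx0, wt_succ', ← sq_abs]
      linarith) hB0))
    (fun x _ => (od_abs hB x).trans (mul_le_mul_of_nonneg_left
      (mul_le_mul_of_nonneg_left (wt_le_succ m x) (abs_nonneg x)) hB0))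
  obtain ⟨i1, i2⟩ := half_line (quo'_cont (fun i => p.coeff (2 * i)) (m + 1))
    (K := 4 * A * Real.log (((m + 1 : ℕ) : ℝ) + 1)) (fun R hR => quo_var hA hR)
  obtain ⟨N, h1, h2, h3⟩ := even_bound (f := fun x => p.eval x) (φ := quo (fun i => p.coeff (2 * i)) (m + 1))
    (φ' := quo' (fun i => p.coeff (2 * i)) (m + 1)) (h := od p m) (Q := 8 * (m + 2))
    (J := Ioi 0) hg hm (wt_Wt (m + 1)) (wt_neg (m + 1)) (fun t ht => sW_pos (m + 1) ht) hQ
    (fun t ht => by
      have := sW_ge (m + 1) ht
      push_cast at this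
      linarith) p.continuous
    (quo_hasDerivAt _ _) (quo'_cont _ _) (od_cont p m) (fun x => by
      have e1 : quo (fun i => p.coeff (2 * i)) (m + 1) |x| * wt (m + 1) x =
          ev (fun i => p.coeff (2 * i)) (m + 1) x := by
        unfold quo
        rw [← wt_eq_ev, wt_abs]
        have h4 : wt (m + 1) x ≠ 0 := by linarith [one_le_wt (m + 1) x]
        rw [div_mul_cancel₀ _ h4]
        unfold ev
        refine Finset.sum_congr rfl fun i _ => ?_
        rw [pow_mul, sq_abs, ← pow_mul]
      rw [split_eval hd, e1]) measurableSet_Ioi subset_rfl i1 (fun _ => True)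
    (fun o _ => ⟨by
      have := o.S_half hg hm
      have := o.loop.up.hl
      have := o.loop.up.hr
      linarith, Ioc_subset_Ioi_self⟩) (K := 903 * B * (m + 1)) θ
    (fun o o' _ _ h => t1 o o' h) t2 (fun o o' _ _ => t3 o o')
  refine ⟨N, h1, fun μ => ?_, h3.trans (ENNReal.ofReal_le_ofReal ?_)⟩
  · have := h2 μ
    simpa using this
  · have h4 : (0:ℝ) ≤ 1 + 1 / 2 * Real.log (8 * (m + 2)) := by
      have := Real.log_nonneg hQ
      linarith
    have h5 := mul_le_mul_of_nonneg_left i2 h4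
    have e1 : (((m + 1 : ℕ) : ℝ) + 1) = m + 2 := by push_cast; ring
    rw [e1] at h5
    have e2 : (1 + 1 / 2 * Real.log (8 * (m + 2))) * (4 * A * Real.log (m + 2)) =
        2 * A * Real.log (m + 2) * (2 + Real.log (8 * (m + 2))) := by ring
    linarith

/-- closed orbits exist only for small parameters -/
theorem plane_param (hg : Rest g) (hd : p.natDegree ≤ 2 * (m + 1))
    (hA : ∀ i, |p.coeff (2 * i)| ≤ A) (hB : ∀ i, |p.coeff (2 * i + 1)| ≤ B) {μ : ℝ}
    (hne : (orbitsW g (fun x => p.eval x) (wt (m + 1)) μ).Nonempty) : |μ| ≤ A + B := by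
  have hA0 : 0 ≤ A := (abs_nonneg _).trans (hA 0)
  have hB0 : 0 ≤ B := (abs_nonneg _).trans (hB 0)
  obtain ⟨C, hC⟩ := hne
  obtain ⟨o, ho, -⟩ := exists_worb hg (wt_Wt (m + 1)) p.continuous hC
  have hwc := wt_cont (m + 1)
  have hpc := p.continuous
  have hz := o.loop.integral_zero hg (o.cont_h (wt_Wt (m + 1)) p.continuous)
  rw [ho] at hz
  change ∫ x, (p.eval x + μ * wt (m + 1) x) * o.d x = 0 at hz
  have hbd : ∀ x, |p.eval x| ≤ (A + B) * wt (m + 1) x := by
    intro x
    rw [split_eval hd]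
    have h1 := ev_abs (n := m + 1) hA x
    rw [← wt_eq_ev] at h1
    have h2 := (od_abs (m := m) hB x).trans (mul_le_mul_of_nonneg_left (abs_wt_le m x) hB0)
    refine (abs_add_le _ _).trans ?_
    linarith
  -- positivity of the integral of d
  have hS : 0 < ∫ x, 1 * o.d x := by
    have hl := o.loop.up.hl
    have hr := o.loop.up.hr
    have hpc := hg.pot_cont
    have hpr := hg.pot_pos hr.ne'
    have hpl := hg.pot_pos hl.ne
    have h := o.int_ge hg (k := fun _ => 1) continuous_const fun _ => zero_le_one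
    have h1 : 0 ≤ ∫ x in o.l..0, (1:ℝ) * (1 - pot g x / pot g o.l) := by
      refine intervalIntegral.integral_nonneg hl.le fun x hx => ?_
      rw [one_mul, sub_nonneg, div_le_one hpl]
      exact hg.strictAntiOn.antitoneOn (mem_Iic.2 hl.le) (mem_Iic.2 hx.2) hx.1
    have h2 : 0 < ∫ x in (0:ℝ)..o.r, (1:ℝ) * (1 - pot g x / pot g o.r) := by
      refine intervalIntegral.intervalIntegral_pos_of_pos_on
        (Continuous.intervalIntegrable (by fun_prop) _ _) (fun x hx => ?_) hr
      rw [one_mul, sub_pos, div_lt_one hpr]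
      exact hg.strictMonoOn (mem_Ici.2 hx.1.le) (mem_Ici.2 hr.le) hx.2
    linarith
  by_contra hcon
  push Not at hcon
  set ε : ℝ := |μ| - (A + B) with hε
  have hε0 : 0 < ε := by linarith
  have key : ∀ s : ℝ, |s| = 1 → s * μ = |μ| → False := by
    intro s hs1 hs2
    have h1 : ε * ∫ x, 1 * o.d x ≤ ∫ x, (s * (p.eval x + μ * wt (m + 1) x)) * o.d x := by
      rw [← integral_const_mul]
      refine integral_mono ((o.integrable hg continuous_const).const_mul _)
        (o.integrable hg (k := fun x => s * (p.eval x + μ * wt (m + 1) x)) (by fun_prop))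
        fun x => ?_
      have h2 := hbd x
      have h3 := one_le_wt (m + 1) x
      have h4 : -|p.eval x| ≤ s * p.eval x := by
        have := neg_abs_le (s * p.eval x)
        rwa [abs_mul, hs1, one_mul] at this
      have h5 : ε * 1 ≤ ε * wt (m + 1) x := mul_le_mul_of_nonneg_left h3 hε0.le
      have h6 : ε ≤ s * (p.eval x + μ * wt (m + 1) x) := by
        have e : s * (p.eval x + μ * wt (m + 1) x) = s * p.eval x + |μ| * wt (m + 1) x := by
          rw [← hs2]; ring
        have e2 : ε * wt (m + 1) x = |μ| * wt (m + 1) x - (A + B) * wt (m + 1) x := by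
          rw [hε]; ring
        rw [e]
        linarith
      have := mul_le_mul_of_nonneg_right h6 (o.d_nonneg hg x)
      simp only
      linarith
    have h7 : ∫ x, (s * (p.eval x + μ * wt (m + 1) x)) * o.d x = 0 := by
      have : (fun x => (s * (p.eval x + μ * wt (m + 1) x)) * o.d x) =
          fun x => s * ((p.eval x + μ * wt (m + 1) x) * o.d x) := by
        funext x; ring
      rw [this, integral_const_mul, hz, mul_zero]
    have := mul_pos hε0 hS
    linarith
  rcases le_total 0 μ with h | h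
  · exact key 1 abs_one (by rw [abs_of_nonneg h, one_mul])
  · exact key (-1) (by simp) (by rw [abs_of_nonpos h]; ring)

end Pool.Agent.K9h2.LW
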