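import Pool.Agent.K9h2.LW.Even
import Pool.Agent.K9h2.LW.Weight

/-! The potential of an odd part which decays at both ends. -/

open Set Filter Topology MeasureTheory
open scoped ENNReal

namespace Pool.Agent.K9h2.LW

open Pool.Agent.K9h2.LI

variable {g f w : ℝ → ℝ}

lemma WOrb.ratio_step {o1 o2 : WOrb g f w} (hg : Rest g) (hw : Wt w) (hf : Continuous f)
    (h : o1.U 0 < o2.U 0) (hS : 0 < o1.S) {k : ℝ → ℝ} (hkc : Continuous k) :
    |(∫ x, k x * o2.d x) / o2.S - (∫ x, k x * o1.d x) / o1.S| ≤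
      (o2.B k - o1.B k) / o2.S + o1.B k * (1 / o1.S - 1 / o2.S) := by
  have hS12 := WOrb.S_mono hg hw hf h
  have hS2 : 0 < o2.S := hS.trans_le hS12
  set H1 := ∫ x, k x * o1.d x with hH1
  set H2 := ∫ x, k x * o2.d x with hH2
  have a1 : |H1| ≤ o1.B k := by
    refine (abs_integral_le_integral_abs).trans (le_of_eq ?_)
    unfold WOrb.B
    congr 1
    funext x
    rw [abs_mul, abs_of_nonneg (o1.d_nonneg hg x)]
  have a2 : |H2 - H1| ≤ o2.B k - o1.B k := by
    have i1 := o1.integrable hg hkc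
    have i2 := o2.integrable hg hkc
    have j1 := o1.integrable hg hkc.abs
    have j2 := o2.integrable hg hkc.abs
    rw [hH1, hH2, ← integral_sub i2 i1]
    unfold WOrb.B
    rw [← integral_sub j2 j1]
    refine (abs_integral_le_integral_abs).trans (integral_mono (i2.sub i1).abs (j2.sub j1) ?_)
    intro x
    simp only
    rw [← mul_sub, abs_mul, ← mul_sub, abs_of_nonneg (sub_nonneg.2 (WOrb.d_mono hg hw hf h x))]
  have e1 : H2 / o2.S - H1 / o1.S = (H2 - H1) / o2.S - H1 * (1 / o1.S - 1 / o2.S) := by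
    field_simp
    ring
  have hinv : 0 ≤ 1 / o1.S - 1 / o2.S := by
    rw [sub_nonneg]
    exact one_div_le_one_div_of_le hS hS12
  rw [e1]
  refine (abs_sub _ _).trans (add_le_add ?_ ?_)
  · rw [abs_div, abs_of_pos hS2]
    exact div_le_div_of_nonneg_right a2 hS2.le
  · rw [abs_mul, abs_of_nonneg hinv]
    exact mul_le_mul_of_nonneg_right a1 hinv

/-- the potential of a part with `B ≤ c1 S²` for small and `B ≤ c2 S^(1-β)` for all orbits -/
theorem power_pot (hg : Rest g) (hw : Wt w) (hf : Continuous f) {β c1 c2 s0 : ℝ}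
    (hβ : 0 < β) (hβ1 : β ≤ 1) (hc1 : 0 ≤ c1) (hc2 : 0 ≤ c2) (hs0 : 0 < s0)
    {k : ℝ → ℝ} (hkc : Continuous k)
    (hpos : ∀ o : WOrb g f w, 0 < o.S)
    (hsmall : ∀ o : WOrb g f w, o.S ≤ s0 → o.B k ≤ c1 * o.S ^ 2)
    (hall : ∀ o : WOrb g f w, o.B k ≤ c2 * o.S ^ (1 - β)) {c3 : ℝ}
    (htriv : ∀ o : WOrb g f w, o.B k ≤ c3 * o.S) :
    ∃ θ : WOrb g f w → ℝ,
      (∀ o o' : WOrb g f w, o.U 0 < o'.U 0 →
        |(∫ x, k x * o'.d x) / o'.S - (∫ x, k x * o.d x) / o.S| ≤ θ o' - θ o) ∧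
      (∀ o o' : WOrb g f w, o.U 0 = o'.U 0 → θ o = θ o') ∧
      ∀ o o' : WOrb g f w, θ o' - θ o ≤ c3 + 2 * (c1 * s0 + c2 / β * s0 ^ (-β)) := by
  set Ψ : ℝ → ℝ := fun S => c1 * min S s0 - c2 / β * (max S s0) ^ (-β) with hΨ
  have key : ∀ o o' : WOrb g f w, o.U 0 < o'.U 0 →
      o.B k * (1 / o.S - 1 / o'.S) ≤ Ψ o'.S - Ψ o.S := by
    intro o o' hlt
    have hS := hpos o
    have hS' := hpos o'
    have hSS := WOrb.S_mono hg hw hf hlt
    have hB0 := o.B_nonneg hg k
    -- the two regimes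
    have reg1 : ∀ b : ℝ, o.S ≤ s0 → o.S ≤ b → b ≤ s0 →
        o.B k * (1 / o.S - 1 / b) ≤ c1 * (b - o.S) := by
      intro b h1 h2 h3
      have hb : 0 < b := hS.trans_le h2
      have hinv : 0 ≤ 1 / o.S - 1 / b := sub_nonneg.2 (one_div_le_one_div_of_le hS h2)
      refine (mul_le_mul_of_nonneg_right (hsmall o h1) hinv).trans ?_
      have e : c1 * o.S ^ 2 * (1 / o.S - 1 / b) = c1 * ((b - o.S) * (o.S / b)) := by
        field_simp
      rw [e]
      refine mul_le_mul_of_nonneg_left ?_ hc1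
      exact mul_le_of_le_one_right (by linarith) (by rw [div_le_one hb]; exact h2)
    have reg2 : ∀ a b : ℝ, o.S ≤ a → a ≤ b →
        o.B k * (1 / a - 1 / b) ≤ c2 / β * (a ^ (-β) - b ^ (-β)) := by
      intro a b h1 h2
      have ha : 0 < a := hS.trans_le h1
      have hinv : 0 ≤ 1 / a - 1 / b := sub_nonneg.2 (one_div_le_one_div_of_le ha h2)
      have h3 : o.B k ≤ c2 * a ^ (1 - β) := (hall o).trans
        (mul_le_mul_of_nonneg_left (Real.rpow_le_rpow hS.le h1 (by linarith)) hc2)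
      refine (mul_le_mul_of_nonneg_right h3 hinv).trans ?_
      have := mul_le_mul_of_nonneg_left (rpow_step ha h2 hβ hβ1) hc2
      have e : c2 * (1 / β * (a ^ (-β) - b ^ (-β))) = c2 / β * (a ^ (-β) - b ^ (-β)) := by ring
      linarith
    simp only [hΨ]
    rcases le_total s0 o.S with h1 | h1
    · rw [min_eq_right h1, min_eq_right (h1.trans hSS), max_eq_left h1,
        max_eq_left (h1.trans hSS)]
      have := reg2 o.S o'.S le_rfl hSS
      linarith
    · rw [min_eq_left h1, max_eq_right h1]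
      rcases le_total o'.S s0 with h2 | h2
      · rw [min_eq_left h2, max_eq_right h2]
        have := reg1 o'.S h1 hSS h2
        linarith
      · rw [min_eq_right h2, max_eq_left h2]
        have a1 := reg1 s0 h1 h1 le_rfl
        have a2 := reg2 s0 o'.S h1 h2
        have e : o.B k * (1 / o.S - 1 / o'.S) =
            o.B k * (1 / o.S - 1 / s0) + o.B k * (1 / s0 - 1 / o'.S) := by ring
        linarith
  have hΨb : ∀ a b : ℝ, 0 < a → Ψ b - Ψ a ≤ c1 * s0 + c2 / β * s0 ^ (-β) := by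
    intro a b ha
    have h1 : c1 * min b s0 ≤ c1 * s0 := mul_le_mul_of_nonneg_left (min_le_right _ _) hc1
    have h2 : 0 ≤ c1 * min a s0 := mul_nonneg hc1 (le_min ha.le hs0.le)
    have h3 : 0 ≤ c2 / β := by positivity
    have h4 : 0 ≤ c2 / β * (max b s0) ^ (-β) :=
      mul_nonneg h3 (Real.rpow_nonneg (hs0.le.trans (le_max_right _ _)) _)
    have h5 : c2 / β * (max a s0) ^ (-β) ≤ c2 / β * s0 ^ (-β) :=
      mul_le_mul_of_nonneg_left (Real.rpow_le_rpow_of_nonpos hs0 (le_max_right _ _)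
        (by linarith)) h3
    simp only [hΨ]
    linarith
  refine ⟨fun o => o.B k / o.S + 2 * Ψ o.S, ?_, ?_, ?_⟩
  · intro o o' hlt
    have h1 := WOrb.ratio_step hg hw hf hlt (hpos o) hkc
    have h2 := key o o' hlt
    have hS := hpos o
    have hS' := hpos o'
    have e1 : (o'.B k - o.B k) / o'.S + o.B k * (1 / o.S - 1 / o'.S) =
        o'.B k / o'.S - o.B k / o.S + 2 * (o.B k * (1 / o.S - 1 / o'.S)) := by
      field_simp
      ring
    rw [e1] at h1
    simp only
    linarith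
  · intro o o' h
    have hd := WOrb.d_eq hg hw hf h
    simp only
    rw [WOrb.S_eq hd, WOrb.B_eq hd k]
  · intro o o'
    have hS := hpos o
    have hS' := hpos o'
    have h1 : o'.B k / o'.S ≤ c3 := by
      rw [div_le_iff₀ hS']; exact htriv o'
    have h2 : 0 ≤ o.B k / o.S := div_nonneg (o.B_nonneg hg k) hS.le
    have h3 := hΨb o.S o'.S hS
    simp only
    linarith

end Pool.Agent.K9h2.LW
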