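import Pool.Agent.K9h2.LW.Meas
import Pool.Agent.K9h2.LI.Var
import Pool.Agent.K9h2.LI.Indi
import Pool.Agent.K9h2.LI.Main

/-! The parameter along the closed orbits of a rotated family with a weight. -/

open Set Filter Topology MeasureTheory
open scoped ENNReal

namespace Pool.Agent.K9h2.LW

open Pool.Agent.K9h2.LI

/-- a nonnegative weight which does not vanish at the origin -/
structure Wt (w : ℝ → ℝ) : Prop where
  cont : Continuous w
  nn : ∀ x, 0 ≤ w x
  pos : 0 < w 0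

/-- a closed orbit with its parameter -/
structure WOrb (g f w : ℝ → ℝ) where
  μ : ℝ
  l : ℝ
  r : ℝ
  U : ℝ → ℝ
  L : ℝ → ℝ
  loop : Lp g (fun x => f x + μ * w x) l r U L

variable {g f w : ℝ → ℝ}

/-- the density of the measure of the orbit -/
noncomputable def WOrb.d (o : WOrb g f w) : ℝ → ℝ := dens g o.l o.r o.U o.L

/-- the weighted size -/
noncomputable def WOrb.S (o : WOrb g f w) : ℝ := ∫ x, w x * o.d x

/-- the size of a function on the orbit -/
noncomputable def WOrb.B (o : WOrb g f w) (k : ℝ → ℝ) : ℝ := ∫ x, |k x| * o.d x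

lemma WOrb.cont_h (hw : Wt w) (hf : Continuous f) (o : WOrb g f w) :
    Continuous fun x => f x + o.μ * w x := by
  have := hw.cont
  fun_prop

lemma WOrb.cmp (hw : Wt w) (o1 o2 : WOrb g f w) :
    (∀ x, f x + o1.μ * w x ≤ f x + o2.μ * w x) ∨ ∀ x, f x + o2.μ * w x ≤ f x + o1.μ * w x := by
  rcases le_total o1.μ o2.μ with h | h
  · left; intro x
    have := mul_le_mul_of_nonneg_right h (hw.nn x)
    linarith
  · right; intro x
    have := mul_le_mul_of_nonneg_right h (hw.nn x)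
    linarith

lemma WOrb.inside {o1 o2 : WOrb g f w} (hg : Rest g) (hw : Wt w) (hf : Continuous f)
    (h : o1.U 0 < o2.U 0) : Inside o1.l o1.r o1.U o1.L o2.l o2.r o2.U o2.L :=
  Lp.nest hg o1.loop o2.loop (o1.cont_h hw hf) (o2.cont_h hw hf) (WOrb.cmp hw o1 o2)
    (max_lt o1.loop.up.hl o2.loop.up.hl) (lt_min o1.loop.up.hr o2.loop.up.hr) h

lemma WOrb.eq_of {o1 o2 : WOrb g f w} (hg : Rest g) (hw : Wt w) (hf : Continuous f)
    (h : o1.U 0 = o2.U 0) : o1.l = o2.l ∧ o1.r = o2.r ∧ (∀ x ∈ Icc o1.l o1.r, o1.U x = o2.U x) ∧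
      ∀ x ∈ Icc o1.l o1.r, o1.L x = o2.L x :=
  Lp.eq_of hg o1.loop o2.loop (o1.cont_h hw hf) (o2.cont_h hw hf) (WOrb.cmp hw o1 o2) h

lemma WOrb.eq_param {o1 o2 : WOrb g f w} (hg : Rest g) (hw : Wt w) (hf : Continuous f)
    (h : o1.U 0 = o2.U 0) : o1.μ = o2.μ := by
  have key : ∀ {o1 o2 : WOrb g f w}, o1.U 0 = o2.U 0 → ¬ o1.μ < o2.μ := by
    intro o1 o2 h hlt
    refine Lp.not_eq hg o1.loop o2.loop (o1.cont_h hw hf) (o2.cont_h hw hf) (fun x => ?_) ?_ h
    · have := mul_le_mul_of_nonneg_right hlt.le (hw.nn x)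
      linarith
    · have := mul_lt_mul_of_pos_right hlt hw.pos
      linarith
  rcases lt_trichotomy o1.μ o2.μ with h' | h' | h'
  · exact absurd h' (key h)
  · exact h'
  · exact absurd h' (key h.symm)

lemma WOrb.d_eq {o1 o2 : WOrb g f w} (hg : Rest g) (hw : Wt w) (hf : Continuous f)
    (h : o1.U 0 = o2.U 0) : o1.d = o2.d := by
  obtain ⟨e1, e2, e3, e4⟩ := WOrb.eq_of hg hw hf h
  unfold WOrb.d dens
  rw [← e1, ← e2]
  funext x
  by_cases hx : x ∈ Icc o1.l o1.r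
  · rw [indicator_of_mem hx, indicator_of_mem hx, e3 x hx, e4 x hx]
  · rw [indicator_of_notMem hx, indicator_of_notMem hx]

lemma WOrb.d_mono {o1 o2 : WOrb g f w} (hg : Rest g) (hw : Wt w) (hf : Continuous f)
    (h : o1.U 0 < o2.U 0) (x : ℝ) : o1.d x ≤ o2.d x :=
  dens_mono hg (WOrb.inside hg hw hf h) o1.loop o2.loop x

lemma WOrb.d_nonneg (hg : Rest g) (o : WOrb g f w) (x : ℝ) : 0 ≤ o.d x :=
  o.loop.dens_nonneg hg x

lemma WOrb.d_le (hg : Rest g) (o : WOrb g f w) (x : ℝ) : o.d x ≤ 2 :=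
  dens_le_two hg _ _ _ _ x

lemma WOrb.integrable (hg : Rest g) (o : WOrb g f w) {k : ℝ → ℝ} (hk : Continuous k) :
    Integrable fun x => k x * o.d x := o.loop.integrable hg hk

lemma WOrb.S_mono {o1 o2 : WOrb g f w} (hg : Rest g) (hw : Wt w) (hf : Continuous f)
    (h : o1.U 0 < o2.U 0) : o1.S ≤ o2.S :=
  integral_mono (o1.integrable hg hw.cont) (o2.integrable hg hw.cont) fun x =>
    mul_le_mul_of_nonneg_left (WOrb.d_mono hg hw hf h x) (hw.nn x)

lemma WOrb.B_mono {o1 o2 : WOrb g f w} (hg : Rest g) (hw : Wt w) (hf : Continuous f)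
    (h : o1.U 0 < o2.U 0) {k : ℝ → ℝ} (hk : Continuous k) : o1.B k ≤ o2.B k :=
  integral_mono (o1.integrable hg hk.abs) (o2.integrable hg hk.abs) fun x =>
    mul_le_mul_of_nonneg_left (WOrb.d_mono hg hw hf h x) (abs_nonneg _)

lemma WOrb.B_nonneg (hg : Rest g) (o : WOrb g f w) (k : ℝ → ℝ) : 0 ≤ o.B k :=
  integral_nonneg fun x => mul_nonneg (abs_nonneg _) (o.d_nonneg hg x)

/-- the basic relation -/
lemma WOrb.rel (hg : Rest g) (hw : Wt w) (hf : Continuous f) (o : WOrb g f w) (c : ℝ) :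
    (∫ x, (f x - c * w x) * o.d x) + (o.μ + c) * o.S = 0 := by
  have hc := hw.cont
  have h := o.loop.integral_zero hg (o.cont_h hw hf)
  unfold WOrb.S
  rw [← integral_const_mul, ← integral_add (o.integrable hg (by fun_prop))
    ((o.integrable hg hc).const_mul _)]
  refine Eq.trans ?_ h
  congr 1
  funext x
  unfold WOrb.d
  ring

/-- **The step inequality.** -/
lemma WOrb.step {o1 o2 : WOrb g f w} (hg : Rest g) (hw : Wt w) (hf : Continuous f)
    (h : o1.U 0 < o2.U 0) (hS : 0 < o1.S) (c : ℝ) :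
    |o2.μ - o1.μ| ≤ (o2.B (fun x => f x - c * w x) - o1.B (fun x => f x - c * w x)) / o2.S +
      o1.B (fun x => f x - c * w x) * (1 / o1.S - 1 / o2.S) := by
  have hc := hw.cont
  set k : ℝ → ℝ := fun x => f x - c * w x with hk
  have hkc : Continuous k := by fun_prop
  have r1 := o1.rel hg hw hf c
  have r2 := o2.rel hg hw hf c
  have hS12 := WOrb.S_mono hg hw hf h
  have hS2 : 0 < o2.S := hS.trans_le hS12
  set H1 := ∫ x, k x * o1.d x with hH1
  set H2 := ∫ x, k x * o2.d x with hH2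
  have a1 : |H1| ≤ o1.B k := by
    refine (abs_integral_le_integral_abs).trans (le_of_eq ?_)
    unfold WOrb.B
    congr 1
    funext x
    rw [abs_mul, abs_of_nonneg (o1.d_nonneg hg x)]
  have a2 : |H2 - H1| ≤ o2.B k - o1.B k := by
    have i1 := o1.integrable hg hkc
    have i2 := o2.integrable hg hkc
    have j1 := o1.integrable hg hkc.abs
    have j2 := o2.integrable hg hkc.abs
    rw [hH1, hH2, ← integral_sub i2 i1]
    unfold WOrb.B
    rw [← integral_sub j2 j1]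
    refine (abs_integral_le_integral_abs).trans (integral_mono (i2.sub i1).abs (j2.sub j1) ?_)
    intro x
    simp only
    rw [← mul_sub, abs_mul, ← mul_sub, abs_of_nonneg (sub_nonneg.2 (WOrb.d_mono hg hw hf h x))]
  have e1 : o2.μ - o1.μ = -((H2 - H1) / o2.S) + H1 * (1 / o1.S - 1 / o2.S) := by
    have f1 : o1.μ + c = -(H1 / o1.S) := by
      rw [eq_neg_iff_add_eq_zero, ← mul_left_inj' hS.ne', add_mul, div_mul_cancel₀ _ hS.ne',
        zero_mul]
      linarith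
    have f2 : o2.μ + c = -(H2 / o2.S) := by
      rw [eq_neg_iff_add_eq_zero, ← mul_left_inj' hS2.ne', add_mul, div_mul_cancel₀ _ hS2.ne',
        zero_mul]
      linarith
    have : o2.μ - o1.μ = (o2.μ + c) - (o1.μ + c) := by ring
    rw [this, f1, f2]
    field_simp
    ring
  have hinv : 0 ≤ 1 / o1.S - 1 / o2.S := by
    rw [sub_nonneg]
    exact one_div_le_one_div_of_le hS hS12
  rw [e1]
  refine (abs_add_le _ _).trans (add_le_add ?_ ?_)
  · rw [abs_neg, abs_div, abs_of_pos hS2]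
    exact div_le_div_of_nonneg_right a2 hS2.le
  · rw [abs_mul, abs_of_nonneg hinv]
    exact mul_le_mul_of_nonneg_right a1 hinv

/-- the closed orbits of `x' = v`, `v' = -g(x) - (f(x) + μ w(x)) v` -/
def orbitsW (g f w : ℝ → ℝ) (μ : ℝ) : Set (Set (ℝ × ℝ)) :=
  {C | ∃ γ : ℝ → ℝ × ℝ, ∃ T : ℝ, 0 < T ∧
    (∀ t, HasDerivAt γ ((γ t).2, -g (γ t).1 - (f (γ t).1 + μ * w (γ t).1) * (γ t).2) t) ∧
    (∀ t, γ (t + T) = γ t) ∧ (∃ s t, γ s ≠ γ t) ∧ C = range γ}

variable {μ : ℝ}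

lemma exists_worb (hg : Rest g) (hw : Wt w) (hf : Continuous f) {C : Set (ℝ × ℝ)}
    (hC : C ∈ orbitsW g f w μ) :
    ∃ o : WOrb g f w, o.μ = μ ∧ C = curve o.l o.r o.U o.L := by
  have hwc := hw.cont
  obtain ⟨γ, T, hT, hγ, hper, ⟨s, t, hst⟩, rfl⟩ := hC
  have hx : ∀ t, HasDerivAt (fun t => (γ t).1) (γ t).2 t := fun t => (hγ t).fst
  have hv : ∀ t, HasDerivAt (fun t => (γ t).2) (-g (γ t).1 -
    (f (γ t).1 + μ * w (γ t).1) * (γ t).2) t := fun t => (hγ t).snd
  have hγc : Continuous γ := continuous_iff_continuousAt.2 fun t => (hγ t).continuousAt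
  have hcomp : IsCompact (range γ) := Function.Periodic.compact_of_continuous hper hT.ne' hγc
  obtain ⟨Λ, hΛ'⟩ := hcomp.exists_bound_of_continuousOn
    (f := fun z : ℝ × ℝ => f z.1 + μ * w z.1) (by fun_prop)
  have hΛ : ∀ t, |f (γ t).1 + μ * w (γ t).1| ≤ Λ := fun t => hΛ' _ (mem_range_self t)
  have S : Sol g (fun y => f y + μ * w y) (fun t => (γ t).1) (fun t => (γ t).2) T := by
    refine ⟨hT, hx, hv, fun t => by simp only [hper t], fun t => by simp only [hper t], ?_⟩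
    intro t0 h1 h2
    have := zero_of_zero hg (lam := fun t => f (γ t).1 + μ * w (γ t).1) hx hv hΛ h2 h1
    apply hst
    exact Prod.ext (by rw [(this s).1, (this t).1]) (by rw [(this s).2, (this t).2])
  obtain ⟨l, r, U, L, hU, hL, hran⟩ := Sol.exists_arcs hg S (by fun_prop)
  exact ⟨⟨μ, l, r, U, L, ⟨hU, hL⟩⟩, rfl, hran⟩

/-- counting the closed orbits with a property by their heights -/
theorem wcount (hg : Rest g) (hw : Wt w) (hf : Continuous f) (P : Set (ℝ × ℝ) → Prop) {K : ℝ}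
    (h : ∀ e : WOrb g f w, P (curve e.l e.r e.U e.L) → ∃ θ : WOrb g f w → ℝ,
      (∀ o o' : WOrb g f w, P (curve o.l o.r o.U o.L) → P (curve o'.l o'.r o'.U o'.L) →
        o.U 0 < o'.U 0 → o'.U 0 ≤ e.U 0 → |o'.μ - o.μ| ≤ θ o' - θ o) ∧
      (∀ o o' : WOrb g f w, o.U 0 = o'.U 0 → θ o = θ o') ∧
      ∀ o : WOrb g f w, P (curve o.l o.r o.U o.L) → o.U 0 ≤ e.U 0 → θ e - θ o ≤ K) :
    ∃ N : ℝ → ℝ≥0∞, Measurable N ∧
      (∀ μ, (({C | C ∈ orbitsW g f w μ ∧ P C}.encard : ℕ∞) : ℝ≥0∞) ≤ N μ) ∧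
      ∫⁻ μ, N μ ≤ ENNReal.ofReal K := by
  classical
  set E : Set ℝ := {y | ∃ o : WOrb g f w, P (curve o.l o.r o.U o.L) ∧ o.U 0 = y} with hE
  have hch : ∀ y : ℝ, ∃ o : Option (WOrb g f w), y ∈ E → ∃ o', o = some o' ∧
      P (curve o'.l o'.r o'.U o'.L) ∧ o'.U 0 = y := by
    intro y
    by_cases hy : y ∈ E
    · obtain ⟨o, ho⟩ := hy
      exact ⟨some o, fun _ => ⟨o, rfl, ho⟩⟩
    · exact ⟨none, fun h => absurd h hy⟩
  choose O hO using hch
  set m : ℝ → ℝ := fun y => (O y).elim 0 WOrb.μ with hm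
  have hmo : ∀ o : WOrb g f w, P (curve o.l o.r o.U o.L) → m (o.U 0) = o.μ := by
    intro o ho
    obtain ⟨o', h1, h2, h3⟩ := hO (o.U 0) ⟨o, ho, rfl⟩
    simp only [hm, h1, Option.elim]
    exact WOrb.eq_param hg hw hf h3
  obtain ⟨N, hg1, hg2, hg3⟩ := banach E m
  refine ⟨N, hg1, fun μ => (ENat.toENNReal_le.2 ?_).trans (hg2 μ), hg3.trans ?_⟩
  · -- injection
    have hex : ∀ C ∈ {C | C ∈ orbitsW g f w μ ∧ P C}, ∃ o : WOrb g f w, o.μ = μ ∧
        C = curve o.l o.r o.U o.L := fun C hC => exists_worb hg hw hf hC.1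
    rcases isEmpty_or_nonempty (WOrb g f w) with hemp | hne
    · have he : {C | C ∈ orbitsW g f w μ ∧ P C} = ∅ := by
        refine eq_empty_of_forall_notMem fun C hC => ?_
        obtain ⟨o, -⟩ := hex C hC
        exact hemp.false o
      rw [he]
      simp
    choose! Q hQ using hex
    refine encard_le_encard_of_injOn (f := fun C => (Q C).U 0) ?_ ?_
    · intro C hC
      have h1 := hQ C hC
      have hP : P (curve (Q C).l (Q C).r (Q C).U (Q C).L) := h1.2 ▸ hC.2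
      refine ⟨⟨Q C, hP, rfl⟩, ?_⟩
      change m ((Q C).U 0) = μ
      rw [hmo _ hP, h1.1]
    · intro C hC C' hC' heq
      have h1 := hQ C hC
      have h2 := hQ C' hC'
      obtain ⟨e1, e2, e3, e4⟩ := WOrb.eq_of hg hw hf (o1 := Q C) (o2 := Q C') heq
      rw [h1.2, h2.2]
      unfold curve
      rw [← e1, ← e2]
      congr 1
      · exact image_congr fun y hy => by rw [e3 y hy]
      · exact image_congr fun y hy => by rw [e4 y hy]
  · refine evar_le ?_
    rintro _ ⟨e, he, rfl⟩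
    obtain ⟨θ, h1, h2, h3⟩ := h e he
    refine ⟨fun y => (O y).elim 0 θ, ?_, ?_⟩
    · rintro _ ⟨o, ho, rfl⟩ _ ⟨o', ho', rfl⟩ hle hle'
      have e1 : (O (o.U 0)).elim 0 θ = θ o := by
        obtain ⟨o1, k1, k2, k3⟩ := hO (o.U 0) ⟨o, ho, rfl⟩
        rw [k1]; exact h2 _ _ k3
      have e2 : (O (o'.U 0)).elim 0 θ = θ o' := by
        obtain ⟨o1, k1, k2, k3⟩ := hO (o'.U 0) ⟨o', ho', rfl⟩
        rw [k1]; exact h2 _ _ k3
      simp only
      rw [e1, e2, hmo o ho, hmo o' ho']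
      rcases hle.lt_or_eq with hlt | heq
      · exact h1 o o' ho ho' hlt hle'
      · rw [h2 o o' heq, ← hmo o ho, ← hmo o' ho', heq]
        simp
    · rintro _ ⟨o, ho, rfl⟩ hle
      have e1 : (O (o.U 0)).elim 0 θ = θ o := by
        obtain ⟨o1, k1, k2, k3⟩ := hO (o.U 0) ⟨o, ho, rfl⟩
        rw [k1]; exact h2 _ _ k3
      have e2 : (O (e.U 0)).elim 0 θ = θ e := by
        obtain ⟨o1, k1, k2, k3⟩ := hO (e.U 0) ⟨e, he, rfl⟩
        rw [k1]; exact h2 _ _ k3
      simp only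
      rw [e1, e2]
      exact h3 o ho hle

end Pool.Agent.K9h2.LW
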