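import Pool.Agent.K9h2.LI.Lower
import Pool.Agent.K9h2.LW.Var

/-! The Dini type bound is attained up to a constant. -/

open Set Filter Topology MeasureTheory Polynomial
open scoped ENNReal

namespace Pool.Agent.K9h2.LW

open Pool.Agent.K9h2.LI

lemma alt_lip {B : ℕ} (hB : 2 ≤ B) (M : ℕ) : ∀ y : ℝ, 0 ≤ y → y ≤ 1 →
    |(alt B M).eval y - (alt B M).eval 1| ≤ (2 * (B:ℝ) ^ M - 1) * (1 - y) := by
  have hB' : (2:ℝ) ≤ B := by exact_mod_cast hB
  induction M with
  | zero =>
    intro y h0 h1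
    simp only [alt, eval_X, pow_zero]
    rw [abs_of_nonpos (by linarith)]
    linarith
  | succ M ih =>
    intro y h0 h1
    have h2 := ih (y ^ B) (by positivity) (pow_le_one₀ h0 h1)
    rw [alt_eval_succ, alt_eval_succ, one_pow]
    have h3 := bern (B := B) h0
    have h4 : 1 ≤ (B:ℝ) ^ M := one_le_pow₀ (by linarith)
    have h5 : (2 * (B:ℝ) ^ M - 1) * (1 - y ^ B) ≤ (2 * (B:ℝ) ^ M - 1) * (B * (1 - y)) :=
      mul_le_mul_of_nonneg_left h3 (by linarith)
    have e2 : y - (alt B M).eval (y ^ B) - (1 - (alt B M).eval 1) =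
        -(1 - y) - ((alt B M).eval (y ^ B) - (alt B M).eval 1) := by ring
    rw [e2]
    have h6 : |-(1 - y) - ((alt B M).eval (y ^ B) - (alt B M).eval 1)| ≤
        (1 - y) + |(alt B M).eval (y ^ B) - (alt B M).eval 1| := by
      refine (abs_sub _ _).trans ?_
      rw [abs_neg, abs_of_nonneg (by linarith)]
    have h7 : (2 * (B:ℝ) ^ M - 1) * (B * (1 - y)) + (1 - y) ≤
        (2 * (B:ℝ) ^ (M + 1) - 1) * (1 - y) := by
      rw [pow_succ]
      nlinarith [mul_nonneg (show 0 ≤ (B:ℝ) - 2 by linarith) (show 0 ≤ 1 - y by linarith)]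
    linarith

lemma wav_sub (M : ℕ) {x : ℝ} (hx : |x| ≤ 1) :
    |(wav M).eval x - (wav M).eval 0| ≤ min 1 (2 * ((2:ℝ) ^ 30) ^ M * x ^ 2) := by
  have hx1 : x ^ 2 ≤ 1 := by
    rw [← sq_abs]
    nlinarith [abs_nonneg x]
  have hx2 := sq_nonneg x
  refine le_min ?_ ?_
  · have h1 := wav_mem M hx
    have h2 := wav_mem M (x := 0) (by simp)
    rw [abs_le]
    constructor <;> linarith [h1.1, h1.2, h2.1, h2.2]
  · rw [wav_eval, wav_eval]
    have e : (1 - (0:ℝ) ^ 2) = 1 := by norm_num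
    rw [e]
    refine (alt_lip (B := 2 ^ 30) (by norm_num) M (1 - x ^ 2) (by linarith) (by linarith)).trans ?_
    have e2 : 1 - (1 - x ^ 2) = x ^ 2 := by ring
    have e3 : ((2 ^ 30 : ℕ) : ℝ) = (2:ℝ) ^ 30 := by norm_num
    rw [e2, e3]
    exact mul_le_mul_of_nonneg_right (sub_le_self _ zero_le_one) hx2

/-- a bound with a primitive -/
lemma min_le_frac {b x : ℝ} (hb : 0 < b) :
    min 1 (2 * b * x ^ 2) / |x| ≤ 3 * b * |x| / (1 + b * x ^ 2) := by
  rcases eq_or_ne x 0 with rfl | hx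
  · simp
  have hx' : 0 < |x| := abs_pos.2 hx
  have hpos : 0 < 1 + b * x ^ 2 := by positivity
  rw [div_le_div_iff₀ hx' hpos]
  have e : 3 * b * |x| * |x| = 3 * (b * x ^ 2) := by
    rw [mul_assoc, abs_mul_abs_self]; ring
  rw [e]
  set t := b * x ^ 2 with ht
  have ht0 : 0 ≤ t := by positivity
  have e2 : 2 * b * x ^ 2 = 2 * t := by rw [ht]; ring
  rw [e2]
  rcases le_total t (1 / 2) with h | h
  · have h1 : min 1 (2 * t) ≤ 2 * t := min_le_right _ _
    have h2 : min 1 (2 * t) * (1 + t) ≤ 2 * t * (1 + t) :=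
      mul_le_mul_of_nonneg_right h1 (by linarith)
    nlinarith
  · have h1 : min 1 (2 * t) ≤ 1 := min_le_left _ _
    have h2 : min 1 (2 * t) * (1 + t) ≤ 1 * (1 + t) :=
      mul_le_mul_of_nonneg_right h1 (by linarith)
    linarith

lemma frac_integral {b : ℝ} (hb : 0 < b) :
    ∫ x in (-1:ℝ)..1, 3 * b * |x| / (1 + b * x ^ 2) = 3 * Real.log (1 + b) := by
  have hpos : ∀ x : ℝ, 0 < 1 + b * x ^ 2 := fun x => by positivity
  have hcont : Continuous fun x : ℝ => 3 * b * |x| / (1 + b * x ^ 2) :=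
    Continuous.div (by fun_prop) (by fun_prop) fun x => (hpos x).ne'
  have hd : ∀ x : ℝ, HasDerivAt (fun x => 3 / 2 * Real.log (1 + b * x ^ 2))
      (3 * b * x / (1 + b * x ^ 2)) x := by
    intro x
    have h1 : HasDerivAt (fun x : ℝ => 1 + b * x ^ 2) (b * (2 * x)) x := by
      have := ((hasDerivAt_pow 2 x).const_mul b).const_add 1
      simpa using this
    refine ((h1.log (hpos x).ne').const_mul (3 / 2)).congr_deriv ?_
    have := (hpos x).ne'
    field_simp
  rw [← intervalIntegral.integral_add_adjacent_intervals (b := 0) (hcont.intervalIntegrable _ _)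
    (hcont.intervalIntegrable _ _)]
  have e1 : ∫ x in (0:ℝ)..1, 3 * b * |x| / (1 + b * x ^ 2) = 3 / 2 * Real.log (1 + b) := by
    have h1 : ∫ x in (0:ℝ)..1, 3 * b * |x| / (1 + b * x ^ 2) =
        ∫ x in (0:ℝ)..1, 3 * b * x / (1 + b * x ^ 2) := by
      refine intervalIntegral.integral_congr fun x hx => ?_
      rw [uIcc_of_le zero_le_one] at hx
      rw [abs_of_nonneg hx.1]
    rw [h1, intervalIntegral.integral_eq_sub_of_hasDerivAt (fun x _ => hd x)]
    · simp
    · refine Continuous.intervalIntegrable ?_ _ _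
      exact Continuous.div (by fun_prop) (by fun_prop) fun x => (hpos x).ne'
  have e2 : ∫ x in (-1:ℝ)..0, 3 * b * |x| / (1 + b * x ^ 2) = 3 / 2 * Real.log (1 + b) := by
    have h1 : ∫ x in (-1:ℝ)..0, 3 * b * |x| / (1 + b * x ^ 2) =
        ∫ x in (-1:ℝ)..0, -(3 * b * x / (1 + b * x ^ 2)) := by
      refine intervalIntegral.integral_congr fun x hx => ?_
      rw [uIcc_of_le (by norm_num)] at hx
      rw [abs_of_nonpos hx.2]
      ring
    rw [h1, intervalIntegral.integral_neg,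
      intervalIntegral.integral_eq_sub_of_hasDerivAt (fun x _ => hd x)]
    · simp
    · refine Continuous.intervalIntegrable ?_ _ _
      exact Continuous.div (by fun_prop) (by fun_prop) fun x => (hpos x).ne'
  rw [e1, e2]
  ring

/-- the Dini integral of the example -/
lemma dini_wav (K : ℕ) {δ : ℝ} (hδ : 0 < δ) :
    ∫⁻ x in Icc (-1:ℝ) 1, ENNReal.ofReal (|(C (5 * δ / 3) * wav K).eval x -
      (C (5 * δ / 3) * wav K).eval 0| / |x|) ≤ ENNReal.ofReal (105 * δ * (K + 1)) := by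
  set b : ℝ := (2 ^ 30) ^ K with hb
  have hb0 : 0 < b := by positivity
  have hpos : ∀ x : ℝ, 0 < 1 + b * x ^ 2 := fun x => by positivity
  have hcont : Continuous fun x : ℝ => 5 * δ / 3 * (3 * b * |x| / (1 + b * x ^ 2)) :=
    continuous_const.mul (Continuous.div (by fun_prop) (by fun_prop) fun x => (hpos x).ne')
  have h1 : ∫⁻ x in Icc (-1:ℝ) 1, ENNReal.ofReal (|(C (5 * δ / 3) * wav K).eval x -
      (C (5 * δ / 3) * wav K).eval 0| / |x|) ≤
      ∫⁻ x in Icc (-1:ℝ) 1, ENNReal.ofReal (5 * δ / 3 * (3 * b * |x| / (1 + b * x ^ 2))) := by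
    refine setLIntegral_mono (by fun_prop) fun x hx => ENNReal.ofReal_le_ofReal ?_
    have hx' : |x| ≤ 1 := abs_le.2 hx
    have h2 := wav_sub K hx'
    have e : (C (5 * δ / 3) * wav K).eval x - (C (5 * δ / 3) * wav K).eval 0 =
        5 * δ / 3 * ((wav K).eval x - (wav K).eval 0) := by simp; ring
    rw [e, abs_mul, abs_of_pos (by positivity), mul_div_assoc]
    refine mul_le_mul_of_nonneg_left ?_ (by positivity)
    exact (div_le_div_of_nonneg_right h2 (abs_nonneg x)).trans (min_le_frac hb0)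
  refine h1.trans ?_
  rw [← ofReal_integral_eq_lintegral_ofReal hcont.continuousOn.integrableOn_Icc
    (Eventually.of_forall fun x => by
      have := hpos x
      positivity)]
  apply ENNReal.ofReal_le_ofReal
  rw [integral_Icc_eq_integral_Ioc, ← intervalIntegral.integral_of_le (by norm_num),
    intervalIntegral.integral_const_mul, frac_integral hb0]
  have h2 : Real.log (1 + b) ≤ (30 * K + 1) * Real.log 2 := by
    have h3 : (1:ℝ) + b ≤ 2 ^ (30 * K + 1) := by
      have h4 : (1:ℝ) ≤ b := one_le_pow₀ (by norm_num)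
      rw [pow_succ, pow_mul, ← hb]
      linarith
    refine (Real.log_le_log (by linarith) h3).trans (le_of_eq ?_)
    rw [Real.log_pow]
    push_cast
    ring
  have h5 := Real.log_two_lt_d9
  have h6 : Real.log (1 + b) ≤ (30 * K + 1) * 0.6931471808 :=
    h2.trans (mul_le_mul_of_nonneg_left h5.le (by positivity))
  have h7 : 5 * δ / 3 * (3 * Real.log (1 + b)) = δ * (5 * Real.log (1 + b)) := by ring
  rw [h7]
  have h8 : δ * (5 * Real.log (1 + b)) ≤ δ * (105 * (K + 1)) := by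
    refine mul_le_mul_of_nonneg_left ?_ hδ.le
    have : (0:ℝ) ≤ K := Nat.cast_nonneg K
    linarith
  linarith

/-- `K` closed orbits in the strip `|x| ≤ 1`, for the friction `5 δ / 3 * wav K` -/
theorem lower_strip (K : ℕ) {δ : ℝ} (hδ0 : 0 < δ) (hδ : δ ≤ 1 / 10) :
      ∀ μ ∈ Icc (-δ) (-(2 / 3) * δ),
        (K : ℕ∞) ≤ {C' | C' ∈ orbitsW (fun x => x) (fun x => (C (5 * δ / 3) * wav K).eval x)
          (fun _ => 1) μ ∧ ∀ z ∈ C', z.1 ∈ Icc (-1:ℝ) 1}.encard := by
  intro μ hμ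
  set p : ℝ[X] := C (5 * δ / 3) * wav K with hp
  set k : ℝ → ℝ := fun x => p.eval x + μ with hkdef
  have hke : ∀ x, k x = 5 * δ / 3 * (wav K).eval x + μ := fun x => by simp [hkdef, hp]
  have hc : Continuous k := by
    have := p.continuous
    fun_prop
  have hk : ∀ x, |x| ≤ 1 → |k x| ≤ δ := by
    intro x hx
    obtain ⟨h1, h2⟩ := wav_mem K hx
    rw [hke, abs_le]
    have h3 : 5 * δ / 3 * (wav K).eval x ≤ 5 * δ / 3 * 1 :=
      mul_le_mul_of_nonneg_left h2 (by linarith)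
    have h4 : 0 ≤ 5 * δ / 3 * (wav K).eval x := mul_nonneg (by linarith) h1
    constructor
    · linarith [hμ.1]
    · linarith [hμ.2]
  -- Lipschitz
  obtain ⟨D, hD⟩ := (isCompact_Icc (a := (-1:ℝ)) (b := 1)).exists_bound_of_continuousOn
    (f := fun x => (derivative p).eval x) (derivative p).continuous.continuousOn
  have hD0 : 0 ≤ D := (norm_nonneg _).trans (hD 0 ⟨by norm_num, by norm_num⟩)
  have hl : ∀ x y, |x| ≤ 1 → |y| ≤ 1 → |k x - k y| ≤ D * |x - y| := by
    intro x y hx hy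
    have := (convex_Icc (-1:ℝ) 1).norm_image_sub_le_of_norm_deriv_le
      (f := fun x => p.eval x) (C := D) (fun z _ => p.differentiable z)
      (fun z hz => by rw [Polynomial.deriv]; exact hD z hz)
      (abs_le.1 hy) (abs_le.1 hx)
    simp only [hkdef, add_sub_add_right_eq_sub]
    simpa [Real.norm_eq_abs] using this
  have hplat : ∀ j ≤ K, ∀ x, rad j / 512 ≤ |x| → |x| ≤ 2 * rad j →
      δ / 2 ≤ (2 * sg j - 1) * k x := by
    intro j hj x h1 h2
    have h3 := abs_le.1 (wav_near hj h1 h2)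
    rw [hke]
    rcases sg_cases j with ⟨h, -⟩ | ⟨h, -⟩
    · rw [h] at h3 ⊢
      have h4 : 5 * δ / 3 * (19 / 20) ≤ 5 * δ / 3 * (wav K).eval x :=
        mul_le_mul_of_nonneg_left (by linarith [h3.1]) (by linarith)
      linarith [hμ.1]
    · rw [h] at h3 ⊢
      have h4 : 5 * δ / 3 * (wav K).eval x ≤ 5 * δ / 3 * (1 / 20) :=
        mul_le_mul_of_nonneg_left (by linarith [h3.2]) (by linarith)
      linarith [hμ.2]
  have hex : ∀ j : Fin K, ∃ c ∈ Ioo (Real.log (rad (j + 1))) (Real.log (rad j)), ∃ U : ℝ → ℝ,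
      U 0 = c ∧ (∀ θ, U (θ + 2 * Real.pi) = U θ) ∧
      (∀ θ, HasDerivAt U (phi θ (k (Real.exp (U θ) * Real.cos θ))) θ) ∧ ∀ θ, U θ ≤ 0 := by
    intro j
    have hs : 2 * sg (j + 1) - 1 = -(2 * sg j - 1) := by
      change 2 * (1 - sg j) - 1 = _
      ring
    have h1 := hplat j j.2.le
    have h2 := hplat (j + 1) j.2
    rw [hs] at h2
    refine one_orbit hδ0 hδ ?_ hk hc hD0 hl (rad_pos _) (rad_lt _) (rad_le _) h1 h2
    rcases sg_cases j with ⟨h, -⟩ | ⟨h, -⟩ <;> rw [h] <;> norm_num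
  choose c hc1 U hU0 hUper hUd hUle using hex
  have hunit : ∀ j θ, |Real.exp (U j θ) * Real.cos θ| ≤ 1 := by
    intro j θ
    rw [abs_mul, abs_of_pos (Real.exp_pos _)]
    have h1 : Real.exp (U j θ) ≤ 1 := Real.exp_le_one_iff.2 (hUle j θ)
    have h2 := Real.abs_cos_le_one θ
    have h3 := Real.exp_pos (U j θ)
    nlinarith [abs_nonneg (Real.cos θ)]
  set Cu : Fin K → Set (ℝ × ℝ) := fun j => range fun θ => pol (U j θ) θ with hCu
  have hmem : ∀ j, Cu j ∈ {C' | C' ∈ orbitsW (fun x => x) (fun x => p.eval x) (fun _ => 1) μ ∧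
      ∀ z ∈ C', z.1 ∈ Icc (-1:ℝ) 1} := by
    intro j
    obtain ⟨γ, T, hT, h1, h2, h3, h4⟩ := orbit_of_periodic hc (hUper j) (hUd j)
      (fun θ => (hk _ (hunit j θ)).trans hδ)
    refine ⟨⟨γ, T, hT, ?_, h2, h3, h4.symm⟩, ?_⟩
    · intro t
      have := h1 t
      simpa [hkdef] using this
    · rintro _ ⟨θ, rfl⟩
      exact abs_le.1 (hunit j θ)
  have hinj : Function.Injective Cu := by
    intro i j hij
    have h1 : (Real.exp (c i), (0:ℝ)) ∈ Cu j := by
      rw [← hij]
      exact ⟨0, by simp [pol, hU0]⟩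
    have h2 := ray (hUper j) h1
    rw [hU0] at h2
    -- the values are ordered
    have hanti : ∀ a b : ℕ, a ≤ b → Real.log (rad b) ≤ Real.log (rad a) := by
      intro a b hab
      apply Real.log_le_log (rad_pos _)
      unfold rad
      exact pow_le_pow_of_le_one (by norm_num) (by norm_num) (by omega)
    by_contra hne
    rcases lt_or_gt_of_ne (fun h => hne (Fin.ext h) : (i : ℕ) ≠ j) with h | h
    · have := hanti (i + 1) j h
      linarith [(hc1 i).1, (hc1 j).2]
    · have := hanti (j + 1) i h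
      linarith [(hc1 j).1, (hc1 i).2]
  calc (K : ℕ∞) = (univ : Set (Fin K)).encard := by simp
    _ = (Cu '' univ).encard := (hinj.encard_image _).symm
    _ ≤ _ := encard_le_encard (by rintro _ ⟨j, -, rfl⟩; exact hmem j)

end Pool.Agent.K9h2.LW
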