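import Pool.Agent.K9h2.LW.Plane
import Pool.Agent.K9h2.LW.Sharp

/-! Even friction: the mean number of closed orbits and the total variation. -/

open Set Filter Topology MeasureTheory Polynomial
open scoped ENNReal

namespace Pool.Agent.K9h2.LW

open Pool.Agent.K9h2.LI

variable {g : ℝ → ℝ} {φ φ' : ℝ → ℝ}

lemma sW_one {t : ℝ} (ht : 0 < t) : sW (fun _ => 1) t = t / 2 := by
  unfold sW
  simp only [one_mul]
  rw [intervalIntegral.integral_sub (by simp) (Continuous.intervalIntegrable (by fun_prop) _ _),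
    intervalIntegral.integral_div, integral_id]
  simp
  field_simp
  ring

lemma one_pos' (hg : Rest g) (hm : Monotone g) {f : ℝ → ℝ} (o : WOrb g f fun _ => 1) :
    0 < o.S := by
  have h := o.width_le hg (conv_half hg hm)
  have := o.loop.up.hl
  have := o.loop.up.hr
  linarith

/-- **Even friction**, closed orbits in a set of abscissae. -/
theorem var_bound (hg : Rest g) (hm : Monotone g) (hφ : ∀ t, HasDerivAt φ (φ' t) t)
    (hφ' : Continuous φ') {J : Set ℝ} (hJm : MeasurableSet J) (hJ : J ⊆ Ioi 0)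
    (P : Set (ℝ × ℝ) → Prop)
    (hP : ∀ o : WOrb g (fun x => φ |x|) fun _ => 1, P (curve o.l o.r o.U o.L) → Ioc 0 o.ρ ⊆ J) :
    ∃ N : ℝ → ℝ≥0∞, Measurable N ∧
      (∀ μ, (({C | C ∈ orbitsW g (fun x => φ |x|) (fun _ => 1) μ ∧ P C}.encard : ℕ∞) : ℝ≥0∞) ≤
        N μ) ∧
      ∫⁻ μ, N μ ≤ ENNReal.ofReal (1 + Real.log 8 / 2) *
        ∫⁻ t in J, ENNReal.ofReal |φ' t| := by
  have hφc : Continuous φ := continuous_iff_continuousAt.2 fun t => (hφ t).continuousAt
  have hlog : 0 ≤ Real.log 8 := Real.log_nonneg (by norm_num)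
  rcases eq_or_ne (∫⁻ t in J, ENNReal.ofReal |φ' t|) ⊤ with htop | hfin
  · refine ⟨fun _ => ⊤, measurable_const, fun _ => le_top, ?_⟩
    rw [htop, ENNReal.mul_top (by simp; positivity)]
    exact le_top
  have hint : IntegrableOn φ' J := by
    refine ⟨hφ'.aestronglyMeasurable, ?_⟩
    rw [hasFiniteIntegral_iff_norm]
    simp only [Real.norm_eq_abs]
    exact lt_top_iff_ne_top.2 hfin
  obtain ⟨N, h1, h2, h3⟩ := even_bound (f := fun x => φ |x|) (w := fun _ => 1) (h := fun _ => 0)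
    (Q := 8) (K := 0) hg hm wt_one (fun _ => rfl)
    (fun t ht => by rw [sW_one ht]; positivity) (by norm_num)
    (fun t ht => by rw [sW_one ht]; simp; linarith) (by fun_prop) hφ hφ' continuous_const
    (fun x => by simp) hJm hJ hint P (fun o ho => ⟨one_pos' hg hm o, hP o ho⟩) (fun _ => 0)
    (fun o o' _ _ _ => by simp) (fun _ _ _ => rfl) (fun _ _ _ _ => by simp)
  refine ⟨N, h1, h2, h3.trans (le_of_eq ?_)⟩
  rw [add_zero, ENNReal.ofReal_mul (by positivity), show 1 + 1 / 2 * Real.log 8 =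
    1 + Real.log 8 / 2 by ring, ofReal_integral_eq_lintegral_ofReal hint.abs
      (Eventually.of_forall fun t => abs_nonneg _)]

/-! ### sharpness -/

/-- the bound for the derivative of `alt` -/
noncomputable def altD (B M : ℕ) (y : ℝ) : ℝ :=
  ∑ j ∈ Finset.range (M + 1), ((B ^ j : ℕ) : ℝ) * y ^ (B ^ j - 1)

lemma altD_succ {B : ℕ} (hB : 1 ≤ B) (M : ℕ) (y : ℝ) :
    altD B (M + 1) y = 1 + B * y ^ (B - 1) * altD B M (y ^ B) := by
  unfold altD
  rw [Finset.sum_range_succ', Finset.mul_sum, add_comm]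
  congr 1
  · simp
  · refine Finset.sum_congr rfl fun j _ => ?_
    have h1 : 1 ≤ B ^ j := Nat.one_le_pow _ _ hB
    have e : B ^ (j + 1) - 1 = (B - 1) + B * (B ^ j - 1) := by
      rw [Nat.mul_sub, mul_one, pow_succ, mul_comm (B ^ j) B]
      have : B ≤ B * B ^ j := Nat.le_mul_of_pos_right B h1
      omega
    have e2 : ((B ^ (j + 1) : ℕ) : ℝ) = B * ((B ^ j : ℕ) : ℝ) := by
      push_cast
      rw [pow_succ]
      ring
    have e3 : y ^ (B ^ (j + 1) - 1) = y ^ (B - 1) * (y ^ B) ^ (B ^ j - 1) := by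
      rw [e, pow_add, pow_mul]
    rw [e2, e3]
    ring

lemma alt_deriv_le {B : ℕ} (hB : 1 ≤ B) (M : ℕ) : ∀ y : ℝ, 0 ≤ y →
    |(derivative (alt B M)).eval y| ≤ altD B M y := by
  induction M with
  | zero => intro y _; simp [alt, altD]
  | succ M ih =>
    intro y hy
    rw [altD_succ hB]
    unfold alt
    rw [derivative_sub, derivative_X, derivative_comp, derivative_X_pow, eval_sub, eval_one,
      eval_mul, eval_comp, eval_mul, eval_C, eval_pow, eval_X, eval_pow, eval_X]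
    refine (abs_sub _ _).trans ?_
    rw [abs_one, abs_mul]
    have h1 := ih (y ^ B) (by positivity)
    have h2 : 0 ≤ (B:ℝ) * y ^ (B - 1) := by positivity
    rw [abs_of_nonneg h2]
    have := mul_le_mul_of_nonneg_left h1 h2
    linarith

lemma wav_var (K : ℕ) {δ : ℝ} (hδ : 0 < δ) :
    ∫⁻ x in Ioc (0:ℝ) 1, ENNReal.ofReal |(derivative (C (5 * δ / 3) * wav K)).eval x| ≤
      ENNReal.ofReal (5 * δ / 3 * (K + 1)) := by
  set F : ℝ → ℝ := fun x => 5 * δ / 3 * (altD (2 ^ 30) K (1 - x ^ 2) * (2 * x)) with hF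
  have hFc : Continuous F := by
    simp only [hF, altD]
    fun_prop
  have h1 : ∫⁻ x in Ioc (0:ℝ) 1, ENNReal.ofReal |(derivative (C (5 * δ / 3) * wav K)).eval x| ≤
      ∫⁻ x in Ioc (0:ℝ) 1, ENNReal.ofReal (F x) := by
    refine setLIntegral_mono (by fun_prop) fun x hx => ENNReal.ofReal_le_ofReal ?_
    have hx0 : 0 ≤ x := hx.1.le
    have hx1 : x ^ 2 ≤ 1 := pow_le_one₀ hx0 hx.2
    have h2 := alt_deriv_le (B := 2 ^ 30) Nat.one_le_two_pow K (1 - x ^ 2) (by linarith)
    have e : (derivative (C (5 * δ / 3) * wav K)).eval x =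
        5 * δ / 3 * (-(2 * x) * (derivative (alt (2 ^ 30) K)).eval (1 - x ^ 2)) := by
      have e0 : derivative (1 - X ^ 2 : ℝ[X]) = -(C 2 * X) := by
        rw [derivative_sub, derivative_one, derivative_X_pow]
        simp
      unfold wav
      rw [derivative_C_mul, derivative_comp, e0]
      simp only [eval_mul, eval_C, eval_neg, eval_X, eval_comp, eval_sub, eval_one, eval_pow]
    rw [e, abs_mul, abs_mul, abs_neg, abs_of_nonneg (show 0 ≤ 2 * x by linarith),
      abs_of_pos (show 0 < 5 * δ / 3 by positivity)]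
    refine mul_le_mul_of_nonneg_left ?_ (by positivity)
    have := mul_le_mul_of_nonneg_left h2 (show 0 ≤ 2 * x by linarith)
    linarith
  refine h1.trans ?_
  have hF0 : 0 ≤ᵐ[volume.restrict (Ioc 0 1)] F := by
    refine (ae_restrict_iff' measurableSet_Ioc).2 (Eventually.of_forall fun x hx => ?_)
    have hx0 : 0 ≤ x := hx.1.le
    have hx1 : x ^ 2 ≤ 1 := pow_le_one₀ hx0 hx.2
    have h3 : 0 ≤ altD (2 ^ 30) K (1 - x ^ 2) :=
      Finset.sum_nonneg fun j _ => by
        have : 0 ≤ 1 - x ^ 2 := by linarith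
        positivity
    simp only [Pi.zero_apply, hF]
    positivity
  have hFi : IntegrableOn F (Ioc 0 1) := hFc.integrableOn_Icc.mono_set Ioc_subset_Icc_self
  rw [← ofReal_integral_eq_lintegral_ofReal hFi hF0]
  apply ENNReal.ofReal_le_ofReal
  rw [← intervalIntegral.integral_of_le zero_le_one]
  have hd : ∀ x ∈ uIcc (0:ℝ) 1, HasDerivAt (fun x : ℝ => -(5 * δ / 3) *
      ∑ j ∈ Finset.range (K + 1), (1 - x ^ 2) ^ ((2 ^ 30) ^ j)) (F x) x := by
    intro x _
    have h4 : HasDerivAt (fun x : ℝ => 1 - x ^ 2) (-(2 * x)) x := by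
      simpa using (hasDerivAt_pow 2 x).const_sub 1
    have h5 := (HasDerivAt.fun_sum fun j (_ : j ∈ Finset.range (K + 1)) =>
      h4.pow ((2 ^ 30) ^ j)).const_mul (-(5 * δ / 3))
    refine h5.congr_deriv ?_
    simp only [hF, altD, Finset.sum_mul, Finset.mul_sum]
    refine Finset.sum_congr rfl fun j _ => ?_
    ring
  rw [intervalIntegral.integral_eq_sub_of_hasDerivAt hd (hFc.intervalIntegrable _ _)]
  have h6 : ∑ j ∈ Finset.range (K + 1), (1 - (0:ℝ) ^ 2) ^ ((2 ^ 30) ^ j : ℕ) = (K:ℝ) + 1 := by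
    simp
  have h7 : ∑ j ∈ Finset.range (K + 1), (1 - (1:ℝ) ^ 2) ^ ((2 ^ 30) ^ j : ℕ) = 0 := by
    refine Finset.sum_eq_zero fun j _ => ?_
    rw [one_pow, sub_self, zero_pow (by positivity)]
  rw [h6, h7]
  linarith

end Pool.Agent.K9h2.LW
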