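import Pool.Agent.K9h2.LW.Conv
import Pool.Agent.K9h2.LW.Weight

/-! All closed orbits in the whole plane. -/

open Set Filter Topology MeasureTheory
open scoped ENNReal

namespace Pool.Agent.K9h2.LW

open Pool.Agent.K9h2.LI

lemma rpow_step {a b β : ℝ} (ha : 0 < a) (hab : a ≤ b) (hβ : 0 < β) (hβ1 : β ≤ 1) :
    a ^ (1 - β) * (1 / a - 1 / b) ≤ 1 / β * (a ^ (-β) - b ^ (-β)) := by
  have hb : 0 < b := ha.trans_le hab
  have e1 : a ^ (1 - β) = a * a ^ (-β) := by
    rw [sub_eq_add_neg, Real.rpow_add ha, Real.rpow_one]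
  have hpa : 0 < a ^ (-β) := Real.rpow_pos_of_pos ha _
  have e2 : b ^ (-β) = a ^ (-β) * (a / b) ^ β := by
    rw [Real.div_rpow ha.le hb.le, Real.rpow_neg ha.le, Real.rpow_neg hb.le]
    have := (Real.rpow_pos_of_pos ha β).ne'
    have := (Real.rpow_pos_of_pos hb β).ne'
    field_simp
  have e3 : (a / b) ^ β ≤ 1 + β * (a / b - 1) := by
    have h0 : 0 < a / b := by positivity
    have := rpow_one_add_le_one_add_mul_self (s := a / b - 1) (by linarith) hβ.le hβ1
    rwa [add_sub_cancel] at this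
  rw [e1, e2]
  have e4 : a * a ^ (-β) * (1 / a - 1 / b) = a ^ (-β) * (1 - a / b) := by
    field_simp
  have e5 : 1 / β * (a ^ (-β) - a ^ (-β) * (a / b) ^ β) =
      a ^ (-β) * (1 / β * (1 - (a / b) ^ β)) := by ring
  rw [e4, e5]
  refine mul_le_mul_of_nonneg_left ?_ hpa.le
  rw [one_div, ← div_eq_inv_mul, le_div_iff₀ hβ]
  linarith

variable {g f w : ℝ → ℝ}

/-- **The bound by powers of the size.** -/
theorem sup_bound (hg : Rest g) (hw : Wt w) (hf : Continuous f) (c : ℝ) {β K S0 : ℝ}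
    (hβ : 0 < β) (hβ1 : β ≤ 1) (hK : 0 ≤ K) (hS0 : 0 < S0) (P : Set (ℝ × ℝ) → Prop)
    (hP : ∀ o : WOrb g f w, P (curve o.l o.r o.U o.L) → S0 ≤ o.S ∧
      o.B (fun x => f x - c * w x) ≤ K * o.S ^ (1 - β)) :
    ∃ N : ℝ → ℝ≥0∞, Measurable N ∧
      (∀ μ, (({C | C ∈ orbitsW g f w μ ∧ P C}.encard : ℕ∞) : ℝ≥0∞) ≤ N μ) ∧
      ∫⁻ μ, N μ ≤ ENNReal.ofReal (K * S0 ^ (-β) * (1 + 2 / β)) := by
  set k : ℝ → ℝ := fun x => f x - c * w x with hk
  refine wcount hg hw hf P fun e he =>
    ⟨fun o => o.B k / o.S - 2 * K / β * o.S ^ (-β), ?_, ?_, ?_⟩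
  · intro o o' ho ho' hlt _
    have hS : 0 < o.S := hS0.trans_le (hP o ho).1
    have hSS := WOrb.S_mono hg hw hf hlt
    have hS' : 0 < o'.S := hS.trans_le hSS
    have hstep := WOrb.step hg hw hf hlt hS c
    have hinv : 0 ≤ 1 / o.S - 1 / o'.S := sub_nonneg.2 (one_div_le_one_div_of_le hS hSS)
    have h1 : o.B k * (1 / o.S - 1 / o'.S) ≤ K * o.S ^ (1 - β) * (1 / o.S - 1 / o'.S) :=
      mul_le_mul_of_nonneg_right (hP o ho).2 hinv
    have h2 := mul_le_mul_of_nonneg_left (rpow_step hS hSS hβ hβ1) hK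
    have e1 : (o'.B k - o.B k) / o'.S + o.B k * (1 / o.S - 1 / o'.S) =
        o'.B k / o'.S - o.B k / o.S + 2 * (o.B k * (1 / o.S - 1 / o'.S)) := by
      field_simp
      ring
    have h3 : |o'.μ - o.μ| ≤ (o'.B k - o.B k) / o'.S + o.B k * (1 / o.S - 1 / o'.S) := hstep
    rw [e1] at h3
    have e2 : K * (1 / β * (o.S ^ (-β) - o'.S ^ (-β))) =
        (2 * K / β * o.S ^ (-β) - 2 * K / β * o'.S ^ (-β)) / 2 := by ring
    simp only
    linarith
  · intro o o' h
    have hd := WOrb.d_eq hg hw hf h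
    simp only
    rw [WOrb.S_eq hd, WOrb.B_eq hd k]
  · intro o ho _
    have hS : 0 < o.S := hS0.trans_le (hP o ho).1
    have hSe : 0 < e.S := hS0.trans_le (hP e he).1
    have h0 : 0 ≤ o.B k / o.S := div_nonneg (o.B_nonneg hg k) hS.le
    have anti : ∀ s : ℝ, S0 ≤ s → s ^ (-β) ≤ S0 ^ (-β) := fun s hs =>
      Real.rpow_le_rpow_of_nonpos hS0 hs (by linarith)
    have h1 : e.B k / e.S ≤ K * e.S ^ (-β) := by
      rw [div_le_iff₀ hSe]
      refine (hP e he).2.trans (le_of_eq ?_)
      rw [mul_assoc]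
      congr 1
      rw [sub_eq_add_neg, Real.rpow_add hSe, Real.rpow_one, mul_comm]
    have h2 := mul_le_mul_of_nonneg_left (anti _ (hP e he).1) hK
    have h3 : 0 ≤ 2 * K / β := by positivity
    have h4 := mul_le_mul_of_nonneg_left (anti _ (hP o ho).1) h3
    have h5 : 0 ≤ 2 * K / β * e.S ^ (-β) := mul_nonneg h3 (Real.rpow_nonneg hSe.le _)
    have e1 : K * S0 ^ (-β) * (1 + 2 / β) = K * S0 ^ (-β) + 2 * K / β * S0 ^ (-β) := by ring
    rw [e1]
    simp only
    linarith

/-! ### The weights `1 + x² + ...` -/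

variable {m : ℕ}

lemma wt_Wt (m : ℕ) : Wt (wt m) :=
  ⟨wt_cont m, wt_nonneg m, by linarith [one_le_wt m 0]⟩

lemma seg_ge {a b : ℝ} (hab : 0 < b) (ha : a = b / 2) : ∫ x in a..b, (1 - x / b) = b / 8 := by
  subst ha
  rw [intervalIntegral.integral_sub (by simp) (Continuous.intervalIntegrable (by fun_prop) _ _),
    intervalIntegral.integral_div, integral_id]
  simp
  field_simp
  ring

lemma WOrb.S_right (hg : Rest g) (hm : Monotone g) (o : WOrb g f (wt m)) :
    wt m (o.r / 2) * (o.r / 8) ≤ o.S := by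
  have hl := o.loop.up.hl
  have hr := o.loop.up.hr
  have hpc := hg.pot_cont
  have hpr := hg.pot_pos hr.ne'
  have hpl := hg.pot_pos hl.ne
  have hwc := wt_cont m
  have h := o.int_ge hg hwc (wt_nonneg m)
  have h1 : 0 ≤ ∫ x in o.l..0, wt m x * (1 - pot g x / pot g o.l) := by
    refine intervalIntegral.integral_nonneg hl.le fun x hx => mul_nonneg (wt_nonneg m x) ?_
    rw [sub_nonneg, div_le_one hpl]
    exact hg.strictAntiOn.antitoneOn (mem_Iic.2 hl.le) (mem_Iic.2 hx.2) hx.1
  have hcont : Continuous fun x => wt m x * (1 - pot g x / pot g o.r) := by fun_prop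
  have h2 : ∫ x in (0:ℝ)..o.r, wt m x * (1 - pot g x / pot g o.r) =
      (∫ x in (0:ℝ)..(o.r / 2), wt m x * (1 - pot g x / pot g o.r)) +
      ∫ x in (o.r / 2)..o.r, wt m x * (1 - pot g x / pot g o.r) :=
    (intervalIntegral.integral_add_adjacent_intervals (hcont.intervalIntegrable _ _)
      (hcont.intervalIntegrable _ _)).symm
  have hle : ∀ x ∈ Icc 0 o.r, pot g x / pot g o.r ≤ x / o.r := by
    intro x hx
    rw [div_le_div_iff₀ hpr hr]
    have := pot_right hg hm hx.1 hx.2
    linarith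
  have h3 : 0 ≤ ∫ x in (0:ℝ)..(o.r / 2), wt m x * (1 - pot g x / pot g o.r) := by
    refine intervalIntegral.integral_nonneg (by linarith) fun x hx =>
      mul_nonneg (wt_nonneg m x) ?_
    have := hle x ⟨hx.1, by linarith [hx.2]⟩
    have h5 : x / o.r ≤ 1 := by rw [div_le_one hr]; linarith [hx.2]
    linarith
  have h4 : ∫ x in (o.r / 2)..o.r, wt m (o.r / 2) * (1 - x / o.r) ≤
      ∫ x in (o.r / 2)..o.r, wt m x * (1 - pot g x / pot g o.r) := by
    refine intervalIntegral.integral_mono_on (by linarith)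
      (Continuous.intervalIntegrable (by fun_prop) _ _) (hcont.intervalIntegrable _ _)
      fun x hx => ?_
    have h5 := hle x ⟨by linarith [hx.1], hx.2⟩
    have h6 : x / o.r ≤ 1 := by rw [div_le_one hr]; exact hx.2
    have h7 : wt m (o.r / 2) ≤ wt m x := wt_mono m (by
      rw [abs_of_pos (by linarith), abs_of_pos (by linarith [hx.1])]
      exact hx.1)
    exact mul_le_mul h7 (by linarith) (by linarith) (wt_nonneg m x)
  rw [intervalIntegral.integral_const_mul, seg_ge hr rfl] at h4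
  unfold WOrb.S
  linarith

lemma WOrb.S_left (hg : Rest g) (hm : Monotone g) (o : WOrb g f (wt m)) :
    wt m (o.l / 2) * (-o.l / 8) ≤ o.S := by
  have hl := o.loop.up.hl
  have hr := o.loop.up.hr
  have hpc := hg.pot_cont
  have hpr := hg.pot_pos hr.ne'
  have hpl := hg.pot_pos hl.ne
  have hwc := wt_cont m
  have h := o.int_ge hg hwc (wt_nonneg m)
  have h1 : 0 ≤ ∫ x in (0:ℝ)..o.r, wt m x * (1 - pot g x / pot g o.r) := by
    refine intervalIntegral.integral_nonneg hr.le fun x hx => mul_nonneg (wt_nonneg m x) ?_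
    rw [sub_nonneg, div_le_one hpr]
    exact hg.strictMonoOn.monotoneOn (mem_Ici.2 hx.1) (mem_Ici.2 hr.le) hx.2
  have hcont : Continuous fun x => wt m x * (1 - pot g x / pot g o.l) := by fun_prop
  have h2 : ∫ x in o.l..0, wt m x * (1 - pot g x / pot g o.l) =
      (∫ x in o.l..(o.l / 2), wt m x * (1 - pot g x / pot g o.l)) +
      ∫ x in (o.l / 2)..0, wt m x * (1 - pot g x / pot g o.l) :=
    (intervalIntegral.integral_add_adjacent_intervals (hcont.intervalIntegrable _ _)
      (hcont.intervalIntegrable _ _)).symm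
  have hle : ∀ x ∈ Icc o.l 0, pot g x / pot g o.l ≤ x / o.l := by
    intro x hx
    rw [div_le_iff₀ hpl, div_mul_eq_mul_div, le_div_iff_of_neg hl]
    have := pot_left hg hm hx.2 hx.1
    linarith
  have h3 : 0 ≤ ∫ x in (o.l / 2)..0, wt m x * (1 - pot g x / pot g o.l) := by
    refine intervalIntegral.integral_nonneg (by linarith) fun x hx =>
      mul_nonneg (wt_nonneg m x) ?_
    have := hle x ⟨by linarith [hx.1], hx.2⟩
    have h5 : x / o.l ≤ 1 := by rw [div_le_iff_of_neg hl]; linarith [hx.1]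
    linarith
  have h4 : ∫ x in o.l..(o.l / 2), wt m (o.l / 2) * (1 - x / o.l) ≤
      ∫ x in o.l..(o.l / 2), wt m x * (1 - pot g x / pot g o.l) := by
    refine intervalIntegral.integral_mono_on (by linarith)
      (Continuous.intervalIntegrable (by fun_prop) _ _) (hcont.intervalIntegrable _ _)
      fun x hx => ?_
    have h5 := hle x ⟨hx.1, by linarith [hx.2]⟩
    have h6 : x / o.l ≤ 1 := by rw [div_le_iff_of_neg hl]; linarith [hx.1]
    have h7 : wt m (o.l / 2) ≤ wt m x := wt_mono m (by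
      rw [abs_of_neg (by linarith), abs_of_neg (by linarith [hx.2])]
      linarith [hx.2])
    exact mul_le_mul h7 (by linarith) (by linarith) (wt_nonneg m x)
  have h5 : ∫ x in o.l..(o.l / 2), (1 - x / o.l) = -o.l / 8 := by
    rw [intervalIntegral.integral_sub (by simp) (Continuous.intervalIntegrable (by fun_prop) _ _),
      intervalIntegral.integral_div, integral_id]
    have := hl.ne
    simp
    field_simp
    ring
  rw [intervalIntegral.integral_const_mul, h5] at h4
  unfold WOrb.S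
  linarith

/-- the width is at most twice the size -/
lemma WOrb.S_half (hg : Rest g) (hm : Monotone g) (o : WOrb g f (wt m)) :
    (o.r - o.l) / 2 ≤ o.S := by
  have hl := o.loop.up.hl
  have hr := o.loop.up.hr
  have hpc := hg.pot_cont
  have hpl := hg.pot_pos hl.ne
  have hpr := hg.pot_pos hr.ne'
  have h := o.int_ge hg (k := fun _ => 1) continuous_const fun _ => zero_le_one
  have e1 : ∫ x in o.l..0, (1:ℝ) * (1 - pot g x / pot g o.l) =
      -o.l - (∫ x in o.l..0, pot g x) / pot g o.l := by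
    simp only [one_mul]
    rw [intervalIntegral.integral_sub, intervalIntegral.integral_div]
    · simp
    · exact Continuous.intervalIntegrable (by fun_prop) _ _
    · exact Continuous.intervalIntegrable (by fun_prop) _ _
  have e2 : ∫ x in (0:ℝ)..o.r, (1:ℝ) * (1 - pot g x / pot g o.r) =
      o.r - (∫ x in (0:ℝ)..o.r, pot g x) / pot g o.r := by
    simp only [one_mul]
    rw [intervalIntegral.integral_sub, intervalIntegral.integral_div]
    · simp
    · exact Continuous.intervalIntegrable (by fun_prop) _ _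
    · exact Continuous.intervalIntegrable (by fun_prop) _ _
  have h1 : (∫ x in o.l..0, pot g x) / pot g o.l ≤ (1 - 1 / 2) * -o.l := by
    rw [div_le_iff₀ hpl]
    have := conv_half hg hm o.l
    rw [abs_of_neg hl, intervalIntegral.integral_symm, abs_neg] at this
    have h2 := le_abs_self (∫ x in o.l..0, pot g x)
    linarith
  have h2 : (∫ x in (0:ℝ)..o.r, pot g x) / pot g o.r ≤ (1 - 1 / 2) * o.r := by
    rw [div_le_iff₀ hpr]
    have := conv_half hg hm o.r
    rw [abs_of_pos hr] at this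
    have h2 := le_abs_self (∫ x in (0:ℝ)..o.r, pot g x)
    linarith
  rw [e1, e2] at h
  have h3 : ∫ x, 1 * o.d x ≤ o.S := by
    refine integral_mono (o.integrable hg continuous_const) (o.integrable hg (wt_cont m))
      fun x => ?_
    exact mul_le_mul_of_nonneg_right (one_le_wt m x) (o.d_nonneg hg x)
  linarith

/-- the amplitude -/
noncomputable def WOrb.ρ (o : WOrb g f w) : ℝ := max o.r (-o.l)

lemma WOrb.ρ_mem (o : WOrb g f w) {x : ℝ} (hx : x ∈ Icc o.l o.r) : |x| ≤ o.ρ :=
  abs_le.2 ⟨by linarith [hx.1, le_max_right o.r (-o.l), show o.ρ = max o.r (-o.l) from rfl],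
    hx.2.trans (le_max_left _ _)⟩

lemma WOrb.S_ρ (hg : Rest g) (hm : Monotone g) (o : WOrb g f (wt m)) :
    wt m (o.ρ / 2) * (o.ρ / 8) ≤ o.S := by
  unfold WOrb.ρ
  rcases max_choice o.r (-o.l) with h | h
  · rw [h]; exact o.S_right hg hm
  · rw [h, show -o.l / 2 = -(o.l / 2) by ring, wt_neg]
    exact o.S_left hg hm

lemma WOrb.S_le (hg : Rest g) (o : WOrb g f (wt m)) : o.S ≤ 4 * (o.ρ * wt m o.ρ) := by
  have hl := o.loop.up.hl
  have hr := o.loop.up.hr
  have hlr : o.l ≤ o.r := (hl.trans hr).le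
  have h1 : o.S ≤ ∫ x, (Icc o.l o.r).indicator (fun _ => 2 * wt m o.ρ) x := by
    refine integral_mono (o.integrable hg (wt_cont m)) ?_ fun x => ?_
    · rw [integrable_indicator_iff measurableSet_Icc]
      exact continuous_const.continuousOn.integrableOn_Icc
    · by_cases hx : x ∈ Icc o.l o.r
      · simp only [indicator_of_mem hx]
        have h2 := o.d_le hg x
        have h3 : wt m x ≤ wt m o.ρ := wt_mono m ((o.ρ_mem hx).trans (le_abs_self _))
        have h4 := o.d_nonneg hg x
        have := mul_le_mul h3 h2 h4 (wt_nonneg m _)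
        linarith
      · have : o.d x = 0 := dens_zero hx
        simp only [indicator_of_notMem hx, this, mul_zero, le_refl]
  refine h1.trans ?_
  rw [integral_indicator measurableSet_Icc, integral_Icc_eq_integral_Ioc,
    ← intervalIntegral.integral_of_le hlr, intervalIntegral.integral_const, smul_eq_mul]
  have h2 : o.r - o.l ≤ 2 * o.ρ := by
    have := le_max_left o.r (-o.l)
    have := le_max_right o.r (-o.l)
    unfold WOrb.ρ
    linarith
  have h3 := mul_le_mul_of_nonneg_right h2 (show 0 ≤ 2 * wt m o.ρ by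
    have := wt_nonneg m o.ρ; positivity)
  linarith

end Pool.Agent.K9h2.LW
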